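import Pool.Agent.Helper6.CXT.BX3

/-!
Far cells of tail classes, row BOX: boxes without run parameter.
-/

set_option autoImplicit false
set_option exponentiation.threshold 4000
noncomputable section
namespace Pool.Agent.Helper6.CXT

open Pool.Agent.Helper86.CX renaming Hm → Hm, ev → hev
open Pool.Agent.Helper94.CXF (M9)
open Pool.Agent.Helper94.CXF
open Pool.Agent.Helper94.CXF.SD
open Pool.Agent.Helper48.CXT
open Complex ComplexConjugate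

/-! ### Boolean functions -/

theorem lev_sound {a b : ℕ} {f : ℕ → ℕ → Bool} {i : ℕ} (h : KT.lev a b f i = true) (c : Bool) :
    ∃ j, f (sl a b c) j = true := by
  have h' : Bool.rec (motive := fun _ => Bool) (KN.andB (f a (Nat.add i i))
    (f b (Nat.succ (Nat.add i i)))) (f a i) (Nat.beq a b) = true := h
  cases hb : Nat.beq a b with
  | false =>
    rw [hb] at h'
    have h' : KN.andB (f a (Nat.add i i)) (f b (Nat.succ (Nat.add i i))) = true := h'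
    rw [andB_iff] at h'
    cases c
    · exact ⟨_, h'.1⟩
    · exact ⟨_, h'.2⟩
  | true =>
    rw [hb] at h'
    have h' : f a i = true := h'
    rw [Nat.beq_eq] at hb
    subst hb
    cases c
    · exact ⟨_, h'⟩
    · exact ⟨_, h'⟩

theorem cor_sound {b : KT.Bx} {f : ℕ → ℕ → ℕ → ℕ → Bool} (h : KT.cor b f = true)
    (c1 c2 c3 : Bool) :
    ∃ j, f (sl b.a1 b.b1 c1) (sl b.a2 b.b2 c2) (sl b.a3 b.b3 c3) j = true := by
  unfold KT.cor at h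
  obtain ⟨j1, h1⟩ := lev_sound h c1
  obtain ⟨j2, h2⟩ := lev_sound h1 c2
  exact lev_sound h2 c3

structure DifP (b : KT.Bx) (t : KT.Lf) (F : ℕ → ℕ → ℕ → KT.MP) : Prop where
  d1 : ∀ c2 c3, KT.f9 (KT.sbP (F (sl b.a1 b.b1 true) (sl b.a2 b.b2 c2) (sl b.a3 b.b3 c3))
    (F (sl b.a1 b.b1 false) (sl b.a2 b.b2 c2) (sl b.a3 b.b3 c3))) t.d1 = true
  d2 : ∀ c1 c3, KT.f9 (KT.sbP (F (sl b.a1 b.b1 c1) (sl b.a2 b.b2 true) (sl b.a3 b.b3 c3))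
    (F (sl b.a1 b.b1 c1) (sl b.a2 b.b2 false) (sl b.a3 b.b3 c3))) t.d2 = true
  d3 : ∀ c1 c2, KT.f9 (KT.sbP (F (sl b.a1 b.b1 c1) (sl b.a2 b.b2 c2) (sl b.a3 b.b3 true))
    (F (sl b.a1 b.b1 c1) (sl b.a2 b.b2 c2) (sl b.a3 b.b3 false))) t.d3 = true

theorem dif_sound {b : KT.Bx} {t : KT.Lf} {F : ℕ → ℕ → ℕ → KT.MP} (h : KT.dif b t F = true) :
    DifP b t F := by
  unfold KT.dif at h
  rw [andB_iff, andB_iff] at h
  obtain ⟨h1, h2, h3⟩ := h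
  refine ⟨fun c2 c3 => ?_, fun c1 c3 => ?_, fun c1 c2 => ?_⟩
  · obtain ⟨_, k1⟩ := lev_sound h1 c2
    obtain ⟨_, k2⟩ := lev_sound k1 c3
    exact k2
  · obtain ⟨_, k1⟩ := lev_sound h2 c1
    obtain ⟨_, k2⟩ := lev_sound k1 c3
    exact k2
  · obtain ⟨_, k1⟩ := lev_sound h3 c1
    obtain ⟨_, k2⟩ := lev_sound k1 c2
    exact k2

theorem ml_lt (M i : ℕ) : KT.ml M i < 2 ^ 32 := by
  unfold KT.ml
  exact Nat.mod_lt _ (by norm_num)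

structure BndP (t : KT.Lf) : Prop where
  n : t.n ≤ 2 ^ 145
  m : t.m ≤ 2 ^ 145
  y : t.y ≤ 2 ^ 60
  d1 : t.d1 ≤ 2 ^ 60
  d2 : t.d2 ≤ 2 ^ 60
  d3 : t.d3 ≤ 2 ^ 60

theorem bnd_sound {t : KT.Lf} (h : KT.bnd t = true) : BndP t := by
  unfold KT.bnd at h
  simp only [andB_iff] at h
  obtain ⟨⟨h1, h2, h3⟩, h4, h5, h6⟩ := h
  exact ⟨Nat.le_of_ble_eq_true h1, Nat.le_of_ble_eq_true h2, Nat.le_of_ble_eq_true h3,
    Nat.le_of_ble_eq_true h4, Nat.le_of_ble_eq_true h5, Nat.le_of_ble_eq_true h6⟩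

/-! ### the slack -/

theorem pS_eq (la ka d : ℕ) (t : KT.Lf) : KT.pS la ka d t =
    2 ^ 60 * (la * (t.d1 * t.d1 + (t.d2 * t.d2 + t.d3 * t.d3))) +
      2 ^ 62 * (ka * (d * (t.y + t.y + d))) + 2 ^ 158 := by
  rw [← p158_eq]
  rfl

theorem pS_le {la ka d : ℕ} {t : KT.Lf} (hl : la ≤ 2 ^ 28) (hk : ka ≤ 2 ^ 28) (hd : d ≤ 2 ^ 54)
    (h : BndP t) : KT.pS la ka d t ≤ 2 ^ 215 := by
  rw [pS_eq]
  have a1 : t.d1 * t.d1 ≤ 2 ^ 60 * 2 ^ 60 := Nat.mul_le_mul h.d1 h.d1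
  have a2 : t.d2 * t.d2 ≤ 2 ^ 60 * 2 ^ 60 := Nat.mul_le_mul h.d2 h.d2
  have a3 : t.d3 * t.d3 ≤ 2 ^ 60 * 2 ^ 60 := Nat.mul_le_mul h.d3 h.d3
  have a4 : t.d1 * t.d1 + (t.d2 * t.d2 + t.d3 * t.d3) ≤ 3 * 2 ^ 120 := by
    have e : (2 : ℕ) ^ 60 * 2 ^ 60 = 2 ^ 120 := by norm_num
    rw [e] at a1 a2 a3
    omega
  have a5 : la * (t.d1 * t.d1 + (t.d2 * t.d2 + t.d3 * t.d3)) ≤ 2 ^ 28 * (3 * 2 ^ 120) :=
    Nat.mul_le_mul hl a4
  have b1 : t.y + t.y + d ≤ 2 ^ 62 := by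
    have := h.y
    omega
  have b2 : d * (t.y + t.y + d) ≤ 2 ^ 54 * 2 ^ 62 := Nat.mul_le_mul hd b1
  have b3 : ka * (d * (t.y + t.y + d)) ≤ 2 ^ 28 * (2 ^ 54 * 2 ^ 62) := Nat.mul_le_mul hk b2
  omega

/-! ### the end -/

theorem box_end {K : Hm ℝ} {la ka d a d1 d2 d3 : ℕ} {n t1 t2 t3 : ℝ} {S : Submodule ℝ V}
    {Y : Bool → Bool → Bool → V} {w : V} (i1 : I01 t1) (i2 : I01 t2) (i3 : I01 t3) (n0 : 0 ≤ n)
    (hS : ∀ v ∈ S, hev K v ≤ la * nr v) (hY : ∀ c1 c2 c3 e1 e2 e3, Y c1 c2 c3 - Y e1 e2 e3 ∈ S)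
    (h1 : ∀ c2 c3, nr (Y true c2 c3 - Y false c2 c3) ≤ (d1 : ℝ) ^ 2 * n)
    (h2 : ∀ c1 c3, nr (Y c1 true c3 - Y c1 false c3) ≤ (d2 : ℝ) ^ 2 * n)
    (h3 : ∀ c1 c2, nr (Y c1 c2 true - Y c1 c2 false) ≤ (d3 : ℝ) ^ 2 * n)
    (ha : ∀ c1 c2 c3, nr (Y c1 c2 c3) ≤ (a : ℝ) ^ 2 * n)
    (hw : nr (w - y3 t1 t2 t3 Y) ≤ (d : ℝ) ^ 2 * n) (hK : frR K ≤ (ka : ℝ) ^ 2)
    (hp : ∀ c1 c2 c3, (2 ^ 60 * (la * (d1 * d1 + (d2 * d2 + d3 * d3))) +
      2 ^ 62 * (ka * (d * (a + a + d))) + 2 ^ 158 : ℝ) * n ≤ 2 ^ 62 * hev K (Y c1 c2 c3)) :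
    2 ^ 158 * n ≤ 2 ^ 62 * hev K w := by
  have l0 : (0 : ℝ) ≤ la := Nat.cast_nonneg _
  have c := core3 (K := K) (la := la) (m := (2 ^ 60 * (la * (d1 * d1 + (d2 * d2 + d3 * d3))) +
      2 ^ 62 * (ka * (d * (a + a + d))) + 2 ^ 158 : ℝ) * n / 2 ^ 62) l0 i1.1 i1.2 i2.1 i2.2
      i3.1 i3.2 hS hY h1 h2 h3 (fun c1 c2 c3 => by
        rw [div_le_iff₀ (by positivity), mul_comm]
        rw [mul_comm]
        have := hp c1 c2 c3
        linarith)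
  have e := err_le (K := K) (ka := ka) (a := a) (d := d) (n := n) (by positivity) (by positivity)
    (by positivity) n0 hK (nr_y3 i1.1 i1.2 i2.1 i2.2 i3.1 i3.2 ha) hw
  have e2 : y3 t1 t2 t3 Y + (w - y3 t1 t2 t3 Y) = w := by abel
  rw [e2] at e
  have c' := mul_le_mul_of_nonneg_left c (show (0 : ℝ) ≤ 2 ^ 62 by positivity)
  have e' := mul_le_mul_of_nonneg_left e (show (0 : ℝ) ≤ 2 ^ 62 by positivity)
  have e3 : 2 ^ 62 * ((2 ^ 60 * (la * (d1 * d1 + (d2 * d2 + d3 * d3))) +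
      2 ^ 62 * (ka * (d * (a + a + d))) + 2 ^ 158 : ℝ) * n / 2 ^ 62 -
      la * ((d1 : ℝ) ^ 2 * n + (d2 : ℝ) ^ 2 * n + (d3 : ℝ) ^ 2 * n) / 4) =
      2 ^ 62 * (ka * (d * (2 * a + d)) * n) + 2 ^ 158 * n := by
    ring
  rw [e3] at c'
  linarith

/-! ### matrices and vectors -/

theorem ap1_cm (c : ℝ) (S : M9 ℝ) (d : ℝ) (T : M9 ℝ) (x : V) :
    ap1 (cm1 c S d T) x = c • ap1 S x + d • ap1 T x := by
  funext j
  fin_cases j
  · show ap1 _ x 0 = (c • ap1 S x + d • ap1 T x) 0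
    simp only [Pi.add_apply, Pi.smul_apply, Complex.real_smul]
    rw [ap1_0, ap1_0, ap1_0]; simp only [cm1]; push_cast; ring
  · show ap1 _ x 1 = (c • ap1 S x + d • ap1 T x) 1
    simp only [Pi.add_apply, Pi.smul_apply, Complex.real_smul]
    rw [ap1_1, ap1_1, ap1_1]; simp only [cm1]; push_cast; ring
  · show ap1 _ x 2 = (c • ap1 S x + d • ap1 T x) 2
    simp only [Pi.add_apply, Pi.smul_apply, Complex.real_smul]
    rw [ap1_2, ap1_2, ap1_2]; simp only [cm1]; push_cast; ring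

theorem ap_cmb (c : ℝ) (S : P9) (d : ℝ) (T : P9) (e : ℂ) (x : V) :
    ap (cmb c S d T) e x = c • ap S e x + d • ap T e x := by
  rw [ap_eq, ap_eq, ap_eq]
  show ap1 (cm1 c S.1 d T.1) x + e • ap1 (cm1 c S.2 d T.2) x = _
  rw [ap1_cm, ap1_cm, smul_add, smul_comm e c, smul_comm e d, smul_add, smul_add]
  abel

theorem ap_it1 (t : ℝ) (Z : Bool → P9) (e : ℂ) (x : V) :
    ap (it1 t Z) e x = it t (ap (Z false) e x) (ap (Z true) e x) := by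
  rw [it1, ap_cmb]
  rfl

theorem ap_it3 (t1 t2 t3 : ℝ) (Z : Bool → Bool → Bool → P9) (e : ℂ) (x : V) :
    ap (it3 t1 t2 t3 Z) e x = y3 t1 t2 t3 fun c1 c2 c3 => ap (Z c1 c2 c3) e x := by
  rw [it3, ap_it1]
  simp only [ap_it1]
  rfl

theorem normSq_e {x0 s : ℝ} {u : ℂ} (h : Cv x0 s u) : normSq ((s : ℂ) * u) ≤ 1 / 64 := by
  rw [normSq_mul, normSq_ofReal, h.nm, mul_one]
  have := mul_self_le_mul_self h.s0 h.s1
  linarith

theorem hev_smR (K : Hm ℝ) (c : ℝ) (y : V) : hev K (c • y) = c ^ 2 * hev K y := by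
  simp only [hev, Pi.smul_apply, Complex.real_smul, normSq_apply, map_mul, Complex.mul_re,
    Complex.mul_im, Complex.ofReal_re, Complex.ofReal_im, Complex.conj_re, Complex.conj_im]
  ring

theorem hev_48 (K : Hm ℝ) (y : V) : hev K ((2 ^ 48 : ℝ) • y) = 2 ^ 96 * hev K y := by
  rw [hev_smR]
  norm_num

/-- from the error of the matrices -/
theorem near_vec {T W : P9} {d : ℕ} {e : ℂ} (he : normSq e ≤ 1 / 64)
    (h : g9 (cmb (2 ^ 48) T (-1) W) ≤ (d : ℝ) ^ 2) (x : V) :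
    nr ((2 ^ 48 : ℝ) • ap T e x - ap W e x) ≤ (d : ℝ) ^ 2 * nr x := by
  have h1 := nr_ap (T := cmb (2 ^ 48) T (-1) W) he x
  rw [ap_cmb] at h1
  have e1 : (2 ^ 48 : ℝ) • ap T e x + (-1 : ℝ) • ap W e x =
      (2 ^ 48 : ℝ) • ap T e x - ap W e x := by
    rw [neg_one_smul, sub_eq_add_neg]
  rw [e1] at h1
  exact h1.trans (mul_le_mul_of_nonneg_right h (nr_nonneg x))

theorem f9_vec {N : KT.MP} {Z : M9 ℤ × M9 ℤ} {d : ℕ} {e : ℂ} (he : normSq e ≤ 1 / 64)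
    (r : Rq (2 ^ 56) N Z) (h : KT.f9 N d = true) (x : V) :
    nr (ap (rP Z) e x) ≤ (d : ℝ) ^ 2 * nr x :=
  (nr_ap he x).trans (mul_le_mul_of_nonneg_right (f9_sound r h) (nr_nonneg x))

theorem f9_dif {N M : KT.MP} {Z W : M9 ℤ × M9 ℤ} {d : ℕ} {e : ℂ} (he : normSq e ≤ 1 / 64)
    (r : RpP N Z) (q : RpP M W) (h : KT.f9 (KT.sbP N M) d = true) (x : V) :
    nr (ap (rP Z) e x - ap (rP W) e x) ≤ (d : ℝ) ^ 2 * nr x := by
  rw [← ap_sbQ]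
  exact f9_vec he (((rq_of r).sb (rq_of q)).mono (by norm_num)) h x

/-- BOXES WITHOUT RUN PARAMETER -/
theorem boxP : BoxP := by
  intro xc x0 s u X K' Kn Kz' Kz la ka c1 c2 c3 F b t Z T hX hI hK' bK' hKn bK hl hk hfr hL hC
    hN hd h v hv hKv
  unfold KT.leafP at h
  rw [andB_iff, andB_iff] at h
  obtain ⟨hb, hdf, hc⟩ := h
  have B := bnd_sound hb
  have DF := dif_sound hdf
  obtain ⟨t1, t2, t3, i1, i2, i3, hg⟩ := hN
  have he := normSq_e hI.cv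
  set e : ℂ := (s : ℂ) * u with he'
  set Y : Bool → Bool → Bool → V := fun c1 c2 c3 => ap (rP (Z c1 c2 c3)) e v with hY
  have hp := pS_le hl hk hd B (t := t)
  have npos := nr_pos hv
  -- corners
  have corner : ∀ e1 e2 e3, nr (Y e1 e2 e3) ≤ (t.y : ℝ) ^ 2 * nr v ∧
      (KT.pS la ka (KT.dT c1 c2 c3 b) t : ℝ) * nr v ≤ 2 ^ 62 * hev (rH Kz') (Y e1 e2 e3) := by
    intro e1 e2 e3
    obtain ⟨j, hj⟩ := cor_sound hc e1 e2 e3
    unfold KT.cnP at hj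
    rw [andB_iff, andB_iff] at hj
    obtain ⟨f, g, k⟩ := hj
    have r := hC e1 e2 e3
    refine ⟨f9_vec he ((rq_of r).mono (by norm_num)) f v, ?_⟩
    have RC := gf_rep hK' r.r1 r.r2
    have BC := (gf_bd (b := 2 ^ 54) (c := 2 ^ 141) bK' r.b1 r.b2 (by norm_num)).mono
      (c := 2 ^ 150) (by norm_num)
    have Q := chs_sound (x0 := xc) (Q := fun s => ∀ u, Cv x0 s u →
        (KT.pS la ka (KT.dT c1 c2 c3 b) t : ℝ) * nr v ≤
          2 ^ 62 * valG (gfz Kz' (Z e1 e2 e3)) (s * u) v) hX.ns ?_ ?_ t.c X.k hX.st k hX.lt s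
        hI.s0 hI.s1 u hI.cv
    · rw [valG_gf] at Q
      exact Q
    · intro k0 k1 l hf
      rw [andB_iff] at hf
      exact Nat.le_of_ble_eq_true hf.1
    · rintro k0 k1 l ⟨u0, h0⟩ ⟨u1, h1⟩ hf s s0 s1 u hu
      rw [andB_iff] at hf
      have := chord_ctl hX.hx hX.hx2 hX.hr2 h0 h1 (Nat.le_of_ble_eq_true hf.1) hu hI.x1 hI.x2 s0
        s1 RC BC g hKn bK B.n B.m hp (by norm_num) (ml_lt _ _) (ml_lt _ _) hf.2 hKv
      simpa using this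
  have E := box_end (K := rH Kz') (la := la) (ka := ka) (d := KT.dT c1 c2 c3 b) (a := t.y)
    (d1 := t.d1) (d2 := t.d2) (d3 := t.d3) (n := nr v) (Y := Y)
    (w := (2 ^ 48 : ℝ) • ap T e v) i1 i2 i3 npos.le (fun w hw => hL e v w hw)
    (fun a1 a2 a3 b1 b2 b3 => Submodule.subset_span ⟨a1, a2, a3, b1, b2, b3, rfl⟩)
    (fun a2 a3 => f9_dif he (hC _ _ _) (hC _ _ _) (DF.d1 a2 a3) v)
    (fun a1 a3 => f9_dif he (hC _ _ _) (hC _ _ _) (DF.d2 a1 a3) v)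
    (fun a1 a2 => f9_dif he (hC _ _ _) (hC _ _ _) (DF.d3 a1 a2) v)
    (fun a1 a2 a3 => (corner a1 a2 a3).1)
    (by
      have := near_vec he hg v
      rwa [ap_it3] at this)
    (by
      rw [frR_rH]
      have : ((frz Kz' : ℤ) : ℝ) ≤ (((ka : ℤ) ^ 2 : ℤ) : ℝ) := by exact_mod_cast hfr
      push_cast at this
      exact this)
    (fun a1 a2 a3 => by
      have := (corner a1 a2 a3).2
      rw [pS_eq] at this
      push_cast at this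
      refine le_trans (le_of_eq ?_) this
      ring)
  rw [hev_48] at E
  have E2 : (0 : ℝ) < (2 ^ 62 * 2 ^ 96) * hev (rH Kz') (ap T e v) := by
    have : (0 : ℝ) < 2 ^ 158 * nr v := by positivity
    linarith
  exact (pos_iff_pos_of_mul_pos E2).1 (by positivity)

end Pool.Agent.Helper6.CXT
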