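import Pool.Agent.Helper94.CXF.S6

/-!
Far cells of tail classes, row BOX: interpolation of a Hermitian form (real side).
-/

set_option autoImplicit false
set_option exponentiation.threshold 4000
noncomputable section
namespace Pool.Agent.Helper6.CXT

open Pool.Agent.Helper86.CX renaming Hm → Hm, ev → hev
open Pool.Agent.Helper94.CXF (M9)
open Pool.Agent.Helper94.CXF
open Pool.Agent.Helper94.CXF.SD
open Complex ComplexConjugate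

abbrev V := Fin 3 → ℂ

/-- interpolation -/
def it (t : ℝ) (y z : V) : V := (1 - t) • y + t • z

theorem it_app (t : ℝ) (y z : V) (j : Fin 3) : it t y z j = (1 - t : ℝ) * y j + (t : ℝ) * z j := by
  simp only [it, Pi.add_apply, Pi.smul_apply, Complex.real_smul]

theorem hev_it (K : Hm ℝ) (t : ℝ) (y z : V) :
    hev K (it t y z) = (1 - t) * hev K y + t * hev K z - t * (1 - t) * hev K (z - y) := by
  simp only [hev, it_app, Pi.sub_apply]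
  simp [normSq_apply]
  ring

theorem nr_it (t : ℝ) (y z : V) :
    nr (it t y z) = (1 - t) * nr y + t * nr z - t * (1 - t) * nr (z - y) := by
  simp only [nr, it_app, Pi.sub_apply]
  simp [normSq_apply]
  ring

theorem tt4 {t : ℝ} (t0 : 0 ≤ t) (t1 : t ≤ 1) : 0 ≤ t * (1 - t) ∧ t * (1 - t) ≤ 1 / 4 :=
  ⟨mul_nonneg t0 (by linarith), by nlinarith [sq_nonneg (t - 1 / 2)]⟩

theorem nr_it_le {t D : ℝ} {y z : V} (t0 : 0 ≤ t) (t1 : t ≤ 1) (hy : nr y ≤ D) (hz : nr z ≤ D) :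
    nr (it t y z) ≤ D := by
  rw [nr_it]
  have h1 := mul_le_mul_of_nonneg_left hy (sub_nonneg.2 t1)
  have h2 := mul_le_mul_of_nonneg_left hz t0
  have h3 := mul_nonneg (tt4 t0 t1).1 (nr_nonneg (z - y))
  linarith

theorem it_sub (t : ℝ) (y z y' z' : V) : it t y z - it t y' z' = it t (y - y') (z - z') := by
  funext j
  simp only [Pi.sub_apply, it_app]
  ring

theorem it_mem {S : Submodule ℝ V} {t : ℝ} {y z : V} (hy : y ∈ S) (hz : z ∈ S) : it t y z ∈ S :=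
  S.add_mem (S.smul_mem _ hy) (S.smul_mem _ hz)

/-- one step -/
theorem step {K : Hm ℝ} {la m D t : ℝ} {y z : V} (l0 : 0 ≤ la) (t0 : 0 ≤ t) (t1 : t ≤ 1)
    (hy : m ≤ hev K y) (hz : m ≤ hev K z) (hK : hev K (z - y) ≤ la * nr (z - y))
    (hD : nr (z - y) ≤ D) : m - la * D / 4 ≤ hev K (it t y z) := by
  rw [hev_it]
  obtain ⟨q0, q1⟩ := tt4 t0 t1
  have D0 : 0 ≤ D := (nr_nonneg _).trans hD
  have h1 := mul_le_mul_of_nonneg_left hy (sub_nonneg.2 t1)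
  have h2 := mul_le_mul_of_nonneg_left hz t0
  have h3 : hev K (z - y) ≤ la * D := hK.trans (mul_le_mul_of_nonneg_left hD l0)
  have h4 := mul_le_mul_of_nonneg_left h3 q0
  have h5 := mul_le_mul_of_nonneg_right q1 (mul_nonneg l0 D0)
  linarith

/-- interpolation in three directions -/
def y3 (t1 t2 t3 : ℝ) (Y : Bool → Bool → Bool → V) : V :=
  it t1 (it t2 (it t3 (Y false false false) (Y false false true))
      (it t3 (Y false true false) (Y false true true)))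
    (it t2 (it t3 (Y true false false) (Y true false true))
      (it t3 (Y true true false) (Y true true true)))

section
variable {K : Hm ℝ} {la m D1 D2 D3 t1 t2 t3 : ℝ} {Y : Bool → Bool → Bool → V}

theorem core3 {S : Submodule ℝ V} (l0 : 0 ≤ la) (a1 : 0 ≤ t1) (b1 : t1 ≤ 1) (a2 : 0 ≤ t2)
    (b2 : t2 ≤ 1) (a3 : 0 ≤ t3) (b3 : t3 ≤ 1) (hS : ∀ v ∈ S, hev K v ≤ la * nr v)
    (hY : ∀ c1 c2 c3 d1 d2 d3, Y c1 c2 c3 - Y d1 d2 d3 ∈ S)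
    (h1 : ∀ c2 c3, nr (Y true c2 c3 - Y false c2 c3) ≤ D1)
    (h2 : ∀ c1 c3, nr (Y c1 true c3 - Y c1 false c3) ≤ D2)
    (h3 : ∀ c1 c2, nr (Y c1 c2 true - Y c1 c2 false) ≤ D3)
    (hm : ∀ c1 c2 c3, m ≤ hev K (Y c1 c2 c3)) :
    m - la * (D1 + D2 + D3) / 4 ≤ hev K (y3 t1 t2 t3 Y) := by
  have s3 : ∀ c1 c2, m - la * D3 / 4 ≤ hev K (it t3 (Y c1 c2 false) (Y c1 c2 true)) :=
    fun c1 c2 => step l0 a3 b3 (hm _ _ _) (hm _ _ _) (hS _ (hY _ _ _ _ _ _)) (h3 c1 c2)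
  have s2 : ∀ c1, m - la * D3 / 4 - la * D2 / 4 ≤ hev K (it t2 (it t3 (Y c1 false false)
      (Y c1 false true)) (it t3 (Y c1 true false) (Y c1 true true))) := by
    intro c1
    refine step l0 a2 b2 (s3 _ _) (s3 _ _) (hS _ ?_) ?_
    · rw [it_sub]
      exact it_mem (hY _ _ _ _ _ _) (hY _ _ _ _ _ _)
    · rw [it_sub]
      exact nr_it_le a3 b3 (h2 _ _) (h2 _ _)
  have s1 : m - la * D3 / 4 - la * D2 / 4 - la * D1 / 4 ≤ hev K (y3 t1 t2 t3 Y) := by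
    refine step l0 a1 b1 (s2 _) (s2 _) (hS _ ?_) ?_
    · rw [it_sub, it_sub, it_sub]
      exact it_mem (it_mem (hY _ _ _ _ _ _) (hY _ _ _ _ _ _))
        (it_mem (hY _ _ _ _ _ _) (hY _ _ _ _ _ _))
    · rw [it_sub, it_sub, it_sub]
      exact nr_it_le a2 b2 (nr_it_le a3 b3 (h1 _ _) (h1 _ _)) (nr_it_le a3 b3 (h1 _ _) (h1 _ _))
  linarith

theorem nr_y3 {D : ℝ} (a1 : 0 ≤ t1) (b1 : t1 ≤ 1) (a2 : 0 ≤ t2) (b2 : t2 ≤ 1) (a3 : 0 ≤ t3)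
    (b3 : t3 ≤ 1) (h : ∀ c1 c2 c3, nr (Y c1 c2 c3) ≤ D) : nr (y3 t1 t2 t3 Y) ≤ D :=
  nr_it_le a1 b1 (nr_it_le a2 b2 (nr_it_le a3 b3 (h _ _ _) (h _ _ _))
    (nr_it_le a3 b3 (h _ _ _) (h _ _ _))) (nr_it_le a2 b2 (nr_it_le a3 b3 (h _ _ _) (h _ _ _))
    (nr_it_le a3 b3 (h _ _ _) (h _ _ _)))

end

/-! ### the bilinear form -/

def bl (K : Hm ℝ) (y z : V) : ℂ := sq2 (GR.hR K) (GR.hJ K) y z

theorem bl_self (K : Hm ℝ) (y : V) : hev K y = (bl K y y).re := hev_sq2 K y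

/-- expansion with a real error -/
theorem hev_add1 (K : Hm ℝ) (y z : V) :
    hev K (y + z) = hev K y + 2 * (bl K y z).re + hev K z := by
  have h := hev_add K 1 y z
  rw [one_smul, one_mul, map_one, one_mul] at h
  exact h

def frR (K : Hm ℝ) : ℝ :=
  K.a * K.a + K.b * K.b + K.c * K.c + 2 * (K.d * K.d + K.e * K.e + K.f * K.f + K.g * K.g +
    K.h * K.h + K.i * K.i)

theorem frR_eq (K : Hm ℝ) : GR.sqM (GR.hR K) + GR.sqM (GR.hJ K) = frR K := by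
  simp only [GR.sqM, GR.hR, GR.hJ, frR]
  ring

theorem sq2_le2 (X J : M9 ℝ) (y z : V) :
    ‖sq2 X J y z‖ ^ 2 ≤ (GR.sqM X + GR.sqM J) * (nr y * nr z) := by
  have key : ∀ p q : ℝ, ‖((p : ℂ) + q * I)‖ ^ 2 = p * p + q * q := by
    intro p q
    rw [← normSq_eq_norm_sq, normSq_add_mul_I]
    ring
  have e1 : sq2 X J y z =
      (conj (y 0) * ((X.a + J.a * I) * z 0) + conj (y 0) * ((X.b + J.b * I) * z 1) +
        conj (y 0) * ((X.c + J.c * I) * z 2)) +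
      (conj (y 1) * ((X.d + J.d * I) * z 0) + conj (y 1) * ((X.e + J.e * I) * z 1) +
        conj (y 1) * ((X.f + J.f * I) * z 2)) +
      (conj (y 2) * ((X.g + J.g * I) * z 0) + conj (y 2) * ((X.h + J.h * I) * z 1) +
        conj (y 2) * ((X.i + J.i * I) * z 2)) := by
    rw [sq2]; ring
  have nn : ∀ (i j : Fin 3) (c : ℂ), ‖conj (y i) * (c * z j)‖ = ‖c‖ * (‖y i‖ * ‖z j‖) := by
    intro i j c
    rw [norm_mul, norm_mul, RCLike.norm_conj]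
    ring
  have e2 : ‖sq2 X J y z‖ ≤
      (‖((X.a : ℂ) + J.a * I)‖ * (‖y 0‖ * ‖z 0‖) + ‖((X.b : ℂ) + J.b * I)‖ * (‖y 0‖ * ‖z 1‖) +
        ‖((X.c : ℂ) + J.c * I)‖ * (‖y 0‖ * ‖z 2‖)) +
      (‖((X.d : ℂ) + J.d * I)‖ * (‖y 1‖ * ‖z 0‖) + ‖((X.e : ℂ) + J.e * I)‖ * (‖y 1‖ * ‖z 1‖) +
        ‖((X.f : ℂ) + J.f * I)‖ * (‖y 1‖ * ‖z 2‖)) +
      (‖((X.g : ℂ) + J.g * I)‖ * (‖y 2‖ * ‖z 0‖) + ‖((X.h : ℂ) + J.h * I)‖ * (‖y 2‖ * ‖z 1‖) +
        ‖((X.i : ℂ) + J.i * I)‖ * (‖y 2‖ * ‖z 2‖)) := by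
    rw [e1]
    have t3 : ∀ a b c : ℂ, ‖a + b + c‖ ≤ ‖a‖ + ‖b‖ + ‖c‖ := fun a b c => norm_add₃_le
    refine (t3 _ _ _).trans ?_
    have f1 := t3 (conj (y 0) * ((X.a + J.a * I) * z 0)) (conj (y 0) * ((X.b + J.b * I) * z 1))
      (conj (y 0) * ((X.c + J.c * I) * z 2))
    have f2 := t3 (conj (y 1) * ((X.d + J.d * I) * z 0)) (conj (y 1) * ((X.e + J.e * I) * z 1))
      (conj (y 1) * ((X.f + J.f * I) * z 2))
    have f3 := t3 (conj (y 2) * ((X.g + J.g * I) * z 0)) (conj (y 2) * ((X.h + J.h * I) * z 1))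
      (conj (y 2) * ((X.i + J.i * I) * z 2))
    simp only [nn] at f1 f2 f3
    linarith
  have cs := Finset.sum_mul_sq_le_sq_mul_sq (Finset.univ : Finset (Fin 9))
    (![‖((X.a : ℂ) + J.a * I)‖, ‖((X.b : ℂ) + J.b * I)‖, ‖((X.c : ℂ) + J.c * I)‖,
      ‖((X.d : ℂ) + J.d * I)‖, ‖((X.e : ℂ) + J.e * I)‖, ‖((X.f : ℂ) + J.f * I)‖,
      ‖((X.g : ℂ) + J.g * I)‖, ‖((X.h : ℂ) + J.h * I)‖, ‖((X.i : ℂ) + J.i * I)‖])
    (![‖y 0‖ * ‖z 0‖, ‖y 0‖ * ‖z 1‖, ‖y 0‖ * ‖z 2‖, ‖y 1‖ * ‖z 0‖, ‖y 1‖ * ‖z 1‖, ‖y 1‖ * ‖z 2‖,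
      ‖y 2‖ * ‖z 0‖, ‖y 2‖ * ‖z 1‖, ‖y 2‖ * ‖z 2‖])
  simp [Fin.sum_univ_succ] at cs
  simp only [key] at cs
  have e3 := pow_le_pow_left₀ (norm_nonneg _) e2 2
  have e4 : ∀ x : V, nr x = ‖x 0‖ ^ 2 + ‖x 1‖ ^ 2 + ‖x 2‖ ^ 2 := by
    intro x
    simp only [nr, normSq_eq_norm_sq]
  rw [e4, e4]
  simp only [GR.sqM]
  refine e3.trans (le_trans (le_of_eq ?_) (cs.trans (le_of_eq ?_)))
  · ring
  · ring

/-- bound of a Hermitian form by its Frobenius norm -/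
theorem hev_sq_le (K : Hm ℝ) (x : V) : (hev K x) ^ 2 ≤ frR K * (nr x) ^ 2 := by
  rw [bl_self, ← frR_eq]
  have h := sq2_le (GR.hR K) (GR.hJ K) x
  have h2 : (bl K x x).re ^ 2 ≤ ‖bl K x x‖ ^ 2 := by
    rw [← sq_abs]
    exact pow_le_pow_left₀ (abs_nonneg _) (abs_re_le_norm _) 2
  exact h2.trans h

/-- the error at the end -/
theorem err_le {K : Hm ℝ} {ka a d n : ℝ} (ka0 : 0 ≤ ka) (a0 : 0 ≤ a) (d0 : 0 ≤ d) (n0 : 0 ≤ n)
    (hK : frR K ≤ ka ^ 2) {y z : V} (hy : nr y ≤ a ^ 2 * n) (hz : nr z ≤ d ^ 2 * n) :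
    hev K y - ka * (d * (2 * a + d)) * n ≤ hev K (y + z) := by
  have h1 : ‖bl K y z‖ ≤ ka * (a * d) * n := by
    refine le_of_sq_le_sq (b := ka * (a * d) * n) ?_ (by positivity)
    refine (sq2_le2 _ _ y z).trans ?_
    rw [frR_eq]
    have q1 : nr y * nr z ≤ (a ^ 2 * n) * (d ^ 2 * n) :=
      mul_le_mul hy hz (nr_nonneg _) (by positivity)
    have q2 : frR K * (nr y * nr z) ≤ ka ^ 2 * ((a ^ 2 * n) * (d ^ 2 * n)) :=
      mul_le_mul hK q1 (mul_nonneg (nr_nonneg _) (nr_nonneg _)) (by positivity)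
    refine q2.trans (le_of_eq ?_)
    ring
  have h2 : |hev K z| ≤ ka * (d ^ 2 * n) := by
    refine abs_le_of_sq_le_sq (a := hev K z) (b := ka * (d ^ 2 * n)) ?_ (by positivity)
    refine (hev_sq_le K z).trans ?_
    have q1 : (nr z) ^ 2 ≤ (d ^ 2 * n) ^ 2 := pow_le_pow_left₀ (nr_nonneg _) hz 2
    have q2 : frR K * (nr z) ^ 2 ≤ ka ^ 2 * (d ^ 2 * n) ^ 2 :=
      mul_le_mul hK q1 (by positivity) (by positivity)
    refine q2.trans (le_of_eq ?_)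
    ring
  rw [hev_add1]
  have h3 := (abs_le.1 ((abs_re_le_norm (bl K y z)).trans h1)).1
  have h4 := (abs_le.1 h2).1
  have e : ka * (d * (2 * a + d)) * n = 2 * (ka * (a * d) * n) + ka * (d ^ 2 * n) := by ring
  rw [e]
  linarith

end Pool.Agent.Helper6.CXT
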