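import Pool.Agent.Helper6.CXT.BX1
import Pool.Agent.Helper48.CXT.KS

/-!
Far cells of tail classes, row BOX: norms of matrices, pulled back forms.
-/

set_option autoImplicit false
set_option exponentiation.threshold 4000
noncomputable section
namespace Pool.Agent.Helper6.CXT

open Pool.Agent.Helper86.CX renaming Hm → Hm, ev → hev
open Pool.Agent.Helper94.CXF (M9)
open Pool.Agent.Helper94.CXF
open Pool.Agent.Helper94.CXF.SD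
open Pool.Agent.Helper48.CXT
open Complex ComplexConjugate

/-! ### norms of matrices -/

theorem cs3 (a b c : ℝ) (x y z : ℂ) : normSq ((a : ℂ) * x + b * y + c * z) ≤
    (a * a + b * b + c * c) * (normSq x + normSq y + normSq z) := by
  have e : (a * a + b * b + c * c) * (normSq x + normSq y + normSq z) -
      normSq ((a : ℂ) * x + b * y + c * z) =
      (a * y.re - b * x.re) ^ 2 + (a * y.im - b * x.im) ^ 2 + (a * z.re - c * x.re) ^ 2 +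
      (a * z.im - c * x.im) ^ 2 + (b * z.re - c * y.re) ^ 2 + (b * z.im - c * y.im) ^ 2 := by
    simp [normSq_apply]
    ring
  have : 0 ≤ (a * y.re - b * x.re) ^ 2 + (a * y.im - b * x.im) ^ 2 + (a * z.re - c * x.re) ^ 2 +
      (a * z.im - c * x.im) ^ 2 + (b * z.re - c * y.re) ^ 2 + (b * z.im - c * y.im) ^ 2 := by
    positivity
  linarith

theorem nr_ap1 (T : M9 ℝ) (x : V) : nr (ap1 T x) ≤ GR.sqM T * nr x := by
  have h0 := cs3 T.a T.b T.c (x 0) (x 1) (x 2)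
  have h1 := cs3 T.d T.e T.f (x 0) (x 1) (x 2)
  have h2 := cs3 T.g T.h T.i (x 0) (x 1) (x 2)
  have e : nr (ap1 T x) = normSq ((T.a : ℂ) * x 0 + T.b * x 1 + T.c * x 2) +
      normSq ((T.d : ℂ) * x 0 + T.e * x 1 + T.f * x 2) +
      normSq ((T.g : ℂ) * x 0 + T.h * x 1 + T.i * x 2) := by
    rw [nr, ap1_0, ap1_1, ap1_2]
  rw [e]
  have e2 : GR.sqM T * nr x = (T.a * T.a + T.b * T.b + T.c * T.c) *
        (normSq (x 0) + normSq (x 1) + normSq (x 2)) +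
      (T.d * T.d + T.e * T.e + T.f * T.f) * (normSq (x 0) + normSq (x 1) + normSq (x 2)) +
      (T.g * T.g + T.h * T.h + T.i * T.i) * (normSq (x 0) + normSq (x 1) + normSq (x 2)) := by
    simp only [GR.sqM, nr]
    ring
  rw [e2]
  linarith

theorem nr_ad (y w : V) : nr (y + w) ≤ 9 / 8 * nr y + 9 * nr w := by
  have e : nr (y + w) = 9 / 8 * nr y + 9 * nr w - 1 / 8 * nr (y - (8 : ℝ) • w) := by
    simp only [nr, Pi.add_apply, Pi.sub_apply, Pi.smul_apply, Complex.real_smul]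
    simp [normSq_apply]
    ring
  have := nr_nonneg (y - (8 : ℝ) • w)
  linarith

theorem nr_sm (e : ℂ) (w : V) : nr (e • w) = normSq e * nr w := by
  simp only [nr, Pi.smul_apply, smul_eq_mul, normSq_mul]
  ring

theorem nr_ap {T : P9} {e : ℂ} (he : normSq e ≤ 1 / 64) (x : V) :
    nr (ap T e x) ≤ g9 T * nr x := by
  rw [ap_eq]
  refine (nr_ad _ _).trans ?_
  rw [nr_sm]
  have h0 := nr_ap1 T.1 x
  have h1 := nr_ap1 T.2 x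
  have h2 : normSq e * nr (ap1 T.2 x) ≤ 1 / 64 * nr (ap1 T.2 x) :=
    mul_le_mul_of_nonneg_right he (nr_nonneg _)
  have e1 : g9 T * nr x = 9 / 8 * (GR.sqM T.1 * nr x) + 9 / 64 * (GR.sqM T.2 * nr x) := by
    rw [g9]; ring
  rw [e1]
  linarith

/-! ### the test of the norm -/

theorem ble_le {A B : ℕ} {v : ℤ} (h : Nat.ble (Nat.mod A KN.MM) B = true) (hv : Rp A v)
    (h0 : 0 ≤ v) (h1 : v < 2 ^ 1152) : v ≤ (B : ℤ) := by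
  have h2 : A % KN.MM ≤ B := Nat.le_of_ble_eq_true h
  have h3 : ((A % KN.MM : ℕ) : ℤ) = v := hv.mod_eq MM_pos h0 (by rw [MM_eq]; exact_mod_cast h1)
  rw [← h3]
  exact_mod_cast h2

theorem sq9_rep {A : M9 ℕ} {Z : M9 ℤ} (r : RM A Z) : Rp (KT.sq9 A) (GR.sqM Z) := by
  have h := (sR_rep r).add (sB_rep r)
  have e : GR.sqM Z = (Z.a * Z.a + (Z.b * Z.b + (Z.c * Z.c + (Z.d * Z.d + Z.g * Z.g)))) +
      (Z.e * Z.e + (Z.f * Z.f + (Z.h * Z.h + Z.i * Z.i))) := by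
    simp only [GR.sqM]; ring
  rw [e]
  exact h

/-- natural matrices representing integer ones, with a bound -/
structure Rq (b : ℤ) (N : KT.MP) (Z : M9 ℤ × M9 ℤ) : Prop where
  r1 : RM N.1 Z.1
  r2 : RM N.2 Z.2
  b1 : BM b Z.1
  b2 : BM b Z.2

theorem g9_rP (Z : M9 ℤ × M9 ℤ) :
    g9 (rP Z) = ((9 * (8 * GR.sqM Z.1 + GR.sqM Z.2) : ℤ) : ℝ) / 64 := by
  have h : ∀ A : M9 ℤ, GR.sqM (rM A) = ((GR.sqM A : ℤ) : ℝ) := fun A => by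
    rw [rM, ← GR.mp_sqM]; rfl
  rw [g9, rP]
  simp only [h]
  push_cast
  ring

theorem f9_sound {N : KT.MP} {Z : M9 ℤ × M9 ℤ} {d : ℕ} (r : Rq (2 ^ 56) N Z)
    (h : KT.f9 N d = true) : g9 (rP Z) ≤ (d : ℝ) ^ 2 := by
  have hr := (Pool.Agent.Helper17.PAK.Rep.nat KN.MM 9).mul
    (((Pool.Agent.Helper17.PAK.Rep.nat KN.MM 8).mul (sq9_rep r.r1)).add (sq9_rep r.r2))
  have n1 := sqM_nonneg Z.1
  have n2 := sqM_nonneg Z.2
  have m1 := sqM_bd r.b1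
  have m2 := sqM_bd r.b2
  have h1 := ble_le h hr (by push_cast; linarith) (by
    have : (9 : ℤ) * (8 * (9 * (2 ^ 56 * 2 ^ 56)) + 9 * (2 ^ 56 * 2 ^ 56)) < 2 ^ 1152 := by
      decide +kernel
    push_cast
    linarith)
  have h2 : ((Nat.mul 64 (Nat.mul d d) : ℕ) : ℤ) = 64 * ((d : ℤ) * d) := by
    show ((64 * (d * d) : ℕ) : ℤ) = _
    push_cast; ring
  rw [h2] at h1
  push_cast at h1
  have h3 : ((9 * (8 * GR.sqM Z.1 + GR.sqM Z.2) : ℤ) : ℝ) ≤ ((64 * ((d : ℤ) * d) : ℤ) : ℝ) := by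
    exact_mod_cast h1
  rw [g9_rP, div_le_iff₀ (by norm_num)]
  refine h3.trans (le_of_eq ?_)
  push_cast
  ring

/-! ### sums and differences of matrices -/

def sbZ (A B : M9 ℤ) : M9 ℤ :=
  ⟨A.a - B.a, A.b - B.b, A.c - B.c, A.d - B.d, A.e - B.e, A.f - B.f, A.g - B.g, A.h - B.h,
    A.i - B.i⟩
def adZ (A B : M9 ℤ) : M9 ℤ :=
  ⟨A.a + B.a, A.b + B.b, A.c + B.c, A.d + B.d, A.e + B.e, A.f + B.f, A.g + B.g, A.h + B.h,
    A.i + B.i⟩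

theorem sbM_rep {A B : M9 ℕ} {A' B' : M9 ℤ} (p : RM A A') (q : RM B B') :
    RM (KT.sbM A B) (sbZ A' B') :=
  ⟨rp_sb p.a q.a, rp_sb p.b q.b, rp_sb p.c q.c, rp_sb p.d q.d, rp_sb p.e q.e, rp_sb p.f q.f,
    rp_sb p.g q.g, rp_sb p.h q.h, rp_sb p.i q.i⟩
theorem adM_rep {A B : M9 ℕ} {A' B' : M9 ℤ} (p : RM A A') (q : RM B B') :
    RM (KT.adM A B) (adZ A' B') :=
  ⟨p.a.add q.a, p.b.add q.b, p.c.add q.c, p.d.add q.d, p.e.add q.e, p.f.add q.f, p.g.add q.g,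
    p.h.add q.h, p.i.add q.i⟩

theorem sbZ_bd {A B : M9 ℤ} {b : ℤ} (p : BM b A) (q : BM b B) : BM (2 * b) (sbZ A B) :=
  ⟨ab2' p.a q.a, ab2' p.b q.b, ab2' p.c q.c, ab2' p.d q.d, ab2' p.e q.e, ab2' p.f q.f,
    ab2' p.g q.g, ab2' p.h q.h, ab2' p.i q.i⟩
theorem adZ_bd {A B : M9 ℤ} {b : ℤ} (p : BM b A) (q : BM b B) : BM (2 * b) (adZ A B) :=
  ⟨ab2 p.a q.a, ab2 p.b q.b, ab2 p.c q.c, ab2 p.d q.d, ab2 p.e q.e, ab2 p.f q.f,
    ab2 p.g q.g, ab2 p.h q.h, ab2 p.i q.i⟩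

theorem ap1_sb (A B : M9 ℤ) (x : V) : ap1 (rM (sbZ A B)) x = ap1 (rM A) x - ap1 (rM B) x := by
  funext j
  fin_cases j
  · show ap1 _ x 0 = ap1 _ x 0 - ap1 _ x 0
    rw [ap1_0, ap1_0, ap1_0]; simp only [rM, GR.mpM, sbZ, cI_apply]; push_cast; ring
  · show ap1 _ x 1 = ap1 _ x 1 - ap1 _ x 1
    rw [ap1_1, ap1_1, ap1_1]; simp only [rM, GR.mpM, sbZ, cI_apply]; push_cast; ring
  · show ap1 _ x 2 = ap1 _ x 2 - ap1 _ x 2
    rw [ap1_2, ap1_2, ap1_2]; simp only [rM, GR.mpM, sbZ, cI_apply]; push_cast; ring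

theorem ap1_ad (A B : M9 ℤ) (x : V) : ap1 (rM (adZ A B)) x = ap1 (rM A) x + ap1 (rM B) x := by
  funext j
  fin_cases j
  · show ap1 _ x 0 = ap1 _ x 0 + ap1 _ x 0
    rw [ap1_0, ap1_0, ap1_0]; simp only [rM, GR.mpM, adZ, cI_apply]; push_cast; ring
  · show ap1 _ x 1 = ap1 _ x 1 + ap1 _ x 1
    rw [ap1_1, ap1_1, ap1_1]; simp only [rM, GR.mpM, adZ, cI_apply]; push_cast; ring
  · show ap1 _ x 2 = ap1 _ x 2 + ap1 _ x 2
    rw [ap1_2, ap1_2, ap1_2]; simp only [rM, GR.mpM, adZ, cI_apply]; push_cast; ring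

def sbQ (A B : M9 ℤ × M9 ℤ) : M9 ℤ × M9 ℤ := (sbZ A.1 B.1, sbZ A.2 B.2)
def adQ (A B : M9 ℤ × M9 ℤ) : M9 ℤ × M9 ℤ := (adZ A.1 B.1, adZ A.2 B.2)

theorem ap_sbQ (A B : M9 ℤ × M9 ℤ) (e : ℂ) (x : V) :
    ap (rP (sbQ A B)) e x = ap (rP A) e x - ap (rP B) e x := by
  rw [ap_eq, ap_eq, ap_eq]
  show ap1 (rM (sbZ A.1 B.1)) x + e • ap1 (rM (sbZ A.2 B.2)) x = _
  rw [ap1_sb, ap1_sb, smul_sub]
  show _ = ap1 (rM A.1) x + e • ap1 (rM A.2) x - (ap1 (rM B.1) x + e • ap1 (rM B.2) x)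
  abel

theorem ap_adQ (A B : M9 ℤ × M9 ℤ) (e : ℂ) (x : V) :
    ap (rP (adQ A B)) e x = ap (rP A) e x + ap (rP B) e x := by
  rw [ap_eq, ap_eq, ap_eq]
  show ap1 (rM (adZ A.1 B.1)) x + e • ap1 (rM (adZ A.2 B.2)) x = _
  rw [ap1_ad, ap1_ad, smul_add]
  show _ = ap1 (rM A.1) x + e • ap1 (rM A.2) x + (ap1 (rM B.1) x + e • ap1 (rM B.2) x)
  abel

theorem Rq.sb {b : ℤ} {N M : KT.MP} {Z W : M9 ℤ × M9 ℤ} (p : Rq b N Z) (q : Rq b M W) :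
    Rq (2 * b) (KT.sbP N M) (sbQ Z W) :=
  ⟨sbM_rep p.r1 q.r1, sbM_rep p.r2 q.r2, sbZ_bd p.b1 q.b1, sbZ_bd p.b2 q.b2⟩
theorem Rq.ad {b : ℤ} {N M : KT.MP} {Z W : M9 ℤ × M9 ℤ} (p : Rq b N Z) (q : Rq b M W) :
    Rq (2 * b) (KT.adP N M) (adQ Z W) :=
  ⟨adM_rep p.r1 q.r1, adM_rep p.r2 q.r2, adZ_bd p.b1 q.b1, adZ_bd p.b2 q.b2⟩
theorem Rq.mono {b c : ℤ} {N : KT.MP} {Z : M9 ℤ × M9 ℤ} (p : Rq b N Z) (h : b ≤ c) :
    Rq c N Z := ⟨p.r1, p.r2, p.b1.mono h, p.b2.mono h⟩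

theorem rq_of {N : KT.MP} {Z : M9 ℤ × M9 ℤ} (h : RpP N Z) : Rq (2 ^ 54) N Z :=
  ⟨h.r1, h.r2, h.b1, h.b2⟩

/-! ### pulled back forms -/

/-- integer forms -/
structure GZ where
  P : Hm ℤ
  A : Hm ℤ
  B : Hm ℤ
  S : Hm ℤ

structure RG (C : KT.Gf) (Z : GZ) : Prop where
  P : RH C.P Z.P
  A : RH C.A Z.A
  B : RH C.B Z.B
  S : RH C.S Z.S

structure BG (b : ℤ) (Z : GZ) : Prop where
  P : BH b Z.P
  A : BH b Z.A
  B : BH b Z.B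
  S : BH b Z.S

theorem BG.mono {b c : ℤ} {Z : GZ} (h : BG b Z) (hb : b ≤ c) : BG c Z :=
  ⟨h.P.mono hb, h.A.mono hb, h.B.mono hb, h.S.mono hb⟩

def valG (C : GZ) (e : ℂ) (x : V) : ℝ :=
  hev (rH C.P) x + e.re * hev (rH C.A) x - e.im * hev (rH C.B) x + normSq e * hev (rH C.S) x

def gfz (K : Hm ℤ) (Z : M9 ℤ × M9 ℤ) : GZ :=
  ⟨GR.hm (GR.qr K Z.1 Z.1) (GR.qi K Z.1 Z.1), GR.cA (GR.qr K Z.1 Z.2) (GR.qi K Z.1 Z.2),
    GR.cB (GR.qr K Z.1 Z.2) (GR.qi K Z.1 Z.2), GR.hm (GR.qr K Z.2 Z.2) (GR.qi K Z.2 Z.2)⟩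

theorem valG_gf (K : Hm ℤ) (Z : M9 ℤ × M9 ℤ) (e : ℂ) (x : V) :
    valG (gfz K Z) e x = hev (rH K) (ap (rP Z) e x) := by
  rw [hev_ap, valG, gfz]
  simp only [hev_PZ, hev_AZ, hev_BZ, rP, mul_re]
  ring

theorem gf_rep {K : Hm ℕ} {K' : Hm ℤ} {N : KT.MP} {Z : M9 ℤ × M9 ℤ} (hK : RH K K')
    (r1 : RM N.1 Z.1) (r2 : RM N.2 Z.2) : RG (KT.gf K N) (gfz K' Z) :=
  ⟨hm_rep (qr_rep hK r1 r1) (qi_rep hK r1 r1), cA_rep (qr_rep hK r1 r2) (qi_rep hK r1 r2),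
    cB_rep (qr_rep hK r1 r2) (qi_rep hK r1 r2), hm_rep (qr_rep hK r2 r2) (qi_rep hK r2 r2)⟩

theorem gf_bd {K : Hm ℤ} {Z : M9 ℤ × M9 ℤ} {b c : ℤ} (hK : BH (2 ^ 27) K) (b1 : BM b Z.1)
    (b2 : BM b Z.2) (hc : 9 * (2 ^ 27 * b * b) ≤ c) : BG (2 * c) (gfz K Z) := by
  have c0 : 0 ≤ c := by
    refine le_trans ?_ hc
    have : 0 ≤ b * b := mul_self_nonneg b
    nlinarith
  have h1 := (qr_bd hK b1 b1).mono hc
  have h2 := (qi_bd hK b1 b1).mono hc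
  have h3 := (qr_bd hK b1 b2).mono hc
  have h4 := (qi_bd hK b1 b2).mono hc
  have h5 := (qr_bd hK b2 b2).mono hc
  have h6 := (qi_bd hK b2 b2).mono hc
  exact ⟨(hm_bd h1 h2).mono (by linarith), cA_bd h3 h4, cB_bd h3 h4,
    (hm_bd h5 h6).mono (by linarith)⟩

/-! ### combinations -/

def s3z (X Y Z : Hm ℤ) : Hm ℤ := GR.adH X (GR.smH (-1) (GR.adH Y Z))
def a4z (X Y : Hm ℤ) : Hm ℤ := GR.adH X (GR.smH 4 Y)
def s3g (X Y Z : GZ) : GZ := ⟨s3z X.P Y.P Z.P, s3z X.A Y.A Z.A, s3z X.B Y.B Z.B, s3z X.S Y.S Z.S⟩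
def a4g (X Y : GZ) : GZ := ⟨a4z X.P Y.P, a4z X.A Y.A, a4z X.B Y.B, a4z X.S Y.S⟩

theorem s3_rep {x y z : ℕ} {x' y' z' : ℤ} (hx : Rp x x') (hy : Rp y y') (hz : Rp z z') :
    Rp (KT.s3 x y z) (x' + -1 * (y' + z')) :=
  (hx.add (rep_NN.mul (hy.add hz))).mod

theorem s3H_rep {X Y Z : Hm ℕ} {X' Y' Z' : Hm ℤ} (p : RH X X') (q : RH Y Y') (r : RH Z Z') :
    RH (KT.s3H X Y Z) (s3z X' Y' Z') :=
  ⟨s3_rep p.a q.a r.a, s3_rep p.b q.b r.b, s3_rep p.c q.c r.c, s3_rep p.d q.d r.d,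
    s3_rep p.e q.e r.e, s3_rep p.f q.f r.f, s3_rep p.g q.g r.g, s3_rep p.h q.h r.h,
    s3_rep p.i q.i r.i⟩

theorem a4H_rep {X Y : Hm ℕ} {X' Y' : Hm ℤ} (p : RH X X') (q : RH Y Y') :
    RH (KT.a4H X Y) (a4z X' Y') := by
  have f := Pool.Agent.Helper17.PAK.Rep.nat KN.MM 4
  exact ⟨p.a.add (f.mul q.a), p.b.add (f.mul q.b), p.c.add (f.mul q.c), p.d.add (f.mul q.d),
    p.e.add (f.mul q.e), p.f.add (f.mul q.f), p.g.add (f.mul q.g), p.h.add (f.mul q.h),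
    p.i.add (f.mul q.i)⟩

theorem s3G_rep {X Y Z : KT.Gf} {X' Y' Z' : GZ} (p : RG X X') (q : RG Y Y') (r : RG Z Z') :
    RG (KT.s3G X Y Z) (s3g X' Y' Z') :=
  ⟨s3H_rep p.P q.P r.P, s3H_rep p.A q.A r.A, s3H_rep p.B q.B r.B, s3H_rep p.S q.S r.S⟩
theorem a4G_rep {X Y : KT.Gf} {X' Y' : GZ} (p : RG X X') (q : RG Y Y') :
    RG (KT.a4G X Y) (a4g X' Y') :=
  ⟨a4H_rep p.P q.P, a4H_rep p.A q.A, a4H_rep p.B q.B, a4H_rep p.S q.S⟩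

theorem s3z_bd {X Y Z : Hm ℤ} {b : ℤ} (p : BH b X) (q : BH b Y) (r : BH b Z) :
    BH (3 * b) (s3z X Y Z) :=
  (adH_bd p (smH_bd (r := 1) (by norm_num) (adH_bd q r))).mono (by linarith)
theorem a4z_bd {X Y : Hm ℤ} {b c : ℤ} (p : BH b X) (q : BH c Y) : BH (b + 4 * c) (a4z X Y) :=
  adH_bd p (smH_bd (r := 4) (by norm_num) q)
theorem s3g_bd {X Y Z : GZ} {b : ℤ} (p : BG b X) (q : BG b Y) (r : BG b Z) :
    BG (3 * b) (s3g X Y Z) :=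
  ⟨s3z_bd p.P q.P r.P, s3z_bd p.A q.A r.A, s3z_bd p.B q.B r.B, s3z_bd p.S q.S r.S⟩
theorem a4g_bd {X Y : GZ} {b c : ℤ} (p : BG b X) (q : BG c Y) : BG (b + 4 * c) (a4g X Y) :=
  ⟨a4z_bd p.P q.P, a4z_bd p.A q.A, a4z_bd p.B q.B, a4z_bd p.S q.S⟩

theorem hev_s3 (X Y Z : Hm ℤ) (x : V) :
    hev (rH (s3z X Y Z)) x = hev (rH X) x - hev (rH Y) x - hev (rH Z) x := by
  rw [s3z, hev_ad, hev_sm', hev_ad]; push_cast; ring
theorem hev_a4 (X Y : Hm ℤ) (x : V) :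
    hev (rH (a4z X Y)) x = hev (rH X) x + 4 * hev (rH Y) x := by
  rw [a4z, hev_ad, hev_sm']; push_cast; ring
theorem val_s3 (X Y Z : GZ) (e : ℂ) (x : V) :
    valG (s3g X Y Z) e x = valG X e x - valG Y e x - valG Z e x := by
  simp only [valG, s3g, hev_s3]; ring
theorem val_a4 (X Y : GZ) (e : ℂ) (x : V) :
    valG (a4g X Y) e x = valG X e x + 4 * valG Y e x := by
  simp only [valG, a4g, hev_a4]; ring

/-! ### Frobenius norms -/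

theorem frH_rep {A : Hm ℕ} {Z : Hm ℤ} (r : RH A Z) : Rp (KT.frH A) (frz Z) := by
  have h := ((r.a.mul r.a).add ((r.b.mul r.b).add (r.c.mul r.c))).add
    ((Pool.Agent.Helper17.PAK.Rep.nat KN.MM 2).mul
      (((r.d.mul r.d).add ((r.e.mul r.e).add ((r.f.mul r.f).add (r.g.mul r.g)))).add
        ((r.h.mul r.h).add (r.i.mul r.i))))
  have e : frz Z = (Z.a * Z.a + (Z.b * Z.b + Z.c * Z.c)) + ((2 : ℕ) : ℤ) *
      ((Z.d * Z.d + (Z.e * Z.e + (Z.f * Z.f + Z.g * Z.g))) + (Z.h * Z.h + Z.i * Z.i)) := by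
    simp only [frz]; push_cast; ring
  rw [e]
  exact h

theorem frz_nonneg (Z : Hm ℤ) : 0 ≤ frz Z := by
  simp only [frz]
  linarith [mul_self_nonneg Z.a, mul_self_nonneg Z.b, mul_self_nonneg Z.c, mul_self_nonneg Z.d,
    mul_self_nonneg Z.e, mul_self_nonneg Z.f, mul_self_nonneg Z.g, mul_self_nonneg Z.h,
    mul_self_nonneg Z.i]

theorem frz_bd {Z : Hm ℤ} {b : ℤ} (h : BH b Z) : frz Z ≤ 15 * (b * b) := by
  simp only [frz]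
  linarith [sqz h.a, sqz h.b, sqz h.c, sqz h.d, sqz h.e, sqz h.f, sqz h.g, sqz h.h, sqz h.i]

theorem frR_rH (Z : Hm ℤ) : frR (rH Z) = ((frz Z : ℤ) : ℝ) := by
  simp only [frR, rH, GR.mpH, frz, cI_apply]
  push_cast
  ring

theorem nmC_sound {C : KT.Gf} {Z : GZ} {w n m : ℕ} (r : RG C Z) (b : BG (2 ^ 200) Z)
    (h : KT.nmC w n m C = true) :
    frR (rH Z.A) + frR (rH Z.B) ≤ ((w : ℝ) * n) ^ 2 ∧ frR (rH Z.S) ≤ ((w : ℝ) * m) ^ 2 := by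
  unfold KT.nmC at h
  rw [andB_iff] at h
  obtain ⟨h1, h2⟩ := h
  have bb : (15 : ℤ) * (2 ^ 200 * 2 ^ 200) + 15 * (2 ^ 200 * 2 ^ 200) < 2 ^ 1152 := by
    decide +kernel
  have a1 := ble_le h1 ((frH_rep r.A).add (frH_rep r.B))
    (add_nonneg (frz_nonneg _) (frz_nonneg _)) (by
      have := frz_bd b.A
      have := frz_bd b.B
      linarith)
  have a2 := ble_le h2 (frH_rep r.S) (frz_nonneg _) (by
      have := frz_bd b.S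
      linarith)
  constructor
  · rw [frR_rH, frR_rH]
    have : (((frz Z.A + frz Z.B : ℤ)) : ℝ) ≤ (((Nat.mul (Nat.mul w n) (Nat.mul w n) : ℕ) : ℤ) : ℝ) := by
      exact_mod_cast a1
    push_cast at this
    refine this.trans (le_of_eq ?_)
    show (((w * n) * (w * n) : ℕ) : ℝ) = _
    push_cast; ring
  · rw [frR_rH]
    have : (((frz Z.S : ℤ)) : ℝ) ≤ (((Nat.mul (Nat.mul w m) (Nat.mul w m) : ℕ) : ℤ) : ℝ) := by
      exact_mod_cast a2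
    push_cast at this
    refine this.trans (le_of_eq ?_)
    show (((w * m) * (w * m) : ℕ) : ℝ) = _
    push_cast; ring

end Pool.Agent.Helper6.CXT
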