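import Pool.Agent.Helper6.CXT.BX2
import Pool.Agent.Helper94.CXF.S8
import Pool.Agent.Helper94.CXT.UT0

/-!
Far cells of tail classes, row BOX: a control form on a chord.
-/

set_option autoImplicit false
set_option exponentiation.threshold 4000
noncomputable section
namespace Pool.Agent.Helper6.CXT

open Pool.Agent.Helper86.CX renaming Hm → Hm, ev → hev
open Pool.Agent.Helper94.CXF (M9)
open Pool.Agent.Helper94.CXF
open Pool.Agent.Helper94.CXF.SD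
open Pool.Agent.Helper48.CXT
open Pool.Agent.Helper94.CXT (cv_near Vv_shift)
open Complex ComplexConjugate

/-- the integer form at a node -/
def Ndc (a : ℕ) (d : ℤ) (k : KN.Nd) (Z : GZ) (K : Hm ℤ) : Hm ℤ :=
  GR.adH (GR.adH (GR.adH (GR.adH (GR.smH (2 ^ 62) Z.P) (GR.smH (zer k) Z.A))
    (GR.adH (GR.smH (zei k) Z.B) (GR.smH (zs2 k) Z.S))) (GR.smH (a : ℤ) K)) (GR.idH d)

theorem nC_rep {a d : ℕ} {dz : ℤ} {k : KN.Nd} {C : KT.Gf} {Z : GZ} {Kn : Hm ℕ} {K : Hm ℤ}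
    (hd : Rp d dz) (hC : RG C Z) (hK : RH Kn K) : RH (KT.nC a d k C Kn) (Ndc a dz k Z K) := by
  have ha := Pool.Agent.Helper17.PAK.Rep.nat KN.MM a
  have e : ∀ {P A B S q : ℕ} {P' A' B' S' q' : ℤ}, Rp P P' → Rp A A' → Rp B B' → Rp S S' →
      Rp q q' → Rp (KT.e5 (KN.fer k) (KN.fei k) (KN.fs2 k) P A B S a q)
        (((2 ^ 62 * P' + zer k * A') + (zei k * B' + zs2 k * S')) + (a : ℤ) * q') := by
    intro P A B S q P' A' B' S' q' h1 h2 h3 h4 h5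
    exact ((((rp_o62.mul h1).add ((rp_fer k).mul h2)).add
      (((rp_fei k).mul h3).add ((rp_fs2 k).mul h4))).add (ha.mul h5)).mod
  exact ⟨(e hC.P.a hC.A.a hC.B.a hC.S.a hK.a).add hd, (e hC.P.b hC.A.b hC.B.b hC.S.b hK.b).add hd,
    (e hC.P.c hC.A.c hC.B.c hC.S.c hK.c).add hd, rp0 (e hC.P.d hC.A.d hC.B.d hC.S.d hK.d),
    rp0 (e hC.P.e hC.A.e hC.B.e hC.S.e hK.e), rp0 (e hC.P.f hC.A.f hC.B.f hC.S.f hK.f),
    rp0 (e hC.P.g hC.A.g hC.B.g hC.S.g hK.g), rp0 (e hC.P.h hC.A.h hC.B.h hC.S.h hK.h),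
    rp0 (e hC.P.i hC.A.i hC.B.i hC.S.i hK.i)⟩

theorem Ndc_hev (a : ℕ) (d : ℤ) (k : KN.Nd) (Z : GZ) (K : Hm ℤ) (x : V) :
    hev (rH (Ndc a d k Z K)) x = (2 ^ 62 * hev (rH Z.P) x + zer k * hev (rH Z.A) x +
      (zei k * hev (rH Z.B) x + zs2 k * hev (rH Z.S) x)) + a * hev (rH K) x + d * nr x := by
  rw [Ndc]
  simp only [hev_ad, hev_sm', hev_id']
  push_cast
  ring

theorem Ndc_bd {xc : ℝ} {a : ℕ} {d : ℤ} {k : KN.Nd} {w : ℂ} (h : NdR xc k w) {Z : GZ}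
    {K : Hm ℤ} (ha : a < 2 ^ 32) (hd : |d| ≤ 2 ^ 250) (hZ : BG (2 ^ 150) Z)
    (hK : BH (2 ^ 170) K) : BH (2 ^ 256) (Ndc a d k Z K) := by
  have ha' : |(a : ℤ)| ≤ 2 ^ 32 := by
    rw [abs_of_nonneg (by positivity)]; exact_mod_cast ha.le
  refine (adH_bd (adH_bd (adH_bd (adH_bd (smH_bd (r := 2 ^ 62) (by norm_num) hZ.P)
    (smH_bd (zer_bd h) hZ.A)) (adH_bd (smH_bd (zei_bd h) hZ.B) (smH_bd (zs2_bd h) hZ.S)))
    (smH_bd ha' hK)) (idH_bd hd)).mono ?_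
  norm_num

theorem slk_bd {x xr n m p w : ℕ} {k0 k1 : KN.Nd} (hx : x ≤ 2 ^ 17) (hr : xr ≤ 2 ^ 17)
    (hn : n ≤ 2 ^ 145) (hm : m ≤ 2 ^ 145) (hp : p ≤ 2 ^ 215) (hw : w ≤ 6) (hi : k1.i ≤ 256) :
    |-((w * KT.slk x xr n m p k0 k1 : ℕ) : ℤ)| ≤ 2 ^ 250 := by
  rw [abs_neg, abs_of_nonneg (by positivity)]
  have hd : k1.i - k0.i ≤ 256 := by omega
  have a1 := dE_le hx hd
  have a2 := dS_le hd
  have a3 : KT.dX xr k1.i ≤ 2 ^ 58 := by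
    simp only [KT.dX]
    show xr * (k1.i * k1.i) * _ ≤ _
    have h1 : k1.i * k1.i ≤ 256 * 256 := Nat.mul_le_mul hi hi
    have h2 := Nat.mul_le_mul hr h1
    omega
  have e : KT.slk x xr n m p k0 k1 =
      (KN.dE x (k1.i - k0.i) + KT.dX xr k1.i) * n + KN.dS (k1.i - k0.i) * m + p := rfl
  rw [e]
  have b1 : (KN.dE x (k1.i - k0.i) + KT.dX xr k1.i) * n ≤ (2 ^ 57 + 2 ^ 58) * 2 ^ 145 :=
    Nat.mul_le_mul (by omega) hn
  have b2 : KN.dS (k1.i - k0.i) * m ≤ 2 ^ 54 * 2 ^ 145 := Nat.mul_le_mul a2 hm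
  have b3 : w * ((KN.dE x (k1.i - k0.i) + KT.dX xr k1.i) * n + KN.dS (k1.i - k0.i) * m + p) ≤
      6 * ((2 ^ 57 + 2 ^ 58) * 2 ^ 145 + 2 ^ 54 * 2 ^ 145 + 2 ^ 215) :=
    Nat.mul_le_mul hw (by omega)
  have b4 : 6 * ((2 ^ 57 + 2 ^ 58) * 2 ^ 145 + 2 ^ 54 * 2 ^ 145 + 2 ^ 215) ≤ 2 ^ 250 := by
    norm_num
  exact_mod_cast b3.trans b4

/-- A CONTROL FORM ON A CHORD -/
theorem chord_ctl {xc x0 s : ℝ} {u u0 u1 : ℂ} {x xr n m p w a b : ℕ} {k0 k1 : KN.Nd}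
    {C : KT.Gf} {Z : GZ} {Kn : Hm ℕ} {Kz : Hm ℤ} (hx : |xc| ≤ (x : ℝ) / 2 ^ 16)
    (hx2 : x ≤ 2 ^ 17) (hr2 : xr ≤ 2 ^ 17) (h0 : NdR xc k0 u0) (h1 : NdR xc k1 u1)
    (hi : k0.i + 1 ≤ k1.i) (hu : Cv x0 s u) (hxr : |x0 - xc| ≤ (xr : ℝ) / 2 ^ 16)
    (hx0 : |x0| ≤ 2) (s0 : (k0.i : ℝ) / 2048 ≤ s) (s1 : s ≤ (k1.i : ℝ) / 2048)
    (rC : RG C Z) (bC : BG (2 ^ 150) Z) (hnm : KT.nmC w n m C = true)
    (rK : RH Kn (GR.smH (-2 ^ 138) Kz)) (bK : BH (2 ^ 27) Kz) (hn : n ≤ 2 ^ 145)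
    (hm : m ≤ 2 ^ 145) (hp : p ≤ 2 ^ 215) (hw : w ≤ 6) (ha : a < 2 ^ 32) (hb : b < 2 ^ 32)
    (hc : KT.ctl w (KT.slk x xr n m p k0 k1) C Kn k0 k1 a b = true) {v : V}
    (hK : 0 ≤ hev (rH Kz) v) : ((w : ℝ) * p) * nr v ≤ 2 ^ 62 * valG Z (s * u) v := by
  unfold KT.ctl at hc
  rw [andB_iff] at hc
  obtain ⟨p0, p1⟩ := hc
  have hax : (x : ℝ) / 2 ^ 16 ≤ 2 := by
    rw [div_le_iff₀ (by positivity)]
    have : (x : ℝ) ≤ 2 ^ 17 := by exact_mod_cast hx2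
    linarith
  have bi : k1.i ≤ 256 := by
    have := (h1.bd).2.2
    rw [abs_of_nonneg (by positivity)] at this
    exact_mod_cast this
  obtain ⟨nA, nS⟩ := nmC_sound rC (bC.mono (by norm_num)) hnm
  have n0 := nr_nonneg v
  set A := hev (rH Z.A) v with hA
  set B := hev (rH Z.B) v with hB
  set P := hev (rH Z.P) v with hP
  set S := hev (rH Z.S) v with hS
  set q : ℂ := ⟨A / 2, B / 2⟩ with hq
  have gq : 2 * ‖q‖ ≤ ((w : ℝ) * n) * nr v := by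
    refine le_of_sq_le_sq (b := ((w : ℝ) * n) * nr v) ?_ (by positivity)
    have e : (2 * ‖q‖) ^ 2 = A ^ 2 + B ^ 2 := by
      rw [mul_pow, ← normSq_eq_norm_sq, normSq_apply, hq]
      simp only
      ring
    rw [e]
    have a1 := hev_sq_le (rH Z.A) v
    have a2 := hev_sq_le (rH Z.B) v
    rw [← hA] at a1
    rw [← hB] at a2
    have a3 := mul_le_mul_of_nonneg_right nA (sq_nonneg (nr v))
    rw [mul_pow]
    linarith
  have gS : |S| ≤ ((w : ℝ) * m) * nr v := by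
    refine abs_le_of_sq_le_sq (a := S) (b := ((w : ℝ) * m) * nr v) ?_ (by positivity)
    have a1 := hev_sq_le (rH Z.S) v
    rw [← hS] at a1
    have a3 := mul_le_mul_of_nonneg_right nS (sq_nonneg (nr v))
    rw [mul_pow]
    linarith
  -- the nodes
  set D := KT.slk x xr n m p k0 k1 with hD
  have hdR : Rp (KN.ng (Nat.mul w D)) (-((w * D : ℕ) : ℤ)) :=
    rp_ng (Pool.Agent.Helper17.PAK.Rep.nat KN.MM (w * D))
  have hdB : |-((w * D : ℕ) : ℤ)| ≤ 2 ^ 250 := slk_bd hx2 hr2 hn hm hp hw bi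
  have KB : BH (2 ^ 170) (GR.smH (-2 ^ 138) Kz) :=
    (smH_bd (r := 2 ^ 138) (by rw [abs_neg, abs_of_nonneg (by positivity)]) bK).mono
      (by norm_num)
  have node : ∀ (k : KN.Nd) (z : ℂ) (c : ℕ), NdR xc k z → c < 2 ^ 32 →
      KN.psd (KT.nC c (KN.ng (Nat.mul w D)) k C Kn) = true →
      ((w : ℝ) * D) * nr v ≤ Vn k P 0 S 0 0 q 0 := by
    intro k z c hk hc hpd
    have hz := PDz_hev (psd_sound (nC_rep hdR rC rK) (Ndc_bd hk hc hdB bC KB) hpd) v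
    rw [Ndc_hev, hev_sm'] at hz
    rw [Vn_reg, hq]
    have h3 : 0 ≤ (c : ℝ) * (2 ^ 138 * hev (rH Kz) v) := by positivity
    simp only
    rw [← hA, ← hB, ← hP, ← hS] at hz
    push_cast at hz
    linarith
  have V0 := node k0 u0 a h0 ha p0
  have V1 := node k1 u1 b h1 hb p1
  -- the point of the curve of `xc`
  obtain ⟨z, hz, huz⟩ := cv_near hu hx0 (hx.trans hax)
  have hi' : (k0.i : ℝ) / 2048 < (k1.i : ℝ) / 2048 := by
    have : (k0.i : ℝ) + 1 ≤ k1.i := by exact_mod_cast hi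
    linarith
  obtain ⟨t, t0, t1, hs⟩ := exists_t s0 s1 hi'
  have CV := chordV (cs := 0) (c3 := 0) (qu := 0) (qg := 0) (nu := 0) (ng := 0) (m3 := 0)
    (c1 := P) (c2 := S) (qe := q) h0 h1 hz hx hx2 t0 t1 hs (by omega) (by simp) gq (by simp) gS
    (by simp)
  have SH := Vv_shift hu huz (c1 := P) (cs := 0) (c2 := S) (c3 := 0) (qu := 0) (qe := q)
    (qg := 0) (nu := 0) (ng := 0) (by simp) gq (by simp)
  have EV : Vv s u P 0 S 0 0 q 0 = valG Z (s * u) v := by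
    have nse : normSq ((s : ℂ) * u) = s ^ 2 := by
      rw [normSq_mul, normSq_ofReal, hu.nm]; ring
    simp only [Vv, valG, nse, ← hA, ← hB, ← hP, ← hS, hq]
    simp
    ring
  rw [EV] at SH
  -- the radius of `x0`
  have w0 : 0 ≤ ((w : ℝ) * n) * nr v := by positivity
  have RX : 2 ^ 62 * (s * (104 / 100 * s * |x0 - xc|) * ((w : ℝ) * n * nr v)) ≤
      (KT.dX xr k1.i : ℝ) * ((w : ℝ) * n * nr v) := by
    have e : ((KT.dX xr k1.i : ℕ) : ℝ) = xr * (k1.i * k1.i) * 17448305 := by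
      simp [KT.dX]
    rw [e, ← mul_assoc]
    refine mul_le_mul_of_nonneg_right ?_ w0
    have c1 : s * s ≤ (k1.i : ℝ) / 2048 * ((k1.i : ℝ) / 2048) :=
      mul_self_le_mul_self hu.s0 s1
    have c2 : s * s * |x0 - xc| ≤ (k1.i : ℝ) / 2048 * ((k1.i : ℝ) / 2048) * (xr / 2 ^ 16) :=
      mul_le_mul c1 hxr (abs_nonneg _) (by positivity)
    have c3 : (0 : ℝ) ≤ xr * (k1.i * k1.i) := by positivity
    have c4 : (k1.i : ℝ) / 2048 * ((k1.i : ℝ) / 2048) * (xr / 2 ^ 16) =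
        xr * (k1.i * k1.i) / 2 ^ 38 := by ring
    rw [c4] at c2
    have c5 : 2 ^ 62 * (s * (104 / 100 * s * |x0 - xc|)) =
        2 ^ 62 * (104 / 100) * (s * s * |x0 - xc|) := by ring
    rw [c5]
    have c6 := mul_le_mul_of_nonneg_left c2 (show (0 : ℝ) ≤ 2 ^ 62 * (104 / 100) by positivity)
    refine c6.trans ?_
    generalize (xr : ℝ) * (k1.i * k1.i) = g at c3
    linarith
  have Dr : (D : ℝ) = ((KN.dE x (k1.i - k0.i) : ℝ) + KT.dX xr k1.i) * n +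
      (KN.dS (k1.i - k0.i) : ℝ) * m + p := by
    have e : D = (KN.dE x (k1.i - k0.i) + KT.dX xr k1.i) * n + KN.dS (k1.i - k0.i) * m + p := rfl
    rw [e]; push_cast; ring
  have A0 := mul_le_mul_of_nonneg_left V0 (sub_nonneg.2 t1)
  have A1 := mul_le_mul_of_nonneg_left V1 t0
  have SH' := mul_le_mul_of_nonneg_left SH (show (0 : ℝ) ≤ 2 ^ 62 by positivity)
  rw [Dr] at A0 A1
  simp only [mul_zero, zero_add, add_zero] at CV SH'
  have e1 : (1 - t) * (↑w * (((KN.dE x (k1.i - k0.i) : ℝ) + KT.dX xr k1.i) * n +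
      (KN.dS (k1.i - k0.i) : ℝ) * m + p) * nr v) + t * (↑w * (((KN.dE x (k1.i - k0.i) : ℝ) +
      KT.dX xr k1.i) * n + (KN.dS (k1.i - k0.i) : ℝ) * m + p) * nr v) =
      (KN.dE x (k1.i - k0.i) : ℝ) * (w * n * nr v) + (KT.dX xr k1.i : ℝ) * (w * n * nr v) +
        (KN.dS (k1.i - k0.i) : ℝ) * (w * m * nr v) + w * p * nr v := by ring
  linarith

end Pool.Agent.Helper6.CXT
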