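import Pool.Agent.Helper6.CXT.BX4

/-!
Far cells of tail classes, row BOX: boxes with the run parameter.
-/

set_option autoImplicit false
set_option exponentiation.threshold 4000
noncomputable section
namespace Pool.Agent.Helper6.CXT

open Pool.Agent.Helper86.CX renaming Hm → Hm, ev → hev
open Pool.Agent.Helper94.CXF (M9)
open Pool.Agent.Helper94.CXF
open Pool.Agent.Helper94.CXF.SD
open Pool.Agent.Helper48.CXT
open Complex ComplexConjugate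

/-! ### the curve of degree two -/

def yB (r : ℝ) (w0 w1 w2 : V) : V := it r (it r w0 w1) (it r w1 w2)

theorem yB_eq (r : ℝ) (w0 w1 w2 : V) :
    (1 : ℝ) • ((1 - r) ^ 2 • w0 + (2 * r * (1 - r)) • w1) + (r ^ 2) • w2 = yB r w0 w1 w2 := by
  funext j
  simp only [yB, Pi.add_apply, Pi.smul_apply, it_app, Complex.real_smul]
  push_cast
  ring

theorem ap_brn (r : ℝ) (Z : Fin 3 → P9) (e : ℂ) (x : V) :
    ap (brn r Z) e x = yB r (ap (Z 0) e x) (ap (Z 1) e x) (ap (Z 2) e x) := by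
  rw [brn, ap_cmb, ap_cmb, yB_eq]

theorem yB_sub (r : ℝ) (a b c a' b' c' : V) :
    yB r a b c - yB r a' b' c' = yB r (a - a') (b - b') (c - c') := by
  simp only [yB, it_sub]

theorem nr_yB_le {r D : ℝ} {w0 w1 w2 : V} (r0 : 0 ≤ r) (r1 : r ≤ 1) (h0 : nr w0 ≤ D)
    (h1 : nr w1 ≤ D) (h2 : nr w2 ≤ D) : nr (yB r w0 w1 w2) ≤ D :=
  nr_it_le r0 r1 (nr_it_le r0 r1 h0 h1) (nr_it_le r0 r1 h1 h2)

theorem hev_yB (K : Hm ℝ) (r : ℝ) (w0 w1 w2 : V) : hev K (yB r w0 w1 w2) =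
    (1 - r) ^ 4 * hev K w0 + 2 * r * (1 - r) ^ 3 * (hev K (w0 + w1) - hev K w0 - hev K w1) +
    r ^ 2 * (1 - r) ^ 2 * (hev K (w0 + w2) - hev K w0 - hev K w2 + 4 * hev K w1) +
    2 * r ^ 3 * (1 - r) * (hev K (w1 + w2) - hev K w1 - hev K w2) + r ^ 4 * hev K w2 := by
  have e : yB r w0 w1 w2 = ((1 - r) ^ 2 • w0 + (2 * r * (1 - r)) • w1) + (r ^ 2) • w2 := by
    rw [← yB_eq, one_smul]
  have pol : ∀ (a b : ℝ) (y z : V), 2 * (bl K (a • y) (b • z)).re =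
      a * b * (hev K (y + z) - hev K y - hev K z) := by
    intro a b y z
    have h1 := hev_add1 K y z
    have h2 : bl K (a • y) (b • z) = ((a * b : ℝ) : ℂ) * bl K y z := by
      simp only [bl, sq2, Pi.smul_apply, Complex.real_smul, map_mul, Complex.conj_ofReal]
      push_cast
      ring
    rw [h2, Complex.re_ofReal_mul, h1]
    ring
  have add2 : ∀ x y z : V, (bl K (x + y) z).re = (bl K x z).re + (bl K y z).re := by
    intro x y z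
    rw [← Complex.add_re]
    congr 1
    simp only [bl, sq2, Pi.add_apply, map_add]
    ring
  rw [e, hev_add1, hev_add1, add2, mul_add, pol, pol, pol, hev_smR, hev_smR, hev_smR]
  ring

theorem bern {r m c0 c1 c2 c3 c4 : ℝ} (r0 : 0 ≤ r) (r1 : r ≤ 1) (h0 : m ≤ c0)
    (h1 : 2 * m ≤ c1) (h2 : 6 * m ≤ c2) (h3 : 2 * m ≤ c3) (h4 : m ≤ c4) :
    m ≤ (1 - r) ^ 4 * c0 + 2 * r * (1 - r) ^ 3 * c1 + r ^ 2 * (1 - r) ^ 2 * c2 +
      2 * r ^ 3 * (1 - r) * c3 + r ^ 4 * c4 := by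
  have q0 : 0 ≤ 1 - r := by linarith
  have k0 := mul_le_mul_of_nonneg_left h0 (pow_nonneg q0 4)
  have k1 := mul_le_mul_of_nonneg_left h1
    (mul_nonneg (mul_nonneg (by norm_num : (0 : ℝ) ≤ 2) r0) (pow_nonneg q0 3))
  have k2 := mul_le_mul_of_nonneg_left h2 (mul_nonneg (pow_nonneg r0 2) (pow_nonneg q0 2))
  have k3 := mul_le_mul_of_nonneg_left h3
    (mul_nonneg (mul_nonneg (by norm_num : (0 : ℝ) ≤ 2) (pow_nonneg r0 3)) q0)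
  have k4 := mul_le_mul_of_nonneg_left h4 (pow_nonneg r0 4)
  have e : m = (1 - r) ^ 4 * m + 2 * r * (1 - r) ^ 3 * (2 * m) +
      r ^ 2 * (1 - r) ^ 2 * (6 * m) + 2 * r ^ 3 * (1 - r) * (2 * m) + r ^ 4 * m := by ring
  linarith

/-! ### the five control forms -/

theorem cnB_sound {xc x0 s : ℝ} {u : ℂ} {X : KT.Cx} {KN : Hm ℕ} {Kz : Hm ℤ} {t : KT.Lf}
    {p i : ℕ} {C0 C1 C2 C3 C4 : KT.Gf} {Z0 Z1 Z2 Z3 Z4 : GZ} (hX : CxOk xc X)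
    (hI : InX xc X x0 s u) (hKn : RH KN (GR.smH (-2 ^ 138) Kz)) (bK : BH (2 ^ 27) Kz)
    (r0 : RG C0 Z0) (r1 : RG C1 Z1) (r2 : RG C2 Z2) (r3 : RG C3 Z3) (r4 : RG C4 Z4)
    (b0 : BG (2 ^ 150) Z0) (b1 : BG (2 ^ 150) Z1) (b2 : BG (2 ^ 150) Z2) (b3 : BG (2 ^ 150) Z3)
    (b4 : BG (2 ^ 150) Z4) (B : BndP t) (hp : p ≤ 2 ^ 215)
    (h : KT.cnB X t p KN C0 C1 C2 C3 C4 i = true) {v : V} (hKv : 0 ≤ hev (rH Kz) v) :
    p * nr v ≤ 2 ^ 62 * valG Z0 (s * u) v ∧ 2 * (p * nr v) ≤ 2 ^ 62 * valG Z1 (s * u) v ∧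
    6 * (p * nr v) ≤ 2 ^ 62 * valG Z2 (s * u) v ∧ 2 * (p * nr v) ≤ 2 ^ 62 * valG Z3 (s * u) v ∧
    p * nr v ≤ 2 ^ 62 * valG Z4 (s * u) v := by
  unfold KT.cnB at h
  rw [andB_iff, andB_iff, andB_iff, andB_iff, andB_iff] at h
  obtain ⟨⟨n0, n1, n2, n3, n4⟩, k⟩ := h
  refine chs_sound (x0 := xc) (Q := fun s => ∀ u, Cv x0 s u →
    p * nr v ≤ 2 ^ 62 * valG Z0 (s * u) v ∧ 2 * (p * nr v) ≤ 2 ^ 62 * valG Z1 (s * u) v ∧
    6 * (p * nr v) ≤ 2 ^ 62 * valG Z2 (s * u) v ∧ 2 * (p * nr v) ≤ 2 ^ 62 * valG Z3 (s * u) v ∧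
    p * nr v ≤ 2 ^ 62 * valG Z4 (s * u) v) hX.ns ?_ ?_ t.c X.k hX.st k hX.lt s
    hI.s0 hI.s1 u hI.cv
  · intro k0 k1 l hf
    rw [andB_iff] at hf
    exact Nat.le_of_ble_eq_true hf.1
  · rintro k0 k1 l ⟨u0, h0⟩ ⟨u1, h1⟩ hf s s0 s1 u hu
    rw [andB_iff, andB_iff, andB_iff, andB_iff, andB_iff] at hf
    obtain ⟨hi, f0, f1, f2, f3, f4⟩ := hf
    have hi := Nat.le_of_ble_eq_true hi
    have g0 := chord_ctl hX.hx hX.hx2 hX.hr2 h0 h1 hi hu hI.x1 hI.x2 s0 s1 r0 b0 n0 hKn bK B.n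
      B.m hp (by norm_num) (ml_lt _ _) (ml_lt _ _) f0 hKv
    have g1 := chord_ctl hX.hx hX.hx2 hX.hr2 h0 h1 hi hu hI.x1 hI.x2 s0 s1 r1 b1 n1 hKn bK B.n
      B.m hp (by norm_num) (ml_lt _ _) (ml_lt _ _) f1 hKv
    have g2 := chord_ctl hX.hx hX.hx2 hX.hr2 h0 h1 hi hu hI.x1 hI.x2 s0 s1 r2 b2 n2 hKn bK B.n
      B.m hp (by norm_num) (ml_lt _ _) (ml_lt _ _) f2 hKv
    have g3 := chord_ctl hX.hx hX.hx2 hX.hr2 h0 h1 hi hu hI.x1 hI.x2 s0 s1 r3 b3 n3 hKn bK B.n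
      B.m hp (by norm_num) (ml_lt _ _) (ml_lt _ _) f3 hKv
    have g4 := chord_ctl hX.hx hX.hx2 hX.hr2 h0 h1 hi hu hI.x1 hI.x2 s0 s1 r4 b4 n4 hKn bK B.n
      B.m hp (by norm_num) (ml_lt _ _) (ml_lt _ _) f4 hKv
    refine ⟨?_, ?_, ?_, ?_, ?_⟩
    · refine le_trans (le_of_eq ?_) g0
      push_cast; ring
    · refine le_trans (le_of_eq ?_) g1
      push_cast; ring
    · refine le_trans (le_of_eq ?_) g2
      push_cast; ring
    · refine le_trans (le_of_eq ?_) g3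
      push_cast; ring
    · refine le_trans (le_of_eq ?_) g4
      push_cast; ring

theorem cB2_sound {xc x0 s : ℝ} {u : ℂ} {X : KT.Cx} {K' KN : Hm ℕ} {Kz' Kz : Hm ℤ} {t : KT.Lf}
    {p i : ℕ} {T0 T1 T2 : KT.MP} {Z0 Z1 Z2 : M9 ℤ × M9 ℤ} (hX : CxOk xc X)
    (hI : InX xc X x0 s u) (hK' : RH K' Kz') (bK' : BH (2 ^ 27) Kz')
    (hKn : RH KN (GR.smH (-2 ^ 138) Kz)) (bK : BH (2 ^ 27) Kz)
    (r0 : Rq (2 ^ 54) T0 Z0) (r1 : Rq (2 ^ 54) T1 Z1) (r2 : Rq (2 ^ 54) T2 Z2) (B : BndP t)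
    (hp : p ≤ 2 ^ 215)
    (h : KT.cB2 X t p KN (KT.gf K' T0) (KT.gf K' T1) (KT.gf K' T2) (KT.gf K' (KT.adP T0 T1))
      (KT.gf K' (KT.adP T0 T2)) (KT.gf K' (KT.adP T1 T2)) i = true) {v : V}
    (hKv : 0 ≤ hev (rH Kz) v) {r : ℝ} (hr : I01 r) :
    p * nr v ≤ 2 ^ 62 * hev (rH Kz') (yB r (ap (rP Z0) (s * u) v) (ap (rP Z1) (s * u) v)
      (ap (rP Z2) (s * u) v)) := by
  have G0 := gf_rep hK' r0.r1 r0.r2
  have G1 := gf_rep hK' r1.r1 r1.r2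
  have G2 := gf_rep hK' r2.r1 r2.r2
  have a01 := r0.ad r1
  have a02 := r0.ad r2
  have a12 := r1.ad r2
  have G01 := gf_rep hK' a01.r1 a01.r2
  have G02 := gf_rep hK' a02.r1 a02.r2
  have G12 := gf_rep hK' a12.r1 a12.r2
  have bd : ∀ {N : KT.MP} {Z : M9 ℤ × M9 ℤ}, Rq (2 * 2 ^ 54) N Z → BG (2 ^ 142) (gfz Kz' Z) :=
    fun r => (gf_bd (b := 2 * 2 ^ 54) (c := 2 ^ 141) bK' r.b1 r.b2 (by norm_num)).mono
      (by norm_num)
  have B0 := bd (r0.mono (by norm_num))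
  have B1 := bd (r1.mono (by norm_num))
  have B2 := bd (r2.mono (by norm_num))
  have B01 := bd a01
  have B02 := bd a02
  have B12 := bd a12
  obtain ⟨h0, h1, h2, h3, h4⟩ := cnB_sound hX hI hKn bK G0 (s3G_rep G01 G0 G1)
    (a4G_rep (s3G_rep G02 G0 G2) G1) (s3G_rep G12 G1 G2) G2 (B0.mono (by norm_num))
    ((s3g_bd B01 B0 B1).mono (by norm_num)) ((a4g_bd (s3g_bd B02 B0 B2) B1).mono (by norm_num))
    ((s3g_bd B12 B1 B2).mono (by norm_num)) (B2.mono (by norm_num)) B hp h hKv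
  rw [valG_gf] at h0 h4
  rw [val_s3, valG_gf, valG_gf, valG_gf, ap_adQ] at h1 h3
  rw [val_a4, val_s3, valG_gf, valG_gf, valG_gf, valG_gf, ap_adQ] at h2
  rw [hev_yB]
  have E := bern hr.1 hr.2 h0 h1 h2 h3 h4
  refine E.trans (le_of_eq ?_)
  ring

/-- BOXES WITH RUN PARAMETER -/
theorem boxB : BoxB := by
  intro xc x0 s u X K' Kn Kz' Kz la ka c1 c2 c3 F b t Z T hX hI hK' bK' hKn bK hl hk hfr hL hC
    hN hd h v hv hKv
  unfold KT.leafB at h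
  rw [andB_iff, andB_iff, andB_iff, andB_iff] at h
  obtain ⟨hb, ⟨hd0, hd1, hd2⟩, hc⟩ := h
  have B := bnd_sound hb
  have D0 := dif_sound hd0
  have D1 := dif_sound hd1
  have D2 := dif_sound hd2
  obtain ⟨t1, t2, t3, r, i1, i2, i3, ir, hg⟩ := hN
  have he := normSq_e hI.cv
  set e : ℂ := (s : ℂ) * u with he'
  set Y : Bool → Bool → Bool → V := fun c1 c2 c3 => yB r (ap (rP (Z c1 c2 c3 0)) e v)
    (ap (rP (Z c1 c2 c3 1)) e v) (ap (rP (Z c1 c2 c3 2)) e v) with hY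
  have hp := pS_le hl hk hd B (t := t)
  have npos := nr_pos hv
  have C0 : ∀ c1 c2 c3, RpP (F (sl b.a1 b.b1 c1) (sl b.a2 b.b2 c2) (sl b.a3 b.b3 c3) b.r0
      (KN.mu b.r0 b.r0)) (Z c1 c2 c3 0) := fun c1 c2 c3 => hC c1 c2 c3 0
  have C1 : ∀ c1 c2 c3, RpP (F (sl b.a1 b.b1 c1) (sl b.a2 b.b2 c2) (sl b.a3 b.b3 c3)
      (KT.mid b.r0 b.r1) (KN.mu b.r0 b.r1)) (Z c1 c2 c3 1) := fun c1 c2 c3 => hC c1 c2 c3 1
  have C2 : ∀ c1 c2 c3, RpP (F (sl b.a1 b.b1 c1) (sl b.a2 b.b2 c2) (sl b.a3 b.b3 c3) b.r1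
      (KN.mu b.r1 b.r1)) (Z c1 c2 c3 2) := fun c1 c2 c3 => hC c1 c2 c3 2
  -- corners
  have corner : ∀ e1 e2 e3, nr (Y e1 e2 e3) ≤ (t.y : ℝ) ^ 2 * nr v ∧
      (KT.pS la ka (KT.dT c1 c2 c3 b) t : ℝ) * nr v ≤ 2 ^ 62 * hev (rH Kz') (Y e1 e2 e3) := by
    intro e1 e2 e3
    obtain ⟨j, hj⟩ := cor_sound hc e1 e2 e3
    unfold KT.cB1 at hj
    rw [andB_iff, andB_iff, andB_iff] at hj
    obtain ⟨⟨f0, f1, f2⟩, k⟩ := hj
    have r0 := rq_of (C0 e1 e2 e3)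
    have r1 := rq_of (C1 e1 e2 e3)
    have r2 := rq_of (C2 e1 e2 e3)
    refine ⟨nr_yB_le ir.1 ir.2 (f9_vec he (r0.mono (by norm_num)) f0 v)
      (f9_vec he (r1.mono (by norm_num)) f1 v) (f9_vec he (r2.mono (by norm_num)) f2 v), ?_⟩
    exact cB2_sound hX hI hK' bK' hKn bK r0 r1 r2 B hp k hKv ir
  have E := box_end (K := rH Kz') (la := la) (ka := ka) (d := KT.dT c1 c2 c3 b) (a := t.y)
    (d1 := t.d1) (d2 := t.d2) (d3 := t.d3) (n := nr v) (Y := Y) (S := ⊤)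
    (w := (2 ^ 48 : ℝ) • ap T e v) i1 i2 i3 npos.le (fun w _ => hL w)
    (fun a1 a2 a3 b1 b2 b3 => Submodule.mem_top)
    (fun a2 a3 => by
      simp only [hY]
      rw [yB_sub]
      exact nr_yB_le ir.1 ir.2 (f9_dif he (C0 _ _ _) (C0 _ _ _) (D0.d1 a2 a3) v)
        (f9_dif he (C1 _ _ _) (C1 _ _ _) (D1.d1 a2 a3) v)
        (f9_dif he (C2 _ _ _) (C2 _ _ _) (D2.d1 a2 a3) v))
    (fun a1 a3 => by
      simp only [hY]
      rw [yB_sub]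
      exact nr_yB_le ir.1 ir.2 (f9_dif he (C0 _ _ _) (C0 _ _ _) (D0.d2 a1 a3) v)
        (f9_dif he (C1 _ _ _) (C1 _ _ _) (D1.d2 a1 a3) v)
        (f9_dif he (C2 _ _ _) (C2 _ _ _) (D2.d2 a1 a3) v))
    (fun a1 a2 => by
      simp only [hY]
      rw [yB_sub]
      exact nr_yB_le ir.1 ir.2 (f9_dif he (C0 _ _ _) (C0 _ _ _) (D0.d3 a1 a2) v)
        (f9_dif he (C1 _ _ _) (C1 _ _ _) (D1.d3 a1 a2) v)
        (f9_dif he (C2 _ _ _) (C2 _ _ _) (D2.d3 a1 a2) v))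
    (fun a1 a2 a3 => (corner a1 a2 a3).1)
    (by
      have := near_vec he hg v
      rw [ap_it3] at this
      simp only [ap_brn] at this
      exact this)
    (by
      rw [frR_rH]
      have : ((frz Kz' : ℤ) : ℝ) ≤ (((ka : ℤ) ^ 2 : ℤ) : ℝ) := by exact_mod_cast hfr
      push_cast at this
      exact this)
    (fun a1 a2 a3 => by
      have := (corner a1 a2 a3).2
      rw [pS_eq] at this
      push_cast at this
      refine le_trans (le_of_eq ?_) this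
      ring)
  rw [hev_48] at E
  have E2 : (0 : ℝ) < (2 ^ 62 * 2 ^ 96) * hev (rH Kz') (ap T e v) := by
    have : (0 : ℝ) < 2 ^ 158 * nr v := by positivity
    linarith
  exact (pos_iff_pos_of_mul_pos E2).1 (by positivity)

end Pool.Agent.Helper6.CXT
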