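import Pool.Agent.Helper60.CXT.FR0
import Pool.Agent.Helper12.CX.ARC
import Pool.Agent.Helper12.CX.THR

/-!
Far cells of tail classes: the threshold of a class with one tail in an interval of the weight of
the tail.
-/

set_option autoImplicit false
set_option exponentiation.threshold 4000
noncomputable section
namespace Pool.Agent.Helper6.CXT

open Pool.Agent.Helper6.MONO (Kp xA xA_eq xA_gt xA_le2 xA_swap thr_Kp2 Kp_mono)

/-- `2 ^ 192 (k² + x P k + P² - 4)`, `k`, `x` in units `2 ^ (-48)`, `P` in units `2 ^ (-96)` -/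
def gI (k P X : ℤ) : ℤ := k * k * 2 ^ 96 + X * P * k + P * P - 4 * 2 ^ 192
def gR (k P X : ℝ) : ℝ := k * k * 2 ^ 96 + X * P * k + P * P - 4 * 2 ^ 192

/-- lower test -/
def xLo (a b lo hi X : ℤ) : Prop :=
  gI lo ((a + 1) * (b + 1)) X ≤ 0 ∧ gI hi ((a + 1) * (b + 1)) X ≤ 0
/-- upper test -/
def xHi (a b lo hi X : ℤ) : Prop :=
  (0 ≤ gI lo ((a - 1) * (b - 1)) X ∧ 0 ≤ 2 * lo * 2 ^ 96 + X * ((a - 1) * (b - 1))) ∨
  (0 ≤ gI hi ((a - 1) * (b - 1)) X ∧ 2 * hi * 2 ^ 96 + X * ((a - 1) * (b - 1)) ≤ 0) ∨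
  (X * ((a - 1) * (b - 1))) * (X * ((a - 1) * (b - 1))) ≤
    4 * 2 ^ 96 * (((a - 1) * (b - 1)) * ((a - 1) * (b - 1)) - 4 * 2 ^ 192)

instance (a b lo hi X : ℤ) : Decidable (xLo a b lo hi X) := by unfold xLo; infer_instance
instance (a b lo hi X : ℤ) : Decidable (xHi a b lo hi X) := by unfold xHi; infer_instance

theorem gI_cast (k P X : ℤ) : ((gI k P X : ℤ) : ℝ) = gR k P X := by
  unfold gI gR
  push_cast
  ring

/-- convexity -/
theorem gR_lo {lo hi k P X : ℝ} (h1 : lo ≤ k) (h2 : k ≤ hi) (a : gR lo P X ≤ 0)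
    (b : gR hi P X ≤ 0) : gR k P X ≤ 0 := by
  rcases eq_or_lt_of_le (h1.trans h2) with e | e
  · have : k = lo := le_antisymm (h2.trans e.ge) h1
    rw [this]; exact a
  · have id : (hi - lo) * gR k P X = (hi - k) * gR lo P X + (k - lo) * gR hi P X -
        2 ^ 96 * ((hi - lo) * ((k - lo) * (hi - k))) := by
      unfold gR; ring
    have c1 : (hi - k) * gR lo P X ≤ 0 :=
      mul_nonpos_of_nonneg_of_nonpos (by linarith) a
    have c2 : (k - lo) * gR hi P X ≤ 0 :=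
      mul_nonpos_of_nonneg_of_nonpos (by linarith) b
    have c3 : 0 ≤ (hi - lo) * ((k - lo) * (hi - k)) :=
      mul_nonneg (by linarith) (mul_nonneg (by linarith) (by linarith))
    have c4 : (hi - lo) * gR k P X ≤ 0 := by
      rw [id]
      nlinarith
    by_contra hc
    push Not at hc
    have := mul_pos (sub_pos.2 e) hc
    linarith

theorem gR_hi {lo hi k P X : ℝ} (h1 : lo ≤ k) (h2 : k ≤ hi)
    (h : (0 ≤ gR lo P X ∧ 0 ≤ 2 * lo * 2 ^ 96 + X * P) ∨
      (0 ≤ gR hi P X ∧ 2 * hi * 2 ^ 96 + X * P ≤ 0) ∨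
      (X * P) * (X * P) ≤ 4 * 2 ^ 96 * (P * P - 4 * 2 ^ 192)) : 0 ≤ gR k P X := by
  rcases h with ⟨a, b⟩ | ⟨a, b⟩ | a
  · have id : gR k P X = gR lo P X + (2 * lo * 2 ^ 96 + X * P) * (k - lo) +
        2 ^ 96 * ((k - lo) * (k - lo)) := by
      unfold gR; ring
    rw [id]
    have c1 := mul_nonneg b (sub_nonneg.2 h1)
    have c2 := mul_self_nonneg (k - lo)
    linarith
  · have id : gR k P X = gR hi P X + -(2 * hi * 2 ^ 96 + X * P) * (hi - k) +
        2 ^ 96 * ((hi - k) * (hi - k)) := by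
      unfold gR; ring
    rw [id]
    have c1 := mul_nonneg (neg_nonneg.2 b) (sub_nonneg.2 h2)
    have c2 := mul_self_nonneg (hi - k)
    linarith
  · have id : 4 * 2 ^ 96 * gR k P X = (2 * 2 ^ 96 * k + X * P) * (2 * 2 ^ 96 * k + X * P) +
        (4 * 2 ^ 96 * (P * P - 4 * 2 ^ 192) - (X * P) * (X * P)) := by
      unfold gR; ring
    have c1 := mul_self_nonneg (2 * 2 ^ 96 * k + X * P)
    have c2 : 0 ≤ 4 * 2 ^ 96 * gR k P X := by
      rw [id]
      linarith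
    exact nonneg_of_mul_nonneg_right c2 (by norm_num)

/-- change of `P`, `k ≤ 2` -/
theorem gR_P {k P P' X : ℝ} (hk : k * k * 2 ^ 96 ≤ 4 * 2 ^ 192) (hP : 0 < P) (hPP : P ≤ P') :
    P' * gR k P X ≤ P * gR k P' X := by
  have id : P * gR k P' X - P' * gR k P X = (P' - P) * (P * P' + (4 * 2 ^ 192 -
      k * k * 2 ^ 96)) := by
    unfold gR; ring
  have : 0 ≤ (P' - P) * (P * P' + (4 * 2 ^ 192 - k * k * 2 ^ 96)) :=
    mul_nonneg (by linarith) (add_nonneg (mul_nonneg hP.le (hP.le.trans hPP)) (by linarith))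
  linarith

/-- THE THRESHOLD IN AN INTERVAL -/
theorem xA_in {m n r : ℕ} {a b lo hi : ℕ} {X0 X1 : ℤ} (hm : 3 ≤ m) (hn : 3 ≤ n) (hr : 3 ≤ r)
    (ha : |(a : ℝ) - 2 ^ 48 * Kp m| ≤ 1) (hb : |(b : ℝ) - 2 ^ 48 * Kp n| ≤ 1)
    (h1 : (lo : ℝ) ≤ 2 ^ 48 * Kp r) (h2 : 2 ^ 48 * Kp r ≤ hi) (hl : xLo a b lo hi X0)
    (hh : xHi a b lo hi X1) : (X0 : ℝ) ≤ 2 ^ 48 * xA m n r ∧ 2 ^ 48 * xA m n r ≤ X1 := by
  obtain ⟨m1, m2⟩ := thr_Kp2 m hm
  obtain ⟨n1, n2⟩ := thr_Kp2 n hn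
  obtain ⟨r1, r2⟩ := thr_Kp2 r hr
  rw [abs_le] at ha hb
  set k : ℝ := 2 ^ 48 * Kp r with hk
  set P : ℝ := (2 ^ 48 * Kp m) * (2 ^ 48 * Kp n) with hP
  have k0 : 0 < k := by positivity
  have A0 : 2 ^ 48 ≤ 2 ^ 48 * Kp m := by linarith
  have B0 : 2 ^ 48 ≤ 2 ^ 48 * Kp n := by linarith
  have P0 : 0 < P := by positivity
  have kk : k * k * 2 ^ 96 ≤ 4 * 2 ^ 192 := by
    have : k ≤ 2 * 2 ^ 48 := by rw [hk]; linarith
    have := mul_self_le_mul_self k0.le this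
    linarith
  have Pu : P ≤ ((a : ℝ) + 1) * (b + 1) :=
    mul_le_mul (by linarith) (by linarith) (by linarith) (by positivity)
  have a1 : 0 < (a : ℝ) - 1 := by
    have : (0 : ℝ) < 2 ^ 48 - 2 := by norm_num
    linarith
  have b1 : 0 < (b : ℝ) - 1 := by
    have : (0 : ℝ) < 2 ^ 48 - 2 := by norm_num
    linarith
  have Pl : ((a : ℝ) - 1) * (b - 1) ≤ P :=
    mul_le_mul (by linarith) (by linarith) b1.le (by positivity)
  have Pl0 : 0 < ((a : ℝ) - 1) * (b - 1) := mul_pos a1 b1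
  have ex : ∀ X : ℝ, gR k P X = (X - 2 ^ 48 * xA m n r) * (P * k) := by
    intro X
    have hx : xA m n r * (Kp m * Kp n * Kp r) = 4 - Kp r ^ 2 - Kp m ^ 2 * Kp n ^ 2 := by
      rw [xA_eq, div_mul_cancel₀ _ (by positivity)]
    have e1 : (2 ^ 48 * xA m n r) * (P * k) = 2 ^ 192 * (xA m n r * (Kp m * Kp n * Kp r)) := by
      rw [hP, hk]; ring
    rw [sub_mul, e1, hx, gR, hP, hk]
    ring
  have Pk : 0 < P * k := mul_pos P0 k0
  constructor
  · have g1 : gR lo (((a : ℝ) + 1) * (b + 1)) X0 ≤ 0 := by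
      have := hl.1
      have h : ((gI lo (((a : ℤ) + 1) * (b + 1)) X0 : ℤ) : ℝ) ≤ 0 := by exact_mod_cast this
      rw [gI] at h
      rw [gR]
      push_cast at h
      linarith
    have g2 : gR hi (((a : ℝ) + 1) * (b + 1)) X0 ≤ 0 := by
      have := hl.2
      have h : ((gI hi (((a : ℤ) + 1) * (b + 1)) X0 : ℤ) : ℝ) ≤ 0 := by exact_mod_cast this
      rw [gI] at h
      rw [gR]
      push_cast at h
      linarith
    have g3 := gR_lo h1 h2 g1 g2
    have g4 := gR_P (X := X0) kk P0 Pu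
    have g5 : (((a : ℝ) + 1) * (b + 1)) * gR k P X0 ≤ 0 :=
      g4.trans (mul_nonpos_of_nonneg_of_nonpos P0.le g3)
    rw [ex] at g5
    by_contra hc
    push Not at hc
    have := mul_pos (P0.trans_le Pu) (mul_pos (sub_pos.2 hc) Pk)
    linarith
  · have g3 : 0 ≤ gR k (((a : ℝ) - 1) * (b - 1)) X1 := by
      refine gR_hi h1 h2 ?_
      rcases hh with ⟨u, v⟩ | ⟨u, v⟩ | u
      · left
        constructor
        · have h : (0 : ℝ) ≤ ((gI lo (((a : ℤ) - 1) * (b - 1)) X1 : ℤ) : ℝ) := by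
            exact_mod_cast u
          rw [gI] at h
          rw [gR]
          push_cast at h
          linarith
        · have h : (0 : ℝ) ≤ ((2 * lo * 2 ^ 96 + X1 * (((a : ℤ) - 1) * (b - 1)) : ℤ) : ℝ) := by
            exact_mod_cast v
          push_cast at h
          linarith
      · right; left
        constructor
        · have h : (0 : ℝ) ≤ ((gI hi (((a : ℤ) - 1) * (b - 1)) X1 : ℤ) : ℝ) := by
            exact_mod_cast u
          rw [gI] at h
          rw [gR]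
          push_cast at h
          linarith
        · have h : ((2 * hi * 2 ^ 96 + X1 * (((a : ℤ) - 1) * (b - 1)) : ℤ) : ℝ) ≤ 0 := by
            exact_mod_cast v
          push_cast at h
          linarith
      · right; right
        have h : (((X1 * (((a : ℤ) - 1) * (b - 1))) * (X1 * (((a : ℤ) - 1) * (b - 1))) : ℤ) : ℝ) ≤
            ((4 * 2 ^ 96 * (((((a : ℤ) - 1) * (b - 1))) * (((a : ℤ) - 1) * (b - 1)) -
              4 * 2 ^ 192) : ℤ) : ℝ) := by
          exact_mod_cast u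
        push_cast at h
        linarith
    have g4 := gR_P (X := X1) kk Pl0 Pl
    have g5 : 0 ≤ (((a : ℝ) - 1) * (b - 1)) * gR k P X1 :=
      (mul_nonneg P0.le g3).trans g4
    rw [ex] at g5
    by_contra hc
    push Not at hc
    have h6 := mul_pos Pl0 (mul_pos (sub_pos.2 hc) Pk)
    have e : ((a : ℝ) - 1) * (b - 1) * ((2 ^ 48 * xA m n r - X1) * (P * k)) =
        -(((a : ℝ) - 1) * (b - 1) * ((X1 - 2 ^ 48 * xA m n r) * (P * k))) := by ring
    rw [e] at h6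
    linarith

end Pool.Agent.Helper6.CXT
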