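import Pool.Agent.Helper6.CXT.CL1
import Pool.Agent.Helper21.CT.XB

/-!
Far cells of tail classes: rotation; bounds of the threshold of type B.
-/

set_option autoImplicit false
noncomputable section
namespace Pool.Agent.Helper6.CXT

open Pool.Agent.Helper6.MONO (Kp xA xA_eq xA_gt xA_le2 xA_swap thr_Kp2 Kp_mono)
open Pool.Agent.Helper6.MONO.QTR (Far)
open Pool.Agent.Helper21.SUP (mmOK_rot)
open Pool.Agent.Helper21.XB

/-- rotation of the labels -/
theorem far_rot {p q r : ℕ} {x0 b : ℝ} (h : Far r p q x0 b) : Far p q r x0 b := by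
  obtain ⟨C, hC⟩ := h
  refine ⟨C, fun w hw hi hr hb => ?_⟩
  obtain ⟨R, hR⟩ := hC w hw hi hr hb
  exact ⟨_, hR.rl (Pool.Agent.Helper6.MONO.rle_rot p q r w)
    (Pool.Agent.Helper6.MONO.Y0_rel _) (Pool.Agent.Helper6.MONO.liveT_rl (mmOK_rot p q r))⟩

theorem far_rot2 {p q r : ℕ} {x0 b : ℝ} (h : Far q r p x0 b) : Far p q r x0 b :=
  far_rot (far_rot h)

/-! ### bounds of `xBp` -/

theorem cBr_key {a b c : ℝ} (ha : K14 a) (hb : K14 b) (hc : K14 c) :
    cBr (SS a b c) (KK a b c) ≤ -(1 / 4) - (12 - a ^ 2 - b ^ 2 - c ^ 2) / 24 := by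
  obtain ⟨-, a1, a2⟩ := id ha
  obtain ⟨-, b1, b2⟩ := id hb
  obtain ⟨-, c1, c2⟩ := id hc
  set e := 4 - a ^ 2 with he
  set f := 4 - b ^ 2 with hf
  set g := 4 - c ^ 2 with hg
  have e0 : 0 ≤ e := by linarith
  have e5 : e ≤ 1 / 5 := by linarith
  have f0 : 0 ≤ f := by linarith
  have f5 : f ≤ 1 / 5 := by linarith
  have g0 : 0 ≤ g := by linarith
  have g5 : g ≤ 1 / 5 := by linarith
  have es : 12 - a ^ 2 - b ^ 2 - c ^ 2 = e + f + g := by rw [he, hf, hg]; ring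
  rw [es]
  refine cBr_le ha hb hc (by linarith) ?_
  rw [hB_e (e := e) (f := f) (g := g) (by rw [he]; ring) (by rw [hf]; ring) (by rw [hg]; ring)]
  have efg := mul_nonneg (mul_nonneg e0 f0) g0
  have d1 := sq_nonneg (e - f)
  have d2 := sq_nonneg (f - g)
  have d3 := sq_nonneg (g - e)
  set s := e + f + g with hs
  have s0 : 0 ≤ s := by linarith
  have s6 : s ≤ 3 / 5 := by linarith
  have q : -(s ^ 2) / 3 ≤ e ^ 2 + f ^ 2 + g ^ 2 - 2 * (e * f + f * g + g * e) := by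
    have e1 : e ^ 2 + f ^ 2 + g ^ 2 - 2 * (e * f + f * g + g * e) - -(s ^ 2) / 3 =
        2 / 3 * ((e - f) ^ 2 + (f - g) ^ 2 + (g - e) ^ 2) := by rw [hs]; ring
    linarith
  have ss : s ^ 2 ≤ 3 / 5 * s := by
    have := mul_le_mul_of_nonneg_right s6 s0
    linarith [sq s]
  have k : 16 * (-(1 / 4) - s / 24) ^ 3 + 4 * (9 - s) * (-(1 / 4) - s / 24) ^ 2 +
      (24 - 4 * s) * (-(1 / 4) - s / 24) + 4 - s ^ 2 / 3 =
      s * (3 / 8 - 5 / 24 * s - 7 / 864 * s ^ 2) := by ring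
  have k2 : 0 ≤ s * (3 / 8 - 5 / 24 * s - 7 / 864 * s ^ 2) := by
    exact mul_nonneg s0 (by linarith)
  linarith

theorem xBr_in {a b c : ℝ} (ha : K14 a) (hb : K14 b) (hc : K14 c) :
    -(191 / 100) ≤ xBr a b c ∧ xBr a b c ≤ -(17 / 10) := by
  have hK := KK_pos ha hb hc
  have hS := SS_ge ha hb hc
  have h2 := KK_xBr ha hb hc
  have hk := cBr_key ha hb hc
  obtain ⟨g1, g2, -⟩ := cBr_spec ha hb hc
  obtain ⟨a0, a1, a2⟩ := id ha
  obtain ⟨b0, b1, b2⟩ := id hb
  obtain ⟨c0, c1, c2⟩ := id hc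
  set y := cBr (SS a b c) (KK a b c) with hy
  have eS : SS a b c = 9 - (12 - a ^ 2 - b ^ 2 - c ^ 2) := by unfold SS; ring
  have le2 : ∀ t : ℝ, t ^ 2 ≤ 4 → t ≤ 2 := fun t ht =>
    le_of_sq_le_sq (by linarith) (by norm_num)
  have a2' := le2 a a2
  have b2' := le2 b b2
  have c2' := le2 c c2
  have K8 : KK a b c ≤ 8 := by
    unfold KK
    have h1 : a * b ≤ 2 * 2 := mul_le_mul a2' b2' b0.le (by norm_num)
    have h3 : a * b * c ≤ 2 * 2 * 2 := mul_le_mul h1 c2' c0.le (by norm_num)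
    linarith
  -- lower bound of `K`
  have Kl : 8 - 11 / 10 * (12 - a ^ 2 - b ^ 2 - c ^ 2) ≤ KK a b c := by
    have e1 : KK a b c ^ 2 = (4 - (4 - a ^ 2)) * (4 - (4 - b ^ 2)) * (4 - (4 - c ^ 2)) := by
      unfold KK
      ring
    set e := 4 - a ^ 2 with he
    set f := 4 - b ^ 2 with hf
    set g := 4 - c ^ 2 with hg
    have e0 : 0 ≤ e := by linarith
    have e5 : e ≤ 1 / 5 := by linarith
    have f0 : 0 ≤ f := by linarith
    have f5 : f ≤ 1 / 5 := by linarith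
    have g0 : 0 ≤ g := by linarith
    have g5 : g ≤ 1 / 5 := by linarith
    have es : 12 - a ^ 2 - b ^ 2 - c ^ 2 = e + f + g := by rw [he, hf, hg]; ring
    rw [es]
    have ef := mul_nonneg e0 f0
    have fg := mul_nonneg f0 g0
    have ge := mul_nonneg g0 e0
    have h3 : e * f * g ≤ e * f * (1 / 5) := mul_le_mul_of_nonneg_left g5 ef
    refine le_of_sq_le_sq (a := 8 - 11 / 10 * (e + f + g)) (b := KK a b c) ?_ hK.le
    rw [e1]
    have k1 := mul_nonneg (add_nonneg (add_nonneg e0 f0) g0)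
      (show 0 ≤ 3 / 5 - (e + f + g) by linarith)
    have e2 : (4 - e) * (4 - f) * (4 - g) - (8 - 11 / 10 * (e + f + g)) ^ 2 =
        121 / 100 * ((e + f + g) * (3 / 5 - (e + f + g))) + 437 / 500 * (e + f + g) +
          4 * (e * f + f * g + g * e) - e * f * g := by ring
    linarith
  set s := 12 - a ^ 2 - b ^ 2 - c ^ 2 with hs
  have s0 : 0 ≤ s := by rw [hs]; linarith
  have s6 : s ≤ 3 / 5 := by rw [hs]; linarith
  constructor
  · -- `-1.91 K ≤ K x`
    have h5 : 2 * y + 2 * y ^ 2 ≤ -(3 / 8) - s / 24 + s ^ 2 / 288 := by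
      have e : (-(3 / 8) - s / 24 + s ^ 2 / 288) - (2 * y + 2 * y ^ 2) =
          2 * ((-(1 / 4) - s / 24) - y) * (1 + y + (-(1 / 4) - s / 24)) := by ring
      have : 0 ≤ 2 * ((-(1 / 4) - s / 24) - y) * (1 + y + (-(1 / 4) - s / 24)) :=
        mul_nonneg (mul_nonneg (by norm_num) (by linarith)) (by linarith)
      linarith
    have h6 : -(191 / 100) * KK a b c ≤ KK a b c * xBr a b c := by
      rw [h2, eS]
      have ss : s ^ 2 ≤ 3 / 5 * s := by
        have := mul_le_mul_of_nonneg_right s6 s0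
        linarith [sq s]
      linarith
    by_contra hcon
    push Not at hcon
    have := mul_lt_mul_of_pos_left hcon hK
    linarith
  · have h6 : KK a b c * xBr a b c ≤ -(17 / 10) * KK a b c := by
      rw [h2]
      have k1 : 0 ≤ (y + 31 / 100) * (y + 69 / 100) := mul_nonneg (by linarith) (by linarith)
      have k2 : (y + 31 / 100) * (y + 69 / 100) = y ^ 2 + y + 2139 / 10000 := by ring
      linarith
    by_contra hcon
    push Not at hcon
    have := mul_lt_mul_of_pos_left hcon hK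
    linarith

theorem xBp_in {p q r : ℕ} (hp : 14 ≤ p) (hq : 14 ≤ q) (hr : 14 ≤ r) :
    -(191 / 100) ≤ xBp p q r ∧ xBp p q r ≤ -(17 / 10) :=
  xBr_in (K14_Kp hp) (K14_Kp hq) (K14_Kp hr)

end Pool.Agent.Helper6.CXT
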