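import Pool.Agent.Helper6.CXT.CL2
import Pool.Agent.Helper60.CXT.FR5

/-!
Far cells of tail classes: from the checks of the classes to the statements for all orders.
-/

set_option autoImplicit false
set_option exponentiation.threshold 4000
noncomputable section
namespace Pool.Agent.Helper6.CXT

open Pool.Agent.Helper6.MONO (Kp xA xA_eq xA_gt xA_le2 xA_swap thr_Kp2 Kp_mono)
open Pool.Agent.Helper6.MONO.QTR (Far)
open Pool.Agent.Helper48.CXT (InV)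
open Pool.Agent.Helper48.CXT.KC (PT cCT okI rtB)
open Pool.Agent.Helper48.CXT.KT (Tr Bx)
open Pool.Agent.Helper60.CXT
open Pool.Agent.Helper21.XB (xBp thr_xBp)

/-! ### one tail -/

/-- orders `≥ 10` with the weight in an interval -/
def Rn (lo hi : ℕ) (P : ℕ → Prop) : Prop :=
  ∀ r, 10 ≤ r → (lo : ℝ) ≤ 2 ^ 48 * Kp r → 2 ^ 48 * Kp r ≤ (hi : ℝ) → P r

theorem Rn.join {a b c : ℕ} {P : ℕ → Prop} (h1 : Rn a b P) (h2 : Rn b c P) : Rn a c P := by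
  intro r hr ha hc
  rcases le_total (2 ^ 48 * Kp r) (b : ℝ) with h | h
  · exact h1 r hr ha h
  · exact h2 r hr h hc

theorem Rn.all {P : ℕ → Prop} (h : Rn 535397221549391 562949953421312 P) :
    ∀ r, 10 ≤ r → P r := by
  intro r hr
  refine h r hr ?_ ?_
  · have := kp10.trans (mul_le_mul_of_nonneg_left (Kp_mono (by norm_num) hr)
      (by positivity : (0 : ℝ) ≤ 2 ^ 48))
    exact_mod_cast this
  · have := (thr_Kp2 r (by omega)).2.le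
    have h2 := mul_le_mul_of_nonneg_left this (by positivity : (0 : ℝ) ≤ 2 ^ 48)
    push_cast
    linarith

/-- the numbers of a part: `κ` of the tail in `[lo, hi]`, `x0` in `[X0, X1]` -/
def PT1 (m n a b lo hi X0 X1 : ℕ) : Prop :=
  (3 ≤ m ∧ 3 ≤ n) ∧ (okI 0 lo hi = true ∧ okI m a a = true ∧ okI n b b = true) ∧
  xLo a b lo hi ((X0 : ℤ) - 2 ^ 50) ∧ xHi a b lo hi ((X1 : ℤ) - 2 ^ 50)

instance (m n a b lo hi X0 X1 : ℕ) : Decidable (PT1 m n a b lo hi X0 X1) := by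
  unfold PT1; infer_instance

section
variable {m n a b lo hi X0 X1 : ℕ}

theorem lbo_ex {l a : ℕ} (h3 : 3 ≤ l) (h : okI l a a = true) : LbO l a a l :=
  ⟨h, fun _ => rfl, fun h0 => by omega⟩

theorem lbo_near {l a : ℕ} (h3 : 3 ≤ l) (h : okI l a a = true) :
    |(a : ℝ) - 2 ^ 48 * Kp l| ≤ 1 := by
  rcases (lbo_ex h3 h).s.inv with ⟨-, h⟩ | ⟨h1, h2⟩
  · exact h
  · rw [abs_le]
    constructor <;> linarith

theorem PT1.x {r : ℕ} (h : PT1 m n a b lo hi X0 X1) (hr : 10 ≤ r)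
    (h1 : (lo : ℝ) ≤ 2 ^ 48 * Kp r) (h2 : 2 ^ 48 * Kp r ≤ hi) :
    (X0 : ℝ) ≤ 2 ^ 48 * xA m n r + 2 ^ 50 ∧ 2 ^ 48 * xA m n r + 2 ^ 50 ≤ X1 := by
  obtain ⟨⟨m3, n3⟩, ⟨-, o1, o2⟩, l, u⟩ := h
  obtain ⟨k1, k2⟩ := xA_in m3 n3 (by omega) (lbo_near m3 o1) (lbo_near n3 o2) h1 h2 l u
  push_cast at k1 k2
  constructor <;> linarith

theorem okI_9 {l a : ℕ} (h3 : 3 ≤ l) (h : okI l a a = true) : l ≤ 9 :=
  ((lbo_ex h3 h).s.ex (by omega)).2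

theorem PT1.gt {r : ℕ} (h : PT1 m n a b lo hi X0 X1) (hr : 10 ≤ r) :
    -2 < xA m n r ∧ xA m n r ≤ 2 := by
  have n9 := okI_9 h.1.2 h.2.1.2.2
  exact ⟨xA_gt h.1.1 h.1.2 (by omega), xA_le2 h.1.1 h.1.2 (by omega)⟩

/-- labels `(T, m, n)` -/
theorem far_0 {t : Tr (List PT)} (h : PT1 m n a b lo hi X0 X1)
    (hc : cCT 0 m n t ⟨lo, hi, a, a, b, b, X0, X1⟩ = true) :
    Rn lo hi fun r => Far m n r (xA m n r) 8 := by
  intro r hr h1 h2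
  obtain ⟨x1, x2⟩ := h.x hr h1 h2
  obtain ⟨g1, g2⟩ := h.gt hr
  refine far_rot (far_T (P := r) (Q := m) (R := n) ⟨⟨h.2.1.1, fun h => absurd rfl h,
    fun _ => ⟨hr, h1, h2⟩⟩, lbo_ex h.1.1 h.2.1.2.1, lbo_ex h.1.2 h.2.1.2.2⟩ hc x1 x2 g1 g2)

/-- labels `(m, T, n)` -/
theorem far_1 {t : Tr (List PT)} (h : PT1 m n a b lo hi X0 X1)
    (hc : cCT m 0 n t ⟨a, a, lo, hi, b, b, X0, X1⟩ = true) :
    Rn lo hi fun r => Far n m r (xA n m r) 8 := by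
  intro r hr h1 h2
  obtain ⟨x1, x2⟩ := h.x hr h1 h2
  obtain ⟨g1, g2⟩ := h.gt hr
  rw [xA_swap m n r]
  refine far_rot2 (far_T (P := m) (Q := r) (R := n) ⟨lbo_ex h.1.1 h.2.1.2.1,
    ⟨h.2.1.1, fun h => absurd rfl h, fun _ => ⟨hr, h1, h2⟩⟩, lbo_ex h.1.2 h.2.1.2.2⟩ hc x1 x2
    g1 g2)

end

/-! ### two tails -/

/-- labels `(T, T, p)` -/
theorem far_2 {p X0 X1 : ℕ} {b : Bx} {t : Tr (List PT)} (hp : 3 ≤ p) (hp9 : p ≤ 9)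
    (hb : b = rtB 0 0 p X0 X1) (hc : cCT 0 0 p t b = true) {q r : ℕ} (hq : 10 ≤ q)
    (hr : 10 ≤ r) {x0 : ℝ} (h1 : (X0 : ℝ) ≤ 2 ^ 48 * x0 + 2 ^ 50)
    (h2 : 2 ^ 48 * x0 + 2 ^ 50 ≤ X1) (g1 : -2 < x0) (g2 : x0 ≤ 2) : Far p q r x0 8 := by
  subst hb
  exact far_rot2 (far_T (P := q) (Q := r) (R := p) (cls_rt X0 X1 (Or.inl ⟨rfl, hq⟩)
    (Or.inl ⟨rfl, hr⟩) (Or.inr ⟨hp, hp9, rfl⟩)) hc h1 h2 g1 g2)

/-! ### three tails -/

theorem far_3 {X0 X1 : ℕ} {b : Bx} {t : Tr (List PT)} (hb : b = rtB 0 0 0 X0 X1)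
    (hc : cCT 0 0 0 t b = true) {p q r : ℕ} (hp : 10 ≤ p) (hq : 10 ≤ q)
    (hr : 10 ≤ r) {x0 : ℝ} (h1 : (X0 : ℝ) ≤ 2 ^ 48 * x0 + 2 ^ 50)
    (h2 : 2 ^ 48 * x0 + 2 ^ 50 ≤ X1) (g1 : -2 < x0) (g2 : x0 ≤ 2) : Far p q r x0 8 := by
  subst hb
  exact far_T (cls_rt X0 X1 (Or.inl ⟨rfl, hp⟩) (Or.inl ⟨rfl, hq⟩) (Or.inl ⟨rfl, hr⟩)) hc h1 h2
    g1 g2

/-- a check of the numbers of part `o17_0` -/
theorem PT1_test : PT1 7 4 507200382219719 398065729532861 535397221549391 562949953421312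
    767255077154587 770979022744508 := by decide +kernel

end Pool.Agent.Helper6.CXT
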