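import Pool.Agent.Helper6.CXT.CL3
import Pool.Agent.Helper48.CXT.D.A1
import Pool.Agent.Helper48.CXT.D.A2
import Pool.Agent.Helper48.CXT.D.A3
import Pool.Agent.Helper48.CXT.D.A4
import Pool.Agent.Helper48.CXT.D.A5
import Pool.Agent.Helper48.CXT.D.A6
import Pool.Agent.Helper48.CXT.D.A7
import Pool.Agent.Helper48.CXT.D.A8
import Pool.Agent.Helper48.CXT.D.A9
import Pool.Agent.Helper48.CXT.D.A10
import Pool.Agent.Helper48.CXT.D.A11
import Pool.Agent.Helper48.CXT.D.A12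
import Pool.Agent.Helper48.CXT.D.A13
import Pool.Agent.Helper48.CXT.D.Q10
import Pool.Agent.Helper48.CXT.D.W5
import Pool.Agent.Helper48.CXT.D.W6
import Pool.Agent.Helper48.CXT.D.W7
import Pool.Agent.Helper48.CXT.D.W8
import Pool.Agent.Helper48.CXT.D.W9
import Pool.Agent.Helper48.CXT.D.W4
import Pool.Agent.Helper48.CXT.D.W3

/-!
Far cells of tail classes: the statements for all orders.
-/

set_option autoImplicit false
set_option exponentiation.threshold 4000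
noncomputable section
namespace Pool.Agent.Helper6.CXT

open Pool.Agent.Helper6.MONO (Kp xA)
open Pool.Agent.Helper6.MONO.QTR (Far)
open Pool.Agent.Helper48.CXT
open Pool.Agent.Helper21.XB (xBp thr_xBp)

/-! ### one tail -/

theorem f_3_3 : ∀ r, 10 ≤ r → Far 3 3 r (xA 3 3 r) 8 :=
  Rn.all ((((((far_0 (by decide +kernel) D.o0_0).join
      (far_0 (by decide +kernel) D.o0_1)).join
      (far_0 (by decide +kernel) D.o0_2)).join
      (far_0 (by decide +kernel) D.o0_3)).join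
      (far_0 (by decide +kernel) D.o0_4)).join
      (far_0 (by decide +kernel) D.o0_5))
theorem f_3_4 : ∀ r, 10 ≤ r → Far 3 4 r (xA 3 4 r) 8 :=
  Rn.all ((far_1 (by decide +kernel) D.o6_0).join
      (far_1 (by decide +kernel) D.o6_1))
theorem f_3_5 : ∀ r, 10 ≤ r → Far 3 5 r (xA 3 5 r) 8 :=
  Rn.all ((far_1 (by decide +kernel) D.o7_0).join
      (far_1 (by decide +kernel) D.o7_1))
theorem f_3_6 : ∀ r, 10 ≤ r → Far 3 6 r (xA 3 6 r) 8 :=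
  Rn.all ((far_1 (by decide +kernel) D.o8_0).join
      (far_1 (by decide +kernel) D.o8_1))
theorem f_3_7 : ∀ r, 10 ≤ r → Far 3 7 r (xA 3 7 r) 8 :=
  Rn.all ((far_1 (by decide +kernel) D.o9_0).join
      (far_1 (by decide +kernel) D.o9_1))
theorem f_3_8 : ∀ r, 10 ≤ r → Far 3 8 r (xA 3 8 r) 8 :=
  Rn.all (((far_1 (by decide +kernel) D.o10_0).join
      (far_1 (by decide +kernel) D.o10_1)).join
      (far_1 (by decide +kernel) D.o10_2))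
theorem f_3_9 : ∀ r, 10 ≤ r → Far 3 9 r (xA 3 9 r) 8 :=
  Rn.all (((far_1 (by decide +kernel) D.o11_0).join
      (far_1 (by decide +kernel) D.o11_1)).join
      (far_1 (by decide +kernel) D.o11_2))
theorem f_4_3 : ∀ r, 10 ≤ r → Far 4 3 r (xA 4 3 r) 8 :=
  Rn.all ((far_0 (by decide +kernel) D.o1_0).join
      (far_0 (by decide +kernel) D.o1_1))
theorem f_4_4 : ∀ r, 10 ≤ r → Far 4 4 r (xA 4 4 r) 8 :=
  Rn.all ((far_0 (by decide +kernel) D.o14_0).join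
      (far_0 (by decide +kernel) D.o14_1))
theorem f_4_5 : ∀ r, 10 ≤ r → Far 4 5 r (xA 4 5 r) 8 :=
  Rn.all (far_1 (by decide +kernel) D.o19_0)
theorem f_4_6 : ∀ r, 10 ≤ r → Far 4 6 r (xA 4 6 r) 8 :=
  Rn.all (far_1 (by decide +kernel) D.o20_0)
theorem f_4_7 : ∀ r, 10 ≤ r → Far 4 7 r (xA 4 7 r) 8 :=
  Rn.all (far_1 (by decide +kernel) D.o21_0)
theorem f_4_8 : ∀ r, 10 ≤ r → Far 4 8 r (xA 4 8 r) 8 :=
  Rn.all (far_1 (by decide +kernel) D.o22_0)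
theorem f_4_9 : ∀ r, 10 ≤ r → Far 4 9 r (xA 4 9 r) 8 :=
  Rn.all (far_1 (by decide +kernel) D.o23_0)
theorem f_5_3 : ∀ r, 10 ≤ r → Far 5 3 r (xA 5 3 r) 8 :=
  Rn.all (((far_0 (by decide +kernel) D.o2_0).join
      (far_0 (by decide +kernel) D.o2_1)).join
      (far_0 (by decide +kernel) D.o2_2))
theorem f_5_4 : ∀ r, 10 ≤ r → Far 5 4 r (xA 5 4 r) 8 :=
  Rn.all ((far_0 (by decide +kernel) D.o15_0).join
      (far_0 (by decide +kernel) D.o15_1))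
theorem f_5_5 : ∀ r, 10 ≤ r → Far 5 5 r (xA 5 5 r) 8 :=
  Rn.all (far_0 (by decide +kernel) D.o26_0)
theorem f_5_6 : ∀ r, 10 ≤ r → Far 5 6 r (xA 5 6 r) 8 :=
  Rn.all (far_1 (by decide +kernel) D.o30_0)
theorem f_5_7 : ∀ r, 10 ≤ r → Far 5 7 r (xA 5 7 r) 8 :=
  Rn.all (far_1 (by decide +kernel) D.o31_0)
theorem f_5_8 : ∀ r, 10 ≤ r → Far 5 8 r (xA 5 8 r) 8 :=
  Rn.all (far_1 (by decide +kernel) D.o32_0)
theorem f_5_9 : ∀ r, 10 ≤ r → Far 5 9 r (xA 5 9 r) 8 :=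
  Rn.all (far_1 (by decide +kernel) D.o33_0)
theorem f_6_3 : ∀ r, 10 ≤ r → Far 6 3 r (xA 6 3 r) 8 :=
  Rn.all ((((far_0 (by decide +kernel) D.o3_0).join
      (far_0 (by decide +kernel) D.o3_1)).join
      (far_0 (by decide +kernel) D.o3_2)).join
      (far_0 (by decide +kernel) D.o3_3))
theorem f_6_4 : ∀ r, 10 ≤ r → Far 6 4 r (xA 6 4 r) 8 :=
  Rn.all (far_0 (by decide +kernel) D.o16_0)
theorem f_6_5 : ∀ r, 10 ≤ r → Far 6 5 r (xA 6 5 r) 8 :=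
  Rn.all (far_0 (by decide +kernel) D.o27_0)
theorem f_6_6 : ∀ r, 10 ≤ r → Far 6 6 r (xA 6 6 r) 8 :=
  Rn.all (far_0 (by decide +kernel) D.o36_0)
theorem f_6_7 : ∀ r, 10 ≤ r → Far 6 7 r (xA 6 7 r) 8 :=
  Rn.all (far_1 (by decide +kernel) D.o39_0)
theorem f_6_8 : ∀ r, 10 ≤ r → Far 6 8 r (xA 6 8 r) 8 :=
  Rn.all (far_1 (by decide +kernel) D.o40_0)
theorem f_6_9 : ∀ r, 10 ≤ r → Far 6 9 r (xA 6 9 r) 8 :=
  Rn.all (far_1 (by decide +kernel) D.o41_0)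
theorem f_7_3 : ∀ r, 10 ≤ r → Far 7 3 r (xA 7 3 r) 8 :=
  Rn.all (((far_0 (by decide +kernel) D.o4_0).join
      (far_0 (by decide +kernel) D.o4_1)).join
      (far_0 (by decide +kernel) D.o4_2))
theorem f_7_4 : ∀ r, 10 ≤ r → Far 7 4 r (xA 7 4 r) 8 :=
  Rn.all (far_0 (by decide +kernel) D.o17_0)
theorem f_7_5 : ∀ r, 10 ≤ r → Far 7 5 r (xA 7 5 r) 8 :=
  Rn.all (far_0 (by decide +kernel) D.o28_0)
theorem f_7_6 : ∀ r, 10 ≤ r → Far 7 6 r (xA 7 6 r) 8 :=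
  Rn.all (far_0 (by decide +kernel) D.o37_0)
theorem f_7_7 : ∀ r, 10 ≤ r → Far 7 7 r (xA 7 7 r) 8 :=
  Rn.all (far_0 (by decide +kernel) D.o44_0)
theorem f_7_8 : ∀ r, 10 ≤ r → Far 7 8 r (xA 7 8 r) 8 :=
  Rn.all (far_1 (by decide +kernel) D.o46_0)
theorem f_7_9 : ∀ r, 10 ≤ r → Far 7 9 r (xA 7 9 r) 8 :=
  Rn.all (far_1 (by decide +kernel) D.o47_0)
theorem f_8_3 : ∀ r, 10 ≤ r → Far 8 3 r (xA 8 3 r) 8 :=
  Rn.all (((far_0 (by decide +kernel) D.o5_0).join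
      (far_0 (by decide +kernel) D.o5_1)).join
      (far_0 (by decide +kernel) D.o5_2))
theorem f_8_4 : ∀ r, 10 ≤ r → Far 8 4 r (xA 8 4 r) 8 :=
  Rn.all (far_0 (by decide +kernel) D.o18_0)
theorem f_8_5 : ∀ r, 10 ≤ r → Far 8 5 r (xA 8 5 r) 8 :=
  Rn.all (far_0 (by decide +kernel) D.o29_0)
theorem f_8_6 : ∀ r, 10 ≤ r → Far 8 6 r (xA 8 6 r) 8 :=
  Rn.all (far_0 (by decide +kernel) D.o38_0)
theorem f_8_7 : ∀ r, 10 ≤ r → Far 8 7 r (xA 8 7 r) 8 :=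
  Rn.all (far_0 (by decide +kernel) D.o45_0)
theorem f_8_8 : ∀ r, 10 ≤ r → Far 8 8 r (xA 8 8 r) 8 :=
  Rn.all (far_0 (by decide +kernel) D.o50_0)
theorem f_8_9 : ∀ r, 10 ≤ r → Far 8 9 r (xA 8 9 r) 8 :=
  Rn.all (far_1 (by decide +kernel) D.o51_0)
theorem f_9_3 : ∀ r, 10 ≤ r → Far 9 3 r (xA 9 3 r) 8 :=
  Rn.all ((far_0 (by decide +kernel) D.o13_0).join
      (far_0 (by decide +kernel) D.o13_1))
theorem f_9_4 : ∀ r, 10 ≤ r → Far 9 4 r (xA 9 4 r) 8 :=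
  Rn.all (far_0 (by decide +kernel) D.o25_0)
theorem f_9_5 : ∀ r, 10 ≤ r → Far 9 5 r (xA 9 5 r) 8 :=
  Rn.all (far_0 (by decide +kernel) D.o35_0)
theorem f_9_6 : ∀ r, 10 ≤ r → Far 9 6 r (xA 9 6 r) 8 :=
  Rn.all (far_0 (by decide +kernel) D.o43_0)
theorem f_9_7 : ∀ r, 10 ≤ r → Far 9 7 r (xA 9 7 r) 8 :=
  Rn.all (far_0 (by decide +kernel) D.o49_0)
theorem f_9_8 : ∀ r, 10 ≤ r → Far 9 8 r (xA 9 8 r) 8 :=
  Rn.all (far_0 (by decide +kernel) D.o53_0)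
theorem f_9_9 : ∀ r, 10 ≤ r → Far 9 9 r (xA 9 9 r) 8 :=
  Rn.all (far_0 (by decide +kernel) D.o56_0)

/-- ONE TAIL -/
theorem far_one {m n : ℕ} (hm : 3 ≤ m) (hm9 : m ≤ 9) (hn : 3 ≤ n) (hn9 : n ≤ 9) :
    ∀ r, 10 ≤ r → Far m n r (xA m n r) 8 := by
  interval_cases m <;> interval_cases n
  exacts [f_3_3, f_3_4, f_3_5, f_3_6, f_3_7, f_3_8, f_3_9, f_4_3, f_4_4, f_4_5, f_4_6, f_4_7, f_4_8, f_4_9, f_5_3, f_5_4, f_5_5, f_5_6, f_5_7, f_5_8, f_5_9, f_6_3, f_6_4, f_6_5, f_6_6, f_6_7, f_6_8, f_6_9, f_7_3, f_7_4, f_7_5, f_7_6, f_7_7, f_7_8, f_7_9, f_8_3, f_8_4, f_8_5, f_8_6, f_8_7, f_8_8, f_8_9, f_9_3, f_9_4, f_9_5, f_9_6, f_9_7, f_9_8, f_9_9]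

/-! ### two tails -/

/-- the intervals of the lines, `2 ^ 48 x0 + 2 ^ 50` -/
def ln0 : ℕ → ℕ
  | 3 => 852869179433288
  | 4 => 731834939447706
  | 5 => 664280945037148
  | 6 => 633318697598976
  | 7 => 613615449229230
  | 8 => 599541700393697
  | 9 => 591097451092378
  | _ => 0
def ln1 : ℕ → ℕ
  | 3 => 900719925474099
  | 4 => 776870935721411
  | 5 => 720575940379279
  | 6 => 689613692941107
  | 7 => 669910444571361
  | 8 => 658651445502935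
  | 9 => 650207196201615
  | _ => 0

theorem far_two {p : ℕ} (hp : 3 ≤ p) (hp9 : p ≤ 9) {q r : ℕ} (hq : 10 ≤ q) (hr : 10 ≤ r) {x0 : ℝ}
    (h1 : (ln0 p : ℝ) ≤ 2 ^ 48 * x0 + 2 ^ 50) (h2 : 2 ^ 48 * x0 + 2 ^ 50 ≤ (ln1 p : ℝ))
    (g1 : -2 < x0) (g2 : x0 ≤ 2) : Far p q r x0 8 := by
  interval_cases p
  · exact far_2 (by norm_num) (by norm_num) rfl D.w3_0 hq hr h1 h2 g1 g2
  · exact far_2 (by norm_num) (by norm_num) rfl D.w4_0 hq hr h1 h2 g1 g2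
  · exact far_2 (by norm_num) (by norm_num) rfl D.w5_0 hq hr h1 h2 g1 g2
  · exact far_2 (by norm_num) (by norm_num) rfl D.w6_0 hq hr h1 h2 g1 g2
  · exact far_2 (by norm_num) (by norm_num) rfl D.w7_0 hq hr h1 h2 g1 g2
  · exact far_2 (by norm_num) (by norm_num) rfl D.w8_0 hq hr h1 h2 g1 g2
  · exact far_2 (by norm_num) (by norm_num) rfl D.w9_0 hq hr h1 h2 g1 g2

/-- TWO TAILS: constant lines -/
theorem far_ln {p N : ℕ} (hp : 3 ≤ p) (hp9 : p ≤ 9) (h1 : ln0 p + N ≤ 2 ^ 50)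
    (h2 : 2 ^ 50 ≤ ln1 p + N) (hN : N < 2 ^ 49) :
    ∀ q r, 10 ≤ q → 10 ≤ r → Far p q r (-(N : ℝ) / 2 ^ 48) 8 := by
  intro q r hq hr
  have e : 2 ^ 48 * (-(N : ℝ) / 2 ^ 48) = -N := by ring
  have k1 : (ln0 p : ℝ) + N ≤ 2 ^ 50 := by exact_mod_cast h1
  have k2 : (2 : ℝ) ^ 50 ≤ ln1 p + N := by exact_mod_cast h2
  have k3 : (N : ℝ) < 2 ^ 49 := by exact_mod_cast hN
  have k4 : (0 : ℝ) ≤ N := Nat.cast_nonneg _
  refine far_two hp hp9 hq hr ?_ ?_ ?_ ?_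
  · rw [e]; linarith
  · rw [e]; linarith
  · rw [lt_div_iff₀ (by positivity)]; linarith
  · rw [div_le_iff₀ (by positivity)]; linarith

/-! ### three tails -/

theorem far_three {p q r : ℕ} (hp : 10 ≤ p) (hq : 10 ≤ q) (hr : 10 ≤ r) {x0 : ℝ}
    (h1 : (588282701325271 : ℝ) ≤ 2 ^ 48 * x0 + 2 ^ 50)
    (h2 : 2 ^ 48 * x0 + 2 ^ 50 ≤ (675539944105574 : ℝ)) : Far p q r x0 8 := by
  refine far_3 (X0 := 588282701325271) (X1 := 675539944105574) rfl D.q10_0 hp hq hr ?_ ?_ ?_ ?_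
  · exact_mod_cast h1
  · exact_mod_cast h2
  · linarith
  · linarith

/-- constant lines, all orders `≥ 10` -/
theorem far_lnT {p N : ℕ} (hp : 10 ≤ p) (h1 : 588282701325271 + N ≤ 2 ^ 50)
    (h2 : 2 ^ 50 ≤ 675539944105574 + N) :
    ∀ q r, p ≤ q → p ≤ r → Far p q r (-(N : ℝ) / 2 ^ 48) 8 := by
  intro q r hq hr
  have e : 2 ^ 48 * (-(N : ℝ) / 2 ^ 48) = -N := by ring
  have k1 : (588282701325271 : ℝ) + N ≤ 2 ^ 50 := by exact_mod_cast h1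
  have k2 : (2 : ℝ) ^ 50 ≤ 675539944105574 + N := by exact_mod_cast h2
  refine far_three hp (hp.trans hq) (hp.trans hr) ?_ ?_
  · rw [e]; linarith
  · rw [e]; linarith

/-- THREE TAILS on the threshold of type B -/
theorem far_xB {p q r : ℕ} (hp : 14 ≤ p) (hq : 14 ≤ q) (hr : 14 ≤ r) :
    Far p q r (xBp p q r) 8 := by
  obtain ⟨a, b⟩ := xBp_in hp hq hr
  refine far_three (by omega) (by omega) (by omega) ?_ ?_
  · linarith
  · linarith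

/-- the equation `ln0.eq_8`, made here once -/
theorem eqn_ln0_eq_8 : True := by
  have h := @ln0.eq_8
  trivial

/-- the equation `ln1.eq_8`, made here once -/
theorem eqn_ln1_eq_8 : True := by
  have h := @ln1.eq_8
  trivial

end Pool.Agent.Helper6.CXT
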