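import Pool.Agent.Helper6.CXT.BX4
import Pool.Agent.Helper48.CXT.AS
import Pool.Agent.Helper60.CXT.Ct2

/-!
Far cells of tail classes: one run of two, orientation `-` (`leafA`).
-/

set_option autoImplicit false
set_option exponentiation.threshold 4000
noncomputable section
namespace Pool.Agent.Helper6.CXT

open Pool.Agent.Helper86.CX renaming Hm → Hm, ev → hev
open Pool.Agent.Helper94.CXF (M9)
open Pool.Agent.Helper94.CXF
open Pool.Agent.Helper94.CXF.SD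
open Pool.Agent.Helper48.CXT
open Complex ComplexConjugate

/-! ### the source form -/

theorem c138_rep : Rp KT.c138 (-2 ^ 138) := by
  unfold Rp Pool.Agent.Helper17.PAK.Rep Int.ModEq
  decide +kernel

theorem srcN_rep (K : ℕ) : RH (KT.srcN K) (GR.smH (-2 ^ 138) (decz K)) :=
  smH_rep c138_rep (dec_rep K)

/-! ### nodes -/

/-- the integer form at a node -/
def NAz (a : ℕ) (d : ℤ) (k : KN.Nd) (V0 V1 K : Hm ℤ) : Hm ℤ :=
  GR.adH (GR.adH (GR.adH (GR.smH (2 ^ 62) V0) (GR.smH (zs19 k) V1)) (GR.smH (a : ℤ) K))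
    (GR.idH d)

theorem nA_rep {a d : ℕ} {dz : ℤ} {k : KN.Nd} {V0 V1 Kn : Hm ℕ} {V0z V1z K : Hm ℤ}
    (hd : Rp d dz) (h0 : RH V0 V0z) (h1 : RH V1 V1z) (hK : RH Kn K) :
    RH (KT.nA a d (KN.fs k) V0 V1 Kn) (NAz a dz k V0z V1z K) := by
  have ha := Pool.Agent.Helper17.PAK.Rep.nat KN.MM a
  have e : ∀ {P S q : ℕ} {P' S' q' : ℤ}, Rp P P' → Rp S S' → Rp q q' →
      Rp (KT.eA (KN.fs k) P S a q) ((2 ^ 62 * P' + zs19 k * S') + (a : ℤ) * q') := by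
    intro P S q P' S' q' h1 h2 h3
    exact (((rp_o62.mul h1).add ((rp_fs9 k).mul h2)).add (ha.mul h3)).mod
  exact ⟨(e h0.a h1.a hK.a).add hd, (e h0.b h1.b hK.b).add hd, (e h0.c h1.c hK.c).add hd,
    rp0 (e h0.d h1.d hK.d), rp0 (e h0.e h1.e hK.e), rp0 (e h0.f h1.f hK.f),
    rp0 (e h0.g h1.g hK.g), rp0 (e h0.h h1.h hK.h), rp0 (e h0.i h1.i hK.i)⟩

theorem NAz_hev (a : ℕ) (d : ℤ) (k : KN.Nd) (V0 V1 K : Hm ℤ) (x : V) :
    hev (rH (NAz a d k V0 V1 K)) x = (2 ^ 62 * hev (rH V0) x + zs19 k * hev (rH V1) x) +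
      a * hev (rH K) x + d * nr x := by
  rw [NAz]
  simp only [hev_ad, hev_sm', hev_id']
  push_cast
  ring

theorem NAz_bd {xc : ℝ} {a : ℕ} {d : ℤ} {k : KN.Nd} {w : ℂ} (h : NdR xc k w) {V0 V1 K : Hm ℤ}
    (ha : a < 2 ^ 32) (hd : |d| ≤ 2 ^ 250) (b0 : BH (2 ^ 150) V0) (b1 : BH (2 ^ 150) V1)
    (hK : BH (2 ^ 170) K) : BH (2 ^ 256) (NAz a d k V0 V1 K) := by
  have ha' : |(a : ℤ)| ≤ 2 ^ 32 := by
    rw [abs_of_nonneg (by positivity)]; exact_mod_cast ha.le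
  refine (adH_bd (adH_bd (adH_bd (smH_bd (r := 2 ^ 62) (by norm_num) b0)
    (smH_bd (zs1_bd9 h) b1)) (smH_bd ha' hK)) (idH_bd hd)).mono ?_
  norm_num

/-- an affine family of forms on a chord -/
theorem chord_A {xc s : ℝ} {u0 u1 : ℂ} {p a b : ℕ} {k0 k1 : KN.Nd} {V0 V1 Kn : Hm ℕ}
    {V0z V1z Kz : Hm ℤ} (h0 : NdR xc k0 u0) (h1 : NdR xc k1 u1) (hi : k0.i + 1 ≤ k1.i)
    (s0 : (k0.i : ℝ) / 2048 ≤ s) (s1 : s ≤ (k1.i : ℝ) / 2048) (r0 : RH V0 V0z)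
    (r1 : RH V1 V1z) (b0 : BH (2 ^ 150) V0z) (b1 : BH (2 ^ 150) V1z)
    (rK : RH Kn (GR.smH (-2 ^ 138) Kz)) (bK : BH (2 ^ 27) Kz) (hp : p ≤ 2 ^ 215)
    (ha : a < 2 ^ 32) (hb : b < 2 ^ 32)
    (p0 : KN.psd (KT.nA a (KN.ng p) (KN.fs k0) V0 V1 Kn) = true)
    (p1 : KN.psd (KT.nA b (KN.ng p) (KN.fs k1) V0 V1 Kn) = true) {v : V}
    (hK : 0 ≤ hev (rH Kz) v) :
    (p : ℝ) * nr v ≤ 2 ^ 62 * (hev (rH V0z) v + s * hev (rH V1z) v) := by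
  have hdR : Rp (KN.ng p) (-((p : ℕ) : ℤ)) := rp_ng (Pool.Agent.Helper17.PAK.Rep.nat KN.MM p)
  have hdB : |-((p : ℕ) : ℤ)| ≤ 2 ^ 250 := by
    rw [abs_neg, abs_of_nonneg (by positivity)]
    exact_mod_cast hp.trans (by norm_num)
  have KB : BH (2 ^ 170) (GR.smH (-2 ^ 138) Kz) :=
    (smH_bd (r := 2 ^ 138) (by rw [abs_neg, abs_of_nonneg (by positivity)]) bK).mono
      (by norm_num)
  have node : ∀ (k : KN.Nd) (z : ℂ) (c : ℕ), NdR xc k z → c < 2 ^ 32 →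
      KN.psd (KT.nA c (KN.ng p) (KN.fs k) V0 V1 Kn) = true →
      (p : ℝ) * nr v ≤ 2 ^ 62 * (hev (rH V0z) v + (k.i : ℝ) / 2048 * hev (rH V1z) v) := by
    intro k z c hk hc hpd
    have hz := PDz_hev (psd_sound (nA_rep hdR r0 r1 rK) (NAz_bd hk hc hdB b0 b1 KB) hpd) v
    rw [NAz_hev, hev_sm'] at hz
    have e1 : ((zs19 k : ℤ) : ℝ) = 2 ^ 62 * ((k.i : ℝ) / 2048) := by
      rw [zs19]; push_cast; ring
    rw [e1] at hz
    push_cast at hz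
    have h2 : (0 : ℝ) ≤ (c : ℝ) * (2 ^ 138 * hev (rH Kz) v) :=
      mul_nonneg (Nat.cast_nonneg _) (mul_nonneg (by norm_num) hK)
    linarith
  have V0' := node k0 u0 a h0 ha p0
  have V1' := node k1 u1 b h1 hb p1
  have hi' : (k0.i : ℝ) / 2048 < (k1.i : ℝ) / 2048 := by
    have : (k0.i : ℝ) + 1 ≤ k1.i := by exact_mod_cast hi
    linarith
  obtain ⟨t, t0, t1, hs⟩ := exists_t s0 s1 hi'
  have A0 := mul_le_mul_of_nonneg_left V0' (sub_nonneg.2 t1)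
  have A1 := mul_le_mul_of_nonneg_left V1' t0
  generalize hev (rH V0z) v = v0 at *
  generalize hev (rH V1z) v = v1 at *
  have e : 2 ^ 62 * (v0 + s * v1) = (1 - t) * (2 ^ 62 * (v0 + (k0.i : ℝ) / 2048 * v1)) +
      t * (2 ^ 62 * (v0 + (k1.i : ℝ) / 2048 * v1)) := by
    rw [hs]; ring
  have e' : (1 - t) * ((p : ℝ) * nr v) + t * ((p : ℝ) * nr v) = p * nr v := by ring
  linarith

theorem hev_gP (K : Hm ℤ) (Z : M9 ℤ × M9 ℤ) (x : V) :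
    hev (rH (gfz K Z).P) x = hev (rH K) (ap (rP Z) 0 x) := by
  rw [← valG_gf]
  simp [valG]

/-- the end, with the norm of the form -/
theorem box_endA {K : Hm ℝ} {la ka d a d1 d2 d3 : ℕ} {n t1 t2 t3 : ℝ}
    {Y : Bool → Bool → Bool → V} {w : V} (i1 : I01 t1) (i2 : I01 t2) (i3 : I01 t3) (n0 : 0 ≤ n)
    (hl : ∀ v, hev K v ≤ la * nr v)
    (h1 : ∀ c2 c3, nr (Y true c2 c3 - Y false c2 c3) ≤ (d1 : ℝ) ^ 2 * n)
    (h2 : ∀ c1 c3, nr (Y c1 true c3 - Y c1 false c3) ≤ (d2 : ℝ) ^ 2 * n)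
    (h3 : ∀ c1 c2, nr (Y c1 c2 true - Y c1 c2 false) ≤ (d3 : ℝ) ^ 2 * n)
    (ha : ∀ c1 c2 c3, nr (Y c1 c2 c3) ≤ (a : ℝ) ^ 2 * n)
    (hw : nr (w - y3 t1 t2 t3 Y) ≤ (d : ℝ) ^ 2 * n) (hk : ∀ v, |hev K v| ≤ ka * nr v)
    (hp : ∀ c1 c2 c3, (2 ^ 60 * (la * (d1 * d1 + (d2 * d2 + d3 * d3))) +
      2 ^ 62 * (ka * (d * (a + a + d))) + 2 ^ 158 : ℝ) * n ≤ 2 ^ 62 * hev K (Y c1 c2 c3)) :
    2 ^ 158 * n ≤ 2 ^ 62 * hev K w := by
  have l0 : (0 : ℝ) ≤ la := Nat.cast_nonneg _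
  have c := core3 (K := K) (la := la) (S := ⊤) (m := (2 ^ 60 * (la * (d1 * d1 + (d2 * d2 +
      d3 * d3))) + 2 ^ 62 * (ka * (d * (a + a + d))) + 2 ^ 158 : ℝ) * n / 2 ^ 62) l0 i1.1 i1.2
      i2.1 i2.2 i3.1 i3.2 (fun v _ => hl v) (fun _ _ _ _ _ _ => Submodule.mem_top) h1 h2 h3
      (fun c1 c2 c3 => by
        rw [div_le_iff₀ (by positivity), mul_comm]
        rw [mul_comm]
        have := hp c1 c2 c3
        linarith)
  have e := hev_pert (K := K) (ka := ka) (Y := a) (D := d) (N := n) hk (by positivity) n0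
    (by positivity) (by positivity) (nr_y3 i1.1 i1.2 i2.1 i2.2 i3.1 i3.2 ha) hw
  have e2 : y3 t1 t2 t3 Y + (w - y3 t1 t2 t3 Y) = w := by abel
  rw [e2] at e
  have c' := mul_le_mul_of_nonneg_left c (show (0 : ℝ) ≤ 2 ^ 62 by positivity)
  have e' := mul_le_mul_of_nonneg_left e (show (0 : ℝ) ≤ 2 ^ 62 by positivity)
  have e3 : 2 ^ 62 * ((2 ^ 60 * (la * (d1 * d1 + (d2 * d2 + d3 * d3))) +
      2 ^ 62 * (ka * (d * (a + a + d))) + 2 ^ 158 : ℝ) * n / 2 ^ 62 -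
      la * ((d1 : ℝ) ^ 2 * n + (d2 : ℝ) ^ 2 * n + (d3 : ℝ) ^ 2 * n) / 4) =
      2 ^ 62 * (ka * (d * (2 * a + d)) * n) + 2 ^ 158 * n := by
    ring
  rw [e3] at c'
  linarith

/-- ONE RUN OF TWO, ORIENTATION `-` -/
theorem leafA_sound {xc x0 s : ℝ} {u : ℂ} {X : KT.Cx} {A B K : ℕ} {b : KT.Bx} {t : KT.Lf}
    {k h g R : ℝ} (hX : CxOk xc X) (hx : InX xc X x0 s u) (ok : OkL A B) (hb : Rg b)
    (hi : InB b k h g R) (hf : KT.leafA X A B (KT.srcN K) b t = true) :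
    Imp (rH (decz K)) (lpf A B s) (ap (TNm k g, z9) (s * u)) := by
  intro v hv hKv
  unfold KT.leafA at hf
  rw [andB_iff, andB_iff] at hf
  obtain ⟨hbn, hdf, hc⟩ := hf
  have Bd := bnd_sound hbn
  have DF := dif_sound hdf
  obtain ⟨hd, Z, hC, t1, t2, t3, i1, i2, i3, hg⟩ := Pool.Agent.Helper60.CXT.fam_nm b hb k h g R hi
  have hc : KT.cor (KT.dvH b) (fun k _ g i => KT.cnA X t (KT.pS (KT.lam A) (KT.lam B)
    (KT.dT 0 0 12 (KT.dvH b)) t) (KT.srcN K) (KT.hmq (KN.dec A) (KN.TNmN k g))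
    (KT.hmq (KN.dec B) (KN.TNmN k g)) (KN.TNmN k g) i) = true := hc
  set d := KT.dT 0 0 12 (KT.dvH b) with hdd
  have he : normSq (0 : ℂ) ≤ 1 / 64 := by simp
  set Y : Bool → Bool → Bool → V := fun c1 c2 c3 => ap (rP (Z c1 c2 c3)) 0 v with hY
  have hp : KT.pS (KT.lam A) (KT.lam B) d t ≤ 2 ^ 215 := pS_le ok.l ok.k hd Bd
  have npos := nr_pos hv
  have corner : ∀ e1 e2 e3, nr (Y e1 e2 e3) ≤ (t.y : ℝ) ^ 2 * nr v ∧
      (KT.pS (KT.lam A) (KT.lam B) d t : ℝ) * nr v ≤ 2 ^ 62 * hev (lpf A B s) (Y e1 e2 e3) := by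
    intro e1 e2 e3
    obtain ⟨j, hj⟩ := cor_sound hc e1 e2 e3
    unfold KT.cnA at hj
    rw [andB_iff] at hj
    obtain ⟨f, c⟩ := hj
    have r := rq_of (hC e1 e2 e3)
    refine ⟨f9_vec he (r.mono (by norm_num)) f v, ?_⟩
    have GA := gf_rep (dec_rep A) r.r1 r.r2
    have GB := gf_rep (dec_rep B) r.r1 r.r2
    have BA := (gf_bd (b := 2 ^ 54) (c := 2 ^ 141) (dec_bd A) r.b1 r.b2 (by norm_num)).mono
      (c := 2 ^ 150) (by norm_num)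
    have BB := (gf_bd (b := 2 ^ 54) (c := 2 ^ 141) (dec_bd B) r.b1 r.b2 (by norm_num)).mono
      (c := 2 ^ 150) (by norm_num)
    have Q := chs_sound (x0 := xc) (Q := fun s => (KT.pS (KT.lam A) (KT.lam B) d t : ℝ) * nr v ≤
        2 ^ 62 * (hev (rH (gfz (decz A) (Z e1 e2 e3)).P) v +
          s * hev (rH (gfz (decz B) (Z e1 e2 e3)).P) v)) hX.ns ?_ ?_ t.c X.k hX.st c hX.lt s
        hx.s0 hx.s1
    · rw [hev_gP, hev_gP] at Q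
      rw [hev_lpf]
      exact Q
    · intro k0 k1 l hf
      rw [andB_iff] at hf
      exact Nat.le_of_ble_eq_true hf.1
    · rintro k0 k1 l ⟨u0, h0⟩ ⟨u1, h1⟩ hf s s0 s1
      rw [andB_iff, andB_iff] at hf
      exact chord_A h0 h1 (Nat.le_of_ble_eq_true hf.1) s0 s1 GA.P GB.P BA.P BB.P (srcN_rep K)
        (dec_bd K) hp (ml_lt _ _) (ml_lt _ _) hf.2.1 hf.2.2 hKv
  have E := box_endA (K := lpf A B s) (la := KT.lam A) (ka := KT.lam B) (d := d) (a := t.y)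
    (d1 := t.d1) (d2 := t.d2) (d3 := t.d3) (n := nr v) (Y := Y)
    (w := (2 ^ 48 : ℝ) • ap (TNm k g, z9) 0 v) i1 i2 i3 npos.le
    (ok.la s hx.cv.s0 hx.cv.s1)
    (fun a2 a3 => f9_dif he (hC _ _ _) (hC _ _ _) (DF.d1 a2 a3) v)
    (fun a1 a3 => f9_dif he (hC _ _ _) (hC _ _ _) (DF.d2 a1 a3) v)
    (fun a1 a2 => f9_dif he (hC _ _ _) (hC _ _ _) (DF.d3 a1 a2) v)
    (fun a1 a2 a3 => (corner a1 a2 a3).1)
    (by
      have := near_vec he hg v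
      rwa [ap_it3] at this)
    (ok.ka s hx.cv.s0 hx.cv.s1)
    (fun a1 a2 a3 => by
      have := (corner a1 a2 a3).2
      rw [pS_eq] at this
      push_cast at this
      refine le_trans (le_of_eq ?_) this
      ring)
  rw [hev_48] at E
  have E2 : (0 : ℝ) < (2 ^ 62 * 2 ^ 96) * hev (lpf A B s) (ap (TNm k g, z9) 0 v) := by
    have : (0 : ℝ) < 2 ^ 158 * nr v := by positivity
    linarith
  rw [ap_z9] at E2 ⊢
  exact (pos_iff_pos_of_mul_pos E2).1 (by positivity)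

end Pool.Agent.Helper6.CXT
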