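import Pool.Agent.Helper12.CX.FRS

/-!
Statement of the hand-in for one triple: right angles, and the exact orders.
-/

set_option autoImplicit false
noncomputable section
namespace Pool.Agent.Helper6.MONO

/-- `p = 2`: the triangle is rigid -/
theorem fin_at2 (q r : ℕ) : FinAt 2 q r := fun e e' he he' _ _ w =>
  g_TLW e e' he.unit he.indep he'.unit he'.indep
    ⟨1, fun u => by rw [one_mul]; exact (st_P2 q r e e' he he' u).le⟩ w

theorem ne333 {p q r : ℕ} (hy : (1 : ℝ) / p + 1 / q + 1 / r < 1) :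
    ¬ (p = 3 ∧ q = 3 ∧ r = 3) := by
  rintro ⟨rfl, rfl, rfl⟩
  norm_num at hy

/-- the statement for a set of triples from its certified part -/
theorem full_of {C : ℕ → ℕ → ℕ → Prop}
    (h : ∀ p q r : ℕ, 3 ≤ p → p ≤ q → q ≤ r → C p q r → ¬ (p = 3 ∧ q = 3 ∧ r = 3) →
      FinAt p q r) :
    ∀ p q r : ℕ, 2 ≤ p → p ≤ q → q ≤ r → (p = 2 ∨ C p q r) →
      (1 : ℝ) / p + 1 / q + 1 / r < 1 → FULLAt p q r := by
  intro p q r hp hpq hqr hc hy
  refine full_at hp hpq hqr hy ?_
  rcases Nat.lt_or_ge p 3 with h2 | h3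
  · obtain rfl : p = 2 := by omega
    exact fin_at2 q r
  · exact h p q r h3 hpq hqr (hc.resolve_left (by omega)) (ne333 hy)

end Pool.Agent.Helper6.MONO
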