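import Pool.Agent.Helper21.CT.XB

/-!
The threshold of type B for the classes `(13, 14, r)`, `r ≥ 16` (MP_c75db0).
-/

set_option autoImplicit false
set_option exponentiation.threshold 20000
noncomputable section
namespace Pool.Agent.Helper6.XBC

open Pool.Agent.Helper6.MONO Pool.Agent.Helper21.XB

/-! ### enclosures (the Chebyshev test of helper30, `Helper30/W2/Kq`) -/

/-- `(u_k, u_(k+1))`, `u_k = sin k φ / sin φ` at `2 cos φ = t / 2 ^ 48`, scaled -/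
def uV (t : ℤ) : ℕ → ℤ × ℤ
  | 0 => (0, 1)
  | k + 1 => ((uV t k).2, t * (uV t k).2 - 2 ^ 96 * (uV t k).1)

theorem uV_ok {t : ℤ} {φ : ℝ} (h : (t : ℝ) = 2 ^ 48 * (2 * Real.cos φ)) (k : ℕ) :
    ((uV t k).1 : ℝ) * Real.sin φ * 2 ^ 48 = 2 ^ (48 * k) * Real.sin (k * φ) ∧
    ((uV t k).2 : ℝ) * Real.sin φ = 2 ^ (48 * k) * Real.sin ((k + 1) * φ) := by
  induction k with
  | zero => simp [uV]
  | succ k ih =>
    obtain ⟨h1, h2⟩ := ih
    constructor
    · show ((uV t k).2 : ℝ) * Real.sin φ * 2 ^ 48 = _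
      rw [h2, mul_add, pow_add]
      push_cast
      ring
    · show ((t * (uV t k).2 - 2 ^ 96 * (uV t k).1 : ℤ) : ℝ) * Real.sin φ = _
      have e : Real.sin (((k + 1 : ℕ) + 1 : ℝ) * φ) =
          2 * Real.cos φ * Real.sin ((k + 1) * φ) - Real.sin (k * φ) := by
        push_cast
        have e1 : ((k : ℝ) + 1 + 1) * φ = (k + 1) * φ + φ := by ring
        have e2 : (k : ℝ) * φ = (k + 1) * φ - φ := by ring
        rw [e1, e2, Real.sin_add, Real.sin_sub]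
        ring
      rw [e, mul_add, pow_add]
      push_cast
      have h1' : (2 : ℝ) ^ 96 * ((uV t k).1 : ℝ) * Real.sin φ =
          2 ^ 48 * (2 ^ (48 * k) * Real.sin (k * φ)) := by
        rw [← h1]
        ring
      have h2' : (t : ℝ) * ((uV t k).2 : ℝ) * Real.sin φ =
          2 ^ 48 * (2 * Real.cos φ) * (2 ^ (48 * k) * Real.sin ((k + 1) * φ)) := by
        rw [← h2, h]
        ring
      linear_combination h2' - h1'

theorem uV_lt {t : ℤ} {N : ℕ} (hN : 1 ≤ N) (h0 : 0 < t) (h2 : t < 2 ^ 49)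
    (h : (uV t N).1 < 0) : (t : ℝ) / 2 ^ 48 ≤ Kp N := by
  have hN0 : (0 : ℝ) < N := by exact_mod_cast hN
  have h0' : (0 : ℝ) < t := by exact_mod_cast h0
  have h2' : (t : ℝ) < 2 ^ 49 := by exact_mod_cast h2
  set φ : ℝ := Real.arccos ((t : ℝ) / 2 ^ 49) with hφ
  have hc : Real.cos φ = (t : ℝ) / 2 ^ 49 := Real.cos_arccos
    (by have : (0 : ℝ) ≤ (t : ℝ) / 2 ^ 49 := by positivity
        linarith) (by rw [div_le_one (by positivity)]; exact h2'.le)
  have ht : (t : ℝ) = 2 ^ 48 * (2 * Real.cos φ) := by rw [hc]; ring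
  have hφ0 : 0 ≤ φ := Real.arccos_nonneg _
  have hφ1 : φ ≤ Real.pi := Real.arccos_le_pi _
  have hs : 0 ≤ Real.sin φ := Real.sin_nonneg_of_nonneg_of_le_pi hφ0 hφ1
  obtain ⟨k1, -⟩ := uV_ok ht N
  have h' : ((uV t N).1 : ℝ) < 0 := by exact_mod_cast h
  by_contra hk
  push Not at hk
  have h3 : Real.cos (Real.pi / N) ≤ Real.cos φ := by
    unfold Kp at hk
    rw [hc]
    have : (t : ℝ) / 2 ^ 48 = 2 * ((t : ℝ) / 2 ^ 49) := by ring
    linarith
  have h4 : φ ≤ Real.pi / N := by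
    by_contra h5
    push Not at h5
    have := Real.cos_lt_cos_of_nonneg_of_le_pi (by positivity) hφ1 h5
    linarith
  have h5 : (N : ℝ) * φ ≤ Real.pi := by
    rw [le_div_iff₀ hN0] at h4
    linarith
  have h6 : 0 ≤ Real.sin (N * φ) := Real.sin_nonneg_of_nonneg_of_le_pi (by positivity) h5
  have h7 : (0 : ℝ) ≤ 2 ^ (48 * N) * Real.sin (N * φ) := by positivity
  rcases hs.eq_or_lt with h8 | h8
  · have : φ = 0 ∨ φ = Real.pi := by
      by_contra hne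
      push Not at hne
      exact absurd h8 (Real.sin_pos_of_pos_of_lt_pi (lt_of_le_of_ne hφ0 (Ne.symm hne.1))
        (lt_of_le_of_ne hφ1 hne.2)).ne
    rcases this with h9 | h9
    · rw [h9, Real.cos_zero] at hc
      rw [eq_comm, div_eq_one_iff_eq (by positivity)] at hc
      linarith
    · rw [h9, Real.cos_pi] at hc
      have : (0 : ℝ) ≤ (t : ℝ) / 2 ^ 49 := by positivity
      linarith
  · have : ((uV t N).1 : ℝ) * Real.sin φ * 2 ^ 48 < 0 :=
      mul_neg_of_neg_of_pos (mul_neg_of_neg_of_pos h' h8) (by positivity)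
    linarith

theorem uV_gt {t : ℤ} {N : ℕ} (hN : 3 ≤ N) (h2 : t < 2 ^ 49)
    (hc' : (N * N : ℤ) * (2 ^ 49 - t) < 8 * 2 ^ 49) (h0 : 0 < t)
    (h : 0 < (uV t N).1) : Kp N ≤ (t : ℝ) / 2 ^ 48 := by
  have hN0 : (0 : ℝ) < N := by exact_mod_cast (show 0 < N by omega)
  have h0' : (0 : ℝ) < t := by exact_mod_cast h0
  have h2' : (t : ℝ) < 2 ^ 49 := by exact_mod_cast h2
  set φ : ℝ := Real.arccos ((t : ℝ) / 2 ^ 49) with hφ
  have hc : Real.cos φ = (t : ℝ) / 2 ^ 49 := Real.cos_arccos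
    (by have : (0 : ℝ) ≤ (t : ℝ) / 2 ^ 49 := by positivity
        linarith) (by rw [div_le_one (by positivity)]; exact h2'.le)
  have ht : (t : ℝ) = 2 ^ 48 * (2 * Real.cos φ) := by rw [hc]; ring
  have hφ0 : 0 ≤ φ := Real.arccos_nonneg _
  have hφ1 : φ ≤ Real.pi := Real.arccos_le_pi _
  have hs : 0 ≤ Real.sin φ := Real.sin_nonneg_of_nonneg_of_le_pi hφ0 hφ1
  obtain ⟨k1, -⟩ := uV_ok ht N
  have h' : (0 : ℝ) < ((uV t N).1 : ℝ) := by exact_mod_cast h
  have k2 : (0 : ℝ) ≤ 2 ^ (48 * N) * Real.sin (N * φ) := by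
    rw [← k1]
    positivity
  have k3 : 0 ≤ Real.sin (N * φ) := by
    rcases le_or_gt 0 (Real.sin (N * φ)) with h | h
    · exact h
    · have : (2 : ℝ) ^ (48 * N) * Real.sin (N * φ) < 0 := mul_neg_of_pos_of_neg (by positivity) h
      linarith
  -- the angle is less than `2 π / N`
  have k4 : Real.cos (2 * Real.pi / N) ≤ 1 - 8 / (N : ℝ) ^ 2 := by
    have h3 : (3 : ℝ) ≤ N := by exact_mod_cast hN
    have h4 : |2 * Real.pi / N| ≤ Real.pi := by
      rw [abs_of_nonneg (by positivity), div_le_iff₀ hN0]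
      nlinarith [Real.pi_pos]
    refine (Real.cos_le_one_sub_mul_cos_sq h4).trans ?_
    have : 2 / Real.pi ^ 2 * (2 * Real.pi / N) ^ 2 = 8 / (N : ℝ) ^ 2 := by
      have := Real.pi_pos.ne'
      field_simp
      ring
    rw [this]
  have k5 : 1 - 8 / (N : ℝ) ^ 2 < Real.cos φ := by
    rw [hc]
    have h6 : ((N : ℝ) * N) * (2 ^ 49 - t) < 8 * 2 ^ 49 := by exact_mod_cast hc'
    have h7 : (2 : ℝ) ^ 49 * (1 - 8 / (N : ℝ) ^ 2) < t := by
      have h8 : (N : ℝ) ^ 2 * (2 ^ 49 * (1 - 8 / (N : ℝ) ^ 2)) < (N : ℝ) ^ 2 * t := by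
        have : (N : ℝ) ^ 2 * (2 ^ 49 * (1 - 8 / (N : ℝ) ^ 2)) =
            2 ^ 49 * ((N : ℝ) ^ 2 - 8) := by
          field_simp
        rw [this]
        nlinarith
      exact lt_of_mul_lt_mul_left h8 (by positivity)
    rw [lt_div_iff₀ (by positivity)]
    linarith
  have k6 : φ < 2 * Real.pi / N := by
    by_contra hk
    push Not at hk
    have := Real.cos_le_cos_of_nonneg_of_le_pi (by positivity) hφ1 hk
    linarith
  have k7 : (N : ℝ) * φ < 2 * Real.pi := by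
    rw [lt_div_iff₀ hN0] at k6
    linarith
  have k8 : (N : ℝ) * φ ≤ Real.pi := by
    by_contra hk
    push Not at hk
    have h9 : Real.sin (N * φ) = - Real.sin (N * φ - Real.pi) := by
      rw [Real.sin_sub_pi, neg_neg]
    have h10 := Real.sin_pos_of_pos_of_lt_pi (x := N * φ - Real.pi) (by linarith) (by linarith)
    linarith
  have k9 : φ ≤ Real.pi / N := by
    rw [le_div_iff₀ hN0]
    linarith
  have k10 := Real.cos_le_cos_of_nonneg_of_le_pi hφ0 (x := φ) (y := Real.pi / N)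
    (by rw [div_le_iff₀ hN0]
        have h3 : (3 : ℝ) ≤ N := by exact_mod_cast hN
        nlinarith [Real.pi_pos]) k9
  unfold Kp
  rw [hc] at k10
  have : (t : ℝ) / 2 ^ 48 = 2 * ((t : ℝ) / 2 ^ 49) := by ring
  linarith


/-- THE TEST: `t` is `2 ^ 48 κ_N` to `1` -/
def kpT (N t : ℕ) : Bool :=
  decide (3 ≤ N) && decide (1 < t) && decide (t + 1 < 2 ^ 49) &&
  decide ((N * N : ℤ) * (2 ^ 49 - (t + 1)) < 8 * 2 ^ 49) &&
  decide ((uV ((t : ℤ) - 1) N).1 < 0) &&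
  decide (0 < (uV ((t : ℤ) + 1) N).1)

theorem kpT_ok {N t : ℕ} (h : kpT N t = true) : |2 ^ 48 * Kp N - t| ≤ 1 := by
  unfold kpT at h
  simp only [Bool.and_eq_true, decide_eq_true_eq] at h
  obtain ⟨⟨⟨⟨⟨h1, h2⟩, h3⟩, h4⟩, h5⟩, h6⟩ := h
  have g1 := uV_lt (t := (t : ℤ) - 1) (N := N) (by omega) (by omega)
    (by omega) h5
  have g2 := uV_gt (t := (t : ℤ) + 1) (N := N) h1 (by omega)
    (by push_cast; exact_mod_cast h4) (by omega) h6
  push_cast at g1 g2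
  rw [div_le_iff₀ (by positivity)] at g1
  rw [le_div_iff₀ (by positivity)] at g2
  rw [abs_le]
  constructor <;> linarith

theorem kp13 : |2 ^ 48 * Kp 13 - (546591650894800 : ℕ)| ≤ 1 := kpT_ok (by decide +kernel)
theorem kp14 : |2 ^ 48 * Kp 14 - (548835622751895 : ℕ)| ≤ 1 := kpT_ok (by decide +kernel)
theorem kp16 : |2 ^ 48 * Kp 16 - (552133027919307 : ℕ)| ≤ 1 := kpT_ok (by decide +kernel)

theorem sq_enc {x : ℝ} {n : ℕ} (h : |2 ^ 48 * x - (n : ℕ)| ≤ 1) {l u : ℝ} (hl : 0 ≤ l)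
    (h1 : l * 2 ^ 48 ≤ n - 1) (h2 : (n + 1 : ℝ) ≤ u * 2 ^ 48) : l ≤ x ∧ x ≤ u := by
  obtain ⟨a, b⟩ := abs_le.1 h
  constructor
  · have : l * 2 ^ 48 ≤ x * 2 ^ 48 := by linarith
    exact le_of_mul_le_mul_right this (by positivity)
  · have : x * 2 ^ 48 ≤ u * 2 ^ 48 := by linarith
    exact le_of_mul_le_mul_right this (by positivity)

theorem kp13_b : (19418836 / 10 ^ 7 : ℝ) ≤ Kp 13 ∧ Kp 13 ≤ (19418837 / 10 ^ 7 : ℝ) :=
  sq_enc kp13 (by norm_num) (by norm_num) (by norm_num)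
theorem kp14_b : (19498558 / 10 ^ 7 : ℝ) ≤ Kp 14 ∧ Kp 14 ≤ (19498559 / 10 ^ 7 : ℝ) :=
  sq_enc kp14 (by norm_num) (by norm_num) (by norm_num)
theorem kp16_b : (19615705 / 10 ^ 7 : ℝ) ≤ Kp 16 ∧ Kp 16 ≤ (19615706 / 10 ^ 7 : ℝ) :=
  sq_enc kp16 (by norm_num) (by norm_num) (by norm_num)

/-! ### the class -/

/-- weights of the orders `13`, `14` and at least `16` -/
structure T13 (a b c : ℝ) : Prop where
  a0 : 0 < a
  b0 : 0 < b
  c0 : 0 < c
  e1 : a ^ 2 ≤ 4 - 229 / 1000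
  e2 : 4 - 2291 / 10000 ≤ a ^ 2
  f1 : b ^ 2 ≤ 4 - 198 / 1000
  f2 : 4 - 1981 / 10000 ≤ b ^ 2
  g1 : c ^ 2 ≤ 4
  g2 : 4 - 153 / 1000 ≤ c ^ 2

theorem T13_Kp {r : ℕ} (hr : 16 ≤ r) : T13 (Kp 13) (Kp 14) (Kp r) := by
  obtain ⟨a1, a2⟩ := kp13_b
  obtain ⟨b1, b2⟩ := kp14_b
  obtain ⟨c1, -⟩ := kp16_b
  have c2 := Kp_mono (M := 16) (by norm_num) hr
  have c3 := (thr_Kp2 r (by omega)).2
  refine ⟨by linarith, by linarith, by linarith, ?_, ?_, ?_, ?_, by nlinarith, ?_⟩ <;> nlinarith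

variable {a b c : ℝ}

theorem T13.S (h : T13 a b c) : 42 / 5 ≤ SS a b c := by
  have := h.e2
  have := h.f2
  have := h.g2
  unfold SS
  linarith

theorem T13.K (h : T13 a b c) : 0 < KK a b c := mul_pos (mul_pos h.a0 h.b0) h.c0

/-- the signs of the cubic polynomial -/
theorem hB_signs {e f g : ℝ} (e1 : 229 / 1000 ≤ e) (e2 : e ≤ 2291 / 10000)
    (f1 : 198 / 1000 ≤ f) (f2 : f ≤ 1981 / 10000) (g1 : 0 ≤ g) (g2 : g ≤ 153 / 1000) :
    (16 * (-(31 / 100) : ℝ) ^ 3 + 4 * (9 - (e + f + g)) * (-(31 / 100)) ^ 2 +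
      (24 - 4 * (e + f + g)) * (-(31 / 100)) + 4 + e ^ 2 + f ^ 2 + g ^ 2 -
      2 * (e * f + f * g + g * e) + e * f * g ≤ 0) ∧
    (0 ≤ 16 * (-(294 / 1000) : ℝ) ^ 3 + 4 * (9 - (e + f + g)) * (-(294 / 1000)) ^ 2 +
      (24 - 4 * (e + f + g)) * (-(294 / 1000)) + 4 + e ^ 2 + f ^ 2 + g ^ 2 -
      2 * (e * f + f * g + g * e) + e * f * g) := by
  have p1 := mul_nonneg (sub_nonneg.2 e1) (sub_nonneg.2 f1)
  have p2 := mul_nonneg (sub_nonneg.2 e2) (sub_nonneg.2 f2)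
  have p3 := mul_nonneg (sub_nonneg.2 e1) g1
  have p4 := mul_nonneg (sub_nonneg.2 e2) g1
  have p5 := mul_nonneg (sub_nonneg.2 f1) g1
  have p6 := mul_nonneg (sub_nonneg.2 f2) g1
  have p7 := mul_nonneg g1 (sub_nonneg.2 g2)
  have p8 := mul_nonneg (sub_nonneg.2 e1) (sub_nonneg.2 e2)
  have p9 := mul_nonneg (sub_nonneg.2 f1) (sub_nonneg.2 f2)
  have q1 : e * f * g ≤ 2291 / 10000 * (1981 / 10000) * g := by
    have : e * f ≤ 2291 / 10000 * (1981 / 10000) :=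
      mul_le_mul e2 f2 (by linarith) (by norm_num)
    exact mul_le_mul_of_nonneg_right this g1
  have q2 : 229 / 1000 * (198 / 1000) * g ≤ e * f * g := by
    have : 229 / 1000 * (198 / 1000) ≤ e * f :=
      mul_le_mul e1 f1 (by norm_num) (by linarith)
    exact mul_le_mul_of_nonneg_right this g1
  have q3 : 0 ≤ g ^ 2 := sq_nonneg g
  have q4 : e * f ≤ 2291 / 10000 * (1981 / 10000) := mul_le_mul e2 f2 (by linarith) (by norm_num)
  constructor <;> nlinarith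

/-- the root -/
theorem T13.spec (h : T13 a b c) :
    -(31 / 100) ≤ cBr (SS a b c) (KK a b c) ∧ cBr (SS a b c) (KK a b c) ≤ -(294 / 1000) ∧
      hB (SS a b c) (KK a b c) (cBr (SS a b c) (KK a b c)) = 0 := by
  have hs := h.S
  obtain ⟨h1, h0⟩ := hB_signs (e := 4 - a ^ 2) (f := 4 - b ^ 2) (g := 4 - c ^ 2)
    (by linarith [h.e1]) (by linarith [h.e2]) (by linarith [h.f1]) (by linarith [h.f2])
    (by linarith [h.g1]) (by linarith [h.g2])
  rw [← hB_e (a := a) (b := b) (c := c) (by ring) (by ring) (by ring)] at h1 h0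
  have hcont : ContinuousOn (hB (SS a b c) (KK a b c)) (Set.Icc (-(31 / 100)) (-(294 / 1000))) := by
    unfold hB
    fun_prop
  obtain ⟨x, hx, h2⟩ := intermediate_value_Icc (by norm_num) hcont ⟨h1, h0⟩
  rw [cBr_eq (by linarith) (by linarith [hx.1]) h2]
  exact ⟨hx.1, hx.2, h2⟩

theorem T13.KX (h : T13 a b c) : KK a b c * xBr a b c =
    2 * (1 - 2 * cBr (SS a b c) (KK a b c) - 2 * cBr (SS a b c) (KK a b c) ^ 2 - SS a b c) := by
  have := h.K.ne'
  unfold xBr xBc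
  field_simp

/-- the number `- 4 c (1 + c)` -/
theorem T13.c4 (h : T13 a b c) : 83 / 100 ≤
    -(4 * cBr (SS a b c) (KK a b c) * (1 + cBr (SS a b c) (KK a b c))) := by
  obtain ⟨h1, h2, -⟩ := h.spec
  nlinarith

theorem T13.A1 (h : T13 a b c) : (4 - c ^ 2 - a ^ 2 * b ^ 2) / (a * b * c) ≤ xBr a b c := by
  have h1 := h.c4
  have h2 := h.KX
  have e : a * b * c = KK a b c := rfl
  rw [e, div_le_iff₀ h.K, mul_comm (xBr a b c) _, h2]
  have := h.e1
  have := h.e2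
  have := h.f1
  have := h.f2
  have := h.g1
  have := h.g2
  unfold SS at h1 ⊢
  nlinarith

theorem T13.A2 (h : T13 a b c) : (4 - a ^ 2 - b ^ 2 * c ^ 2) / (b * c * a) ≤ xBr a b c := by
  have h1 := h.c4
  have h2 := h.KX
  have e : b * c * a = KK a b c := by unfold KK; ring
  rw [e, div_le_iff₀ h.K, mul_comm (xBr a b c) _, h2]
  have := h.e1
  have := h.e2
  have := h.f1
  have := h.f2
  have := h.g1
  have := h.g2
  unfold SS at h1 ⊢
  nlinarith

theorem T13.A3 (h : T13 a b c) : (4 - b ^ 2 - c ^ 2 * a ^ 2) / (c * a * b) ≤ xBr a b c := by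
  have h1 := h.c4
  have h2 := h.KX
  have e : c * a * b = KK a b c := by unfold KK; ring
  rw [e, div_le_iff₀ h.K, mul_comm (xBr a b c) _, h2]
  have := h.e1
  have := h.e2
  have := h.f1
  have := h.f2
  have := h.g1
  have := h.g2
  unfold SS at h1 ⊢
  nlinarith

theorem T13.SK (h : T13 a b c) : SS a b c - KK a b c < 5 / 4 := by
  have hK := h.K
  have e1 := h.e1
  have e2 := h.e2
  have f1 := h.f1
  have f2 := h.f2
  have g1 := h.g1
  have g2 := h.g2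
  by_contra hcon
  push Not at hcon
  have k1 : KK a b c ≤ SS a b c - 5 / 4 := by linarith
  have k2 : KK a b c ^ 2 ≤ (SS a b c - 5 / 4) ^ 2 := pow_le_pow_left₀ hK.le k1 2
  have k3 : SS a b c - 5 / 4 ≤ c ^ 2 + 333 / 100 := by
    unfold SS
    linarith
  have k4 : KK a b c ^ 2 = a ^ 2 * b ^ 2 * c ^ 2 := by
    unfold KK
    ring
  have k5 : (3770 / 1000 : ℝ) * (3801 / 1000) ≤ a ^ 2 * b ^ 2 :=
    mul_le_mul (by linarith) (by linarith) (by norm_num) (by positivity)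
  have k6 : (3770 / 1000 : ℝ) * (3801 / 1000) * c ^ 2 ≤ a ^ 2 * b ^ 2 * c ^ 2 :=
    mul_le_mul_of_nonneg_right k5 (by positivity)
  have k7 : (SS a b c - 5 / 4) ^ 2 ≤ (c ^ 2 + 333 / 100) ^ 2 :=
    pow_le_pow_left₀ (by linarith) k3 2
  nlinarith

theorem T13.gt (h : T13 a b c) : -2 < xBr a b c := by
  have hK := h.K
  have h2 := h.KX
  have h3 := h.SK
  obtain ⟨g1, g2, -⟩ := h.spec
  set y := cBr (SS a b c) (KK a b c) with hy
  have h5 : 5 / 4 ≤ 1 - 2 * y - 2 * y ^ 2 := by nlinarith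
  by_contra hcon
  push Not at hcon
  have := mul_le_mul_of_nonneg_left hcon hK.le
  linarith

theorem T13.le2 (h : T13 a b c) : xBr a b c ≤ 2 := by
  have hK := h.K
  have hS := h.S
  have h2 := h.KX
  obtain ⟨g1, g2, -⟩ := h.spec
  by_contra hcon
  push Not at hcon
  have := mul_lt_mul_of_pos_left hcon hK
  nlinarith

/-! ### the orders -/

theorem fB_13 {r : ℕ} (hr : 16 ≤ r) : fB 13 14 r (xBp 13 14 r) = 0 := by
  have h := T13_Kp hr
  rw [fB_eq]
  exact fBx_root h.K.ne' h.spec.2.2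

/-- THE CONDITIONS AT THE THRESHOLD -/
theorem thr_13 {r : ℕ} (hr : 16 ≤ r) : Thr 13 14 r (xBp 13 14 r) := by
  have h := T13_Kp hr
  exact ⟨h.gt, h.le2, by rw [xA_eq]; exact h.A1, by rw [xA_eq]; exact h.A2,
    by rw [xA_eq]; exact h.A3, (fB_13 hr).ge, Or.inr (Or.inr (Or.inr (fB_13 hr)))⟩

/-- zero freeness down to `x_B` is the certificate -/
theorem cert_13 {r : ℕ} (hr : 16 ≤ r) (hZ : ZF 13 14 r (xBp 13 14 r)) : CertAt 13 14 r := by
  have h := T13_Kp hr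
  have hS := h.S
  obtain ⟨g1, g2, g3⟩ := h.spec
  have h2 := h.le2
  refine ⟨xBp 13 14 r, h.gt, fun x1 hx1 => ?_, hZ⟩
  obtain ⟨x, k1, k2, k3⟩ := fBx_neg h.K g3 (by linarith) (by linarith) hx1
  exact ⟨x, k1, k2.le, k2.le.trans h2, Or.inr (by rw [fB_eq]; exact k3)⟩

end Pool.Agent.Helper6.XBC
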