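import Pool.Agent.Helper6.CXT.XB13

/-!
The threshold of type B for the classes `(13, 14, r)`, `r ≥ 16`: comparison with a quadratic
polynomial of the weight on a box (Bernstein controls, one integer test).
-/

set_option autoImplicit false
set_option exponentiation.threshold 20000
noncomputable section
namespace Pool.Agent.Helper6.XBC

open Pool.Agent.Helper6.MONO Pool.Agent.Helper21.XB

/-! ### homogeneous polynomials -/

/-- the polynomial `∑ cᵢ u ^ (N - i) v ^ i` -/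
def hm : List ℤ → ℝ → ℝ → ℝ
  | [], _, _ => 0
  | c :: l, u, v => c * u ^ l.length + v * hm l u v

/-- sum -/
def ad : List ℤ → List ℤ → List ℤ
  | c :: l, d :: m => (c + d) :: ad l m
  | _, _ => []

/-- multiple -/
def sm (a : ℤ) (l : List ℤ) : List ℤ := l.map fun c => a * c

/-- product -/
def ml : List ℤ → List ℤ → List ℤ
  | [], m => List.replicate (m.length - 1) 0
  | c :: l, m => ad (sm c m ++ List.replicate l.length 0) (0 :: ml l m)

theorem ad_length : ∀ {l m : List ℤ}, l.length = m.length → (ad l m).length = l.length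
  | [], [], _ => rfl
  | _ :: l, _ :: m, h => by
    show (ad l m).length + 1 = l.length + 1
    rw [ad_length (by simpa using h)]

theorem sm_length (a : ℤ) (l : List ℤ) : (sm a l).length = l.length := by
  unfold sm
  rw [List.length_map]

theorem hm_ad : ∀ {l m : List ℤ} (u v : ℝ), l.length = m.length →
    hm (ad l m) u v = hm l u v + hm m u v
  | [], [], _, _, _ => by simp [hm, ad]
  | c :: l, d :: m, u, v, h => by
    have h' : l.length = m.length := by simpa using h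
    show ((c + d : ℤ) : ℝ) * u ^ (ad l m).length + v * hm (ad l m) u v =
      (c * u ^ l.length + v * hm l u v) + (d * u ^ m.length + v * hm m u v)
    rw [hm_ad u v h', ad_length h', h']
    push_cast
    ring

theorem hm_sm (a : ℤ) (u v : ℝ) : ∀ l : List ℤ, hm (sm a l) u v = a * hm l u v
  | [] => by simp [hm, sm]
  | c :: l => by
    show ((a * c : ℤ) : ℝ) * u ^ (sm a l).length + v * hm (sm a l) u v =
      a * (c * u ^ l.length + v * hm l u v)
    rw [hm_sm a u v l, sm_length]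
    push_cast
    ring

theorem hm_rep (u v : ℝ) : ∀ k : ℕ, hm (List.replicate k 0) u v = 0
  | 0 => rfl
  | k + 1 => by
    show ((0 : ℤ) : ℝ) * _ + v * hm (List.replicate k 0) u v = 0
    rw [hm_rep u v k]
    simp

theorem hm_app (u v : ℝ) (k : ℕ) : ∀ l : List ℤ,
    hm (l ++ List.replicate k 0) u v = u ^ k * hm l u v
  | [] => by
    show hm (List.replicate k 0) u v = _
    rw [hm_rep]
    simp [hm]
  | c :: l => by
    show (c : ℝ) * u ^ (l ++ List.replicate k 0).length + v * hm (l ++ List.replicate k 0) u v =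
      u ^ k * (c * u ^ l.length + v * hm l u v)
    rw [hm_app u v k l, List.length_append, List.length_replicate, pow_add]
    ring

theorem ml_length {m : List ℤ} (hm0 : 1 ≤ m.length) : ∀ l : List ℤ,
    (ml l m).length + 1 = l.length + m.length
  | [] => by
    show (List.replicate (m.length - 1) (0 : ℤ)).length + 1 = 0 + m.length
    rw [List.length_replicate]
    omega
  | c :: l => by
    have ih := ml_length hm0 l
    show (ad (sm c m ++ List.replicate l.length 0) (0 :: ml l m)).length + 1 = _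
    rw [ad_length]
    · rw [List.length_append, sm_length, List.length_replicate, List.length_cons]
      omega
    · rw [List.length_append, sm_length, List.length_replicate, List.length_cons]
      omega

theorem hm_ml {m : List ℤ} (hm0 : 1 ≤ m.length) (u v : ℝ) : ∀ l : List ℤ,
    hm (ml l m) u v = hm l u v * hm m u v
  | [] => by
    show hm (List.replicate (m.length - 1) 0) u v = 0 * _
    rw [hm_rep, zero_mul]
  | c :: l => by
    have hl := ml_length hm0 l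
    show hm (ad (sm c m ++ List.replicate l.length 0) (0 :: ml l m)) u v =
      (c * u ^ l.length + v * hm l u v) * hm m u v
    rw [hm_ad, hm_app, hm_sm]
    · show _ + (((0 : ℤ) : ℝ) * _ + v * hm (ml l m) u v) = _
      rw [hm_ml hm0 u v l]
      push_cast
      ring
    · rw [List.length_append, sm_length, List.length_replicate, List.length_cons]
      omega

/-- raise the degree -/
def up : ℕ → List ℤ → List ℤ
  | 0, l => l
  | k + 1, l => ml (up k l) [1, 1]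

theorem hm_11 {u v : ℝ} (h : u + v = 1) : hm [1, 1] u v = 1 := by
  show ((1 : ℤ) : ℝ) * u ^ 1 + v * (((1 : ℤ) : ℝ) * u ^ 0 + v * 0) = 1
  push_cast
  linarith

theorem hm_up {u v : ℝ} (h : u + v = 1) (l : List ℤ) : ∀ k : ℕ, hm (up k l) u v = hm l u v
  | 0 => rfl
  | k + 1 => by
    show hm (ml (up k l) [1, 1]) u v = _
    rw [hm_ml (by simp), hm_up h l k, hm_11 h, mul_one]

/-- the test of the controls -/
def bdd (M : ℤ) : List ℤ → List ℤ → Bool
  | [], [] => true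
  | c :: l, b :: m => decide (c ≤ M * b) && decide (-c ≤ M * b) && bdd M l m
  | _, _ => false

theorem bdd_ok {M : ℤ} {u v : ℝ} (hu : 0 ≤ u) (hv : 0 ≤ v) : ∀ {l m : List ℤ},
    bdd M l m = true → l.length = m.length ∧ |hm l u v| ≤ M * hm m u v
  | [], [], _ => by simp [hm]
  | c :: l, b :: m, h => by
    unfold bdd at h
    simp only [Bool.and_eq_true, decide_eq_true_eq] at h
    obtain ⟨⟨h1, h2⟩, h3⟩ := h
    obtain ⟨e, k⟩ := bdd_ok hu hv h3
    refine ⟨by simp [e], ?_⟩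
    have h1' : (c : ℝ) ≤ M * b := by exact_mod_cast h1
    have h2' : -(c : ℝ) ≤ M * b := by exact_mod_cast h2
    show |(c : ℝ) * u ^ l.length + v * hm l u v| ≤ M * (b * u ^ m.length + v * hm m u v)
    rw [e]
    have hp : 0 ≤ u ^ m.length := by positivity
    have hc : |(c : ℝ)| ≤ M * b := abs_le.2 ⟨by linarith, h1'⟩
    calc |(c : ℝ) * u ^ m.length + v * hm l u v|
        ≤ |(c : ℝ) * u ^ m.length| + |v * hm l u v| := abs_add_le _ _
      _ = |(c : ℝ)| * u ^ m.length + v * |hm l u v| := by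
          rw [abs_mul, abs_mul, abs_of_nonneg hp, abs_of_nonneg hv]
      _ ≤ M * b * u ^ m.length + v * (M * hm m u v) :=
          add_le_add (mul_le_mul_of_nonneg_right hc hp) (mul_le_mul_of_nonneg_left k hv)
      _ = _ := by ring

theorem bdd_le {M : ℤ} {u v : ℝ} (hu : 0 ≤ u) (hv : 0 ≤ v) (h : u + v = 1) {l : List ℤ} {k : ℕ}
    (hb : bdd M l (up k [1]) = true) : |hm l u v| ≤ M := by
  have h1 := (bdd_ok hu hv hb).2
  rw [hm_up h] at h1
  have : hm [1] u v = 1 := by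
    show ((1 : ℤ) : ℝ) * u ^ 0 + v * 0 = 1
    simp
  rwa [this, mul_one] at h1

/-! ### the comparison over the reals -/

variable {a b c : ℝ}

theorem T13.K_ge (h : T13 a b c) : 37 / 5 ≤ KK a b c := by
  have e2 := h.e2
  have f2 := h.f2
  have g2 := h.g2
  have k4 : KK a b c ^ 2 = a ^ 2 * b ^ 2 * c ^ 2 := by
    unfold KK
    ring
  have k5 : (3770 / 1000 : ℝ) * (3801 / 1000) ≤ a ^ 2 * b ^ 2 :=
    mul_le_mul (by linarith) (by linarith) (by norm_num) (by positivity)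
  have k6 : (3770 / 1000 : ℝ) * (3801 / 1000) * (3846 / 1000) ≤ a ^ 2 * b ^ 2 * c ^ 2 :=
    mul_le_mul k5 (by linarith) (by norm_num) (by positivity)
  have hK := h.K
  by_contra hc
  push Not at hc
  nlinarith

theorem core (h : T13 a b c) {x q ρ η : ℝ} (hx : -(31 / 100) ≤ x - ρ) (h0 : 0 ≤ ρ)
    (h9 : ρ ≤ 1 / 100) (h1 : |hB (SS a b c) (KK a b c) x| ≤ 5 * ρ)
    (h2 : |2 * (1 - 2 * x - 2 * x ^ 2 - SS a b c) - KK a b c * q| ≤ η) :
    37 / 5 * |xBr a b c - q| ≤ η + 2 * ρ := by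
  obtain ⟨k1, -⟩ := cBr_approx h.S h0 hx h1
  obtain ⟨s1, s2, -⟩ := h.spec
  have hKX := h.KX
  have hK := h.K
  set y := cBr (SS a b c) (KK a b c) with hy
  have e : KK a b c * (xBr a b c - q) =
      (2 * (1 - 2 * x - 2 * x ^ 2 - SS a b c) - KK a b c * q) - 4 * ((y - x) * (1 + y + x)) := by
    rw [mul_sub, hKX]
    ring
  obtain ⟨j1, j2⟩ := abs_le.1 k1
  have k2 : |(y - x) * (1 + y + x)| ≤ ρ * (1 / 2) := by
    rw [abs_mul]
    refine mul_le_mul k1 ?_ (abs_nonneg _) h0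
    rw [abs_le]
    constructor <;> linarith
  have k3 : |KK a b c * (xBr a b c - q)| ≤ η + 2 * ρ := by
    rw [e]
    refine (abs_sub _ _).trans ?_
    rw [abs_mul 4, abs_of_pos (by norm_num : (0 : ℝ) < 4)]
    linarith
  rw [abs_mul, abs_of_pos hK] at k3
  exact (mul_le_mul_of_nonneg_right h.K_ge (abs_nonneg _)).trans k3

/-! ### the test -/

/-- `2 ^ 48 κ` at the orders `13` and `14` -/
def ta : ℤ := 546591650894800
def tb : ℤ := 548835622751895
/-- the unit -/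
def TT : ℤ := 2 ^ 48

/-- `2 ^ 96 S` -/
def Sl (lo hi : ℤ) : List ℤ :=
  ad (sm (ta ^ 2 + tb ^ 2 - 3 * TT ^ 2) [1, 2, 1]) (ml [lo, hi] [lo, hi])

/-- `2 ^ 288 h_B` -/
def Hl (lo hi : ℤ) (A : List ℤ) : List ℤ :=
  ad (sm (16 * TT ^ 3) (ml A (ml A A)))
  (ad (up 1 (sm (4 * TT ^ 2) (ml (Sl lo hi) (ml A A))))
  (ad (up 4 (sm (4 * TT ^ 3) (ml (ad (Sl lo hi) (sm (-(3 * TT ^ 2)) [1, 2, 1])) A)))
  (ad (up 7 (sm (-(ta ^ 2 * tb ^ 2)) (ml [lo, hi] [lo, hi])))
  (ad (up 5 (sm (TT ^ 2) (ml (Sl lo hi) (Sl lo hi))))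
  (ad (up 7 (sm (-(2 * TT ^ 4)) (Sl lo hi)))
    (up 9 [5 * TT ^ 6]))))))

/-- `2 ^ 192 (2 (1 - 2 x - 2 x² - S) - K q)` -/
def Pl (lo hi : ℤ) (A Q : List ℤ) : List ℤ :=
  ad (up 6 [2 * TT ^ 4])
  (ad (up 3 (sm (-(4 * TT ^ 3)) A))
  (ad (sm (-(4 * TT ^ 2)) (ml A A))
  (ad (up 4 (sm (-(2 * TT ^ 2)) (Sl lo hi)))
    (up 3 (sm (-(ta * tb)) (ml [lo, hi] Q))))))

/-- THE TEST: `A` cubic (`2 ^ 48 c`), `Q = [XA, 2 XB, XC]`, `R` the radius of `c`, `n` of the
line -/
def tst (lo hi : ℤ) (A : List ℤ) (XA XB XC : ℤ) (R n : ℤ) : Bool :=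
  decide (A.length = 4) && decide (lo < hi) && decide (hi ≤ 2 * TT) && decide (0 ≤ R) &&
  decide (100 * R ≤ TT) && decide (0 ≤ lo) &&
  bdd (5 * R * TT ^ 5 - 2 ^ 60 * TT ^ 4) (Hl lo hi A) (up 9 [1]) &&
  bdd (TT) (ad (sm 100 A) (up 3 [31 * TT - 100 * R - TT])) (up 3 [1]) &&
  bdd (7 * n * TT ^ 3 - 2 * R * TT ^ 3 - 2 ^ 60 * TT ^ 2) (Pl lo hi A [XA, 2 * XB, XC])
    (up 6 [1]) && bdd (2 * TT) [XA, 2 * XB, XC] (up 2 [1])


/-! ### lengths and values -/

theorem len_ml (l : List ℤ) {m : List ℤ} (h : 1 ≤ m.length) :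
    (ml l m).length = l.length + m.length - 1 := by
  have := ml_length h l
  omega

theorem len_up (l : List ℤ) : ∀ k : ℕ, (up k l).length = l.length + k
  | 0 => rfl
  | k + 1 => by
    show (ml (up k l) [1, 1]).length = _
    rw [len_ml _ (by simp), len_up l k]
    simp only [List.length_cons, List.length_nil]
    omega

theorem hm_121 {u v : ℝ} (h : u + v = 1) : hm [1, 2, 1] u v = 1 := by
  show ((1 : ℤ) : ℝ) * u ^ 2 + v * (((2 : ℤ) : ℝ) * u ^ 1 + v * (((1 : ℤ) : ℝ) * u ^ 0 + v * 0)) = 1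
  push_cast
  have : (u + v) ^ 2 = 1 := by rw [h]; norm_num
  linarith

theorem hm_one {u v : ℝ} (c : ℤ) : hm [c] u v = c := by
  show (c : ℝ) * u ^ 0 + v * 0 = c
  simp

theorem len_Sl (lo hi : ℤ) : (Sl lo hi).length = 3 := by
  unfold Sl
  rw [ad_length]
  · rw [sm_length]
    rfl
  · rw [sm_length, len_ml _ (by simp)]
    rfl

theorem hm_Sl {u v : ℝ} (h : u + v = 1) (lo hi : ℤ) :
    hm (Sl lo hi) u v = (ta : ℝ) ^ 2 + (tb : ℝ) ^ 2 - 3 * (TT : ℝ) ^ 2 + hm [lo, hi] u v ^ 2 := by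
  unfold Sl
  rw [hm_ad, hm_sm, hm_121 h, hm_ml (by simp)]
  · push_cast
    ring
  · rw [sm_length, len_ml _ (by simp)]
    rfl

theorem hm_Hl {u v : ℝ} (h : u + v = 1) (lo hi : ℤ) {A : List ℤ} (hA : A.length = 4) :
    hm (Hl lo hi A) u v = 16 * (TT : ℝ) ^ 3 * hm A u v ^ 3 +
      4 * (TT : ℝ) ^ 2 * hm (Sl lo hi) u v * hm A u v ^ 2 +
      4 * (TT : ℝ) ^ 3 * (hm (Sl lo hi) u v - 3 * (TT : ℝ) ^ 2) * hm A u v -
      (ta : ℝ) ^ 2 * (tb : ℝ) ^ 2 * hm [lo, hi] u v ^ 2 +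
      (TT : ℝ) ^ 2 * hm (Sl lo hi) u v ^ 2 - 2 * (TT : ℝ) ^ 4 * hm (Sl lo hi) u v +
      5 * (TT : ℝ) ^ 6 := by
  have hA1 : 1 ≤ A.length := by omega
  have hS := len_Sl lo hi
  have hS1 : 1 ≤ (Sl lo hi).length := by omega
  have hAA : (ml A A).length = 7 := by
    rw [len_ml _ hA1]
    omega
  have hAA1 : 1 ≤ (ml A A).length := by omega
  have hK : (ml [lo, hi] [lo, hi]).length = 3 := by
    rw [len_ml _ (by simp)]
    rfl
  have l1 : (sm (16 * TT ^ 3) (ml A (ml A A))).length = 10 := by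
    rw [sm_length, len_ml _ hAA1]
    omega
  have l2 : (up 1 (sm (4 * TT ^ 2) (ml (Sl lo hi) (ml A A)))).length = 10 := by
    rw [len_up, sm_length, len_ml _ hAA1]
    omega
  have l30 : (ad (Sl lo hi) (sm (-(3 * TT ^ 2)) [1, 2, 1])).length = 3 := by
    rw [ad_length, hS]
    rw [sm_length]
    exact hS
  have l3 : (up 4 (sm (4 * TT ^ 3) (ml (ad (Sl lo hi) (sm (-(3 * TT ^ 2)) [1, 2, 1])) A))).length =
      10 := by
    rw [len_up, sm_length, len_ml _ hA1, l30]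
    omega
  have l4 : (up 7 (sm (-(ta ^ 2 * tb ^ 2)) (ml [lo, hi] [lo, hi]))).length = 10 := by
    rw [len_up, sm_length, hK]
  have l5 : (up 5 (sm (TT ^ 2) (ml (Sl lo hi) (Sl lo hi)))).length = 10 := by
    rw [len_up, sm_length, len_ml _ hS1]
    omega
  have l6 : (up 7 (sm (-(2 * TT ^ 4)) (Sl lo hi))).length = 10 := by
    rw [len_up, sm_length, hS]
  have l7 : (up 9 [5 * TT ^ 6]).length = 10 := by
    rw [len_up]
    rfl
  have m6 := ad_length (l6.trans l7.symm)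
  have m5 := ad_length (l5.trans (m6.trans l6).symm)
  have m4 := ad_length (l4.trans (m5.trans l5).symm)
  have m3 := ad_length (l3.trans (m4.trans l4).symm)
  have m2 := ad_length (l2.trans (m3.trans l3).symm)
  unfold Hl
  rw [hm_ad u v (l1.trans (m2.trans l2).symm), hm_ad u v (l2.trans (m3.trans l3).symm),
    hm_ad u v (l3.trans (m4.trans l4).symm), hm_ad u v (l4.trans (m5.trans l5).symm),
    hm_ad u v (l5.trans (m6.trans l6).symm), hm_ad u v (l6.trans l7.symm),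
    hm_up h, hm_up h, hm_up h, hm_up h, hm_up h, hm_up h, hm_sm, hm_sm, hm_sm, hm_sm, hm_sm, hm_sm,
    hm_ml hAA1, hm_ml hA1, hm_ml hAA1, hm_ml hA1, hm_ml hA1, hm_ad u v (by rw [sm_length]; exact hS),
    hm_sm, hm_121 h, hm_ml (by simp), hm_ml hS1, hm_one]
  push_cast
  ring

theorem hm_Pl {u v : ℝ} (h : u + v = 1) (lo hi : ℤ) {A Q : List ℤ} (hA : A.length = 4)
    (hQ : Q.length = 3) :
    hm (Pl lo hi A Q) u v = 2 * (TT : ℝ) ^ 4 - 4 * (TT : ℝ) ^ 3 * hm A u v -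
      4 * (TT : ℝ) ^ 2 * hm A u v ^ 2 - 2 * (TT : ℝ) ^ 2 * hm (Sl lo hi) u v -
      (ta : ℝ) * tb * hm [lo, hi] u v * hm Q u v := by
  have hA1 : 1 ≤ A.length := by omega
  have hQ1 : 1 ≤ Q.length := by omega
  have hS := len_Sl lo hi
  have l1 : (up 6 [2 * TT ^ 4]).length = 7 := by
    rw [len_up]
    rfl
  have l2 : (up 3 (sm (-(4 * TT ^ 3)) A)).length = 7 := by
    rw [len_up, sm_length, hA]
  have l3 : (sm (-(4 * TT ^ 2)) (ml A A)).length = 7 := by
    rw [sm_length, len_ml _ hA1]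
    omega
  have l4 : (up 4 (sm (-(2 * TT ^ 2)) (Sl lo hi))).length = 7 := by
    rw [len_up, sm_length, hS]
  have l5 : (up 3 (sm (-(ta * tb)) (ml [lo, hi] Q))).length = 7 := by
    rw [len_up, sm_length, len_ml _ hQ1, hQ]
    rfl
  have m4 := ad_length (l4.trans l5.symm)
  have m3 := ad_length (l3.trans (m4.trans l4).symm)
  have m2 := ad_length (l2.trans (m3.trans l3).symm)
  unfold Pl
  rw [hm_ad u v (l1.trans (m2.trans l2).symm), hm_ad u v (l2.trans (m3.trans l3).symm),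
    hm_ad u v (l3.trans (m4.trans l4).symm), hm_ad u v (l4.trans l5.symm),
    hm_up h, hm_up h, hm_up h, hm_up h, hm_sm, hm_sm, hm_sm, hm_sm, hm_ml hA1, hm_ml hQ1, hm_one]
  push_cast
  ring

/-! ### the comparison -/

/-- the difference of the discriminant data -/
theorem hB_dif {S S' K2 K2' x d : ℝ} (hx : -(31 / 100) ≤ x) (hx2 : x ≤ 0) (hS : |S - S'| ≤ d)
    (hS9 : 0 ≤ S) (hS9' : S ≤ 9) (hS' : 0 ≤ S') (hS'9 : S' ≤ 10) (hK : |K2 - K2'| ≤ 16 * d) :
    |(16 * x ^ 3 + 4 * S * x ^ 2 + (4 * S - 12) * x - (K2 - S ^ 2 + 2 * S - 5)) -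
      (16 * x ^ 3 + 4 * S' * x ^ 2 + (4 * S' - 12) * x - (K2' - S' ^ 2 + 2 * S' - 5))| ≤
      64 * d := by
  obtain ⟨a1, a2⟩ := abs_le.1 hS
  obtain ⟨b1, b2⟩ := abs_le.1 hK
  have e : (16 * x ^ 3 + 4 * S * x ^ 2 + (4 * S - 12) * x - (K2 - S ^ 2 + 2 * S - 5)) -
      (16 * x ^ 3 + 4 * S' * x ^ 2 + (4 * S' - 12) * x - (K2' - S' ^ 2 + 2 * S' - 5)) =
      (S - S') * (4 * x ^ 2 + 4 * x + (S + S') - 2) - (K2 - K2') := by ring
  have hd : 0 ≤ d := (abs_nonneg _).trans hS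
  rw [e]
  refine (abs_sub _ _).trans ?_
  rw [abs_mul]
  have k1 : |4 * x ^ 2 + 4 * x + (S + S') - 2| ≤ 24 := by
    rw [abs_le]
    constructor <;> nlinarith
  have k2 : |S - S'| * |4 * x ^ 2 + 4 * x + (S + S') - 2| ≤ d * 24 :=
    mul_le_mul hS k1 (abs_nonneg _) hd
  linarith

end Pool.Agent.Helper6.XBC
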