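import Pool.Agent.Helper6.CXT.XB14

/-!
The threshold of type B for the classes `(13, 14, r)`, `r ≥ 16`: the comparison with a quadratic
polynomial.
-/

set_option autoImplicit false
set_option exponentiation.threshold 20000
noncomputable section
namespace Pool.Agent.Helper6.XBC

open Pool.Agent.Helper6.MONO Pool.Agent.Helper21.XB

theorem sq_dif {P t M : ℝ} (h : |P - t| ≤ 1) (h0 : 0 ≤ t) (hM : 2 * t + 1 ≤ M) :
    |P ^ 2 - t ^ 2| ≤ M := by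
  obtain ⟨a, b⟩ := abs_le.1 h
  rw [abs_le]
  constructor <;> nlinarith

theorem pr_dif {P t Q s M : ℝ} (h : |P - t| ≤ 1) (h' : |Q - s| ≤ 1) (h0 : 0 ≤ t) (h1 : 0 ≤ s)
    (hM : t + s + 1 ≤ M) : |P * Q - t * s| ≤ M := by
  obtain ⟨a, b⟩ := abs_le.1 h
  obtain ⟨c, d⟩ := abs_le.1 h'
  rw [abs_le]
  constructor <;> nlinarith

/-- the exact and the rounded data -/
theorem data_dif {p q k t s w T : ℝ} (hT : T = 2 ^ 48) (ht : t = 546591650894800)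
    (hs : s = 548835622751895) (hp : |T * p - t| ≤ 1) (hq : |T * q - s| ≤ 1) (hw : w = T * k)
    (hw0 : 0 ≤ w) (hw2 : w ≤ 2 ^ 49) :
    |SS p q k - (t ^ 2 + s ^ 2 - 3 * T ^ 2 + w ^ 2) / T ^ 2| ≤ 1 / 2 ^ 45 ∧
    |KK p q k ^ 2 - t ^ 2 * s ^ 2 * w ^ 2 / T ^ 6| ≤ 16 * (1 / 2 ^ 45) ∧
    |KK p q k - t * s * w / T ^ 3| ≤ 1 / 2 ^ 45 := by
  have hT0 : 0 < T := by rw [hT]; positivity
  have a1 : |(T * p) ^ 2 - t ^ 2| ≤ 2 ^ 50 := sq_dif hp (by rw [ht]; norm_num)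
    (by rw [ht]; norm_num)
  have a2 : |(T * q) ^ 2 - s ^ 2| ≤ 2 ^ 50 := sq_dif hq (by rw [hs]; norm_num)
    (by rw [hs]; norm_num)
  have a3 : |(T * p) * (T * q) - t * s| ≤ 2 ^ 50 := pr_dif hp hq (by rw [ht]; norm_num)
    (by rw [hs]; norm_num) (by rw [ht, hs]; norm_num)
  have hk : k = w / T := by rw [hw]; field_simp
  refine ⟨?_, ?_, ?_⟩
  · have e : SS p q k - (t ^ 2 + s ^ 2 - 3 * T ^ 2 + w ^ 2) / T ^ 2 =
        (((T * p) ^ 2 - t ^ 2) + ((T * q) ^ 2 - s ^ 2)) / T ^ 2 := by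
      unfold SS
      rw [hk]
      field_simp
      ring
    have hM : (1 / 2 ^ 45 * T ^ 2 : ℝ) = 2 ^ 50 + 2 ^ 50 := by
      rw [hT]
      norm_num
    rw [e, abs_div, abs_of_pos (by positivity : (0 : ℝ) < T ^ 2), div_le_iff₀ (by positivity), hM]
    exact (abs_add_le _ _).trans (add_le_add a1 a2)
  · have e : KK p q k ^ 2 - t ^ 2 * s ^ 2 * w ^ 2 / T ^ 6 =
        (((T * p) ^ 2 - t ^ 2) * (T * q) ^ 2 + t ^ 2 * ((T * q) ^ 2 - s ^ 2)) * w ^ 2 / T ^ 6 := by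
      unfold KK
      rw [hk]
      field_simp
      ring
    rw [e, abs_div, abs_of_pos (by positivity : (0 : ℝ) < T ^ 6), div_le_iff₀ (by positivity),
      abs_mul, abs_of_nonneg (by positivity : (0 : ℝ) ≤ w ^ 2)]
    have b1 : (T * q) ^ 2 ≤ 2 ^ 98 := by
      have := (abs_le.1 a2).2
      rw [hs] at this
      norm_num at this ⊢
      linarith
    have b2 : t ^ 2 ≤ 2 ^ 98 := by
      rw [ht]
      norm_num
    have b3 : |((T * p) ^ 2 - t ^ 2) * (T * q) ^ 2 + t ^ 2 * ((T * q) ^ 2 - s ^ 2)| ≤ 2 ^ 149 := by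
      refine (abs_add_le _ _).trans ?_
      rw [abs_mul, abs_mul, abs_of_nonneg (by positivity : (0 : ℝ) ≤ (T * q) ^ 2),
        abs_of_nonneg (by positivity : (0 : ℝ) ≤ t ^ 2)]
      calc |(T * p) ^ 2 - t ^ 2| * (T * q) ^ 2 + t ^ 2 * |(T * q) ^ 2 - s ^ 2|
          ≤ 2 ^ 50 * 2 ^ 98 + 2 ^ 98 * 2 ^ 50 :=
            add_le_add (mul_le_mul a1 b1 (by positivity) (by positivity))
              (mul_le_mul b2 a2 (abs_nonneg _) (by positivity))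
        _ = 2 ^ 149 := by norm_num
    have b4 : w ^ 2 ≤ (2 ^ 49) ^ 2 := pow_le_pow_left₀ hw0 hw2 2
    have hM : (16 * (1 / 2 ^ 45) * T ^ 6 : ℝ) = 2 ^ 149 * (2 ^ 49) ^ 2 := by
      rw [hT]
      norm_num
    rw [hM]
    exact mul_le_mul b3 b4 (by positivity) (by positivity)
  · have e : KK p q k - t * s * w / T ^ 3 = (T * p * (T * q) - t * s) * w / T ^ 3 := by
      unfold KK
      rw [hk]
      field_simp
    rw [e, abs_div, abs_of_pos (by positivity : (0 : ℝ) < T ^ 3), div_le_iff₀ (by positivity),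
      abs_mul, abs_of_nonneg hw0]
    have hM : (1 / 2 ^ 45 * T ^ 3 : ℝ) = 2 ^ 50 * 2 ^ 49 := by
      rw [hT]
      norm_num
    rw [hM]
    exact mul_le_mul a3 hw2 hw0 (by positivity)

/-- **THE LINE OF THE CLASSES `(13, 14, r)`** -/
theorem xB_near {lo hi : ℕ} {A : List ℤ} {XA XB XC : ℤ} {R n : ℕ}
    (ht : tst lo hi A XA XB XC R n = true) {r : ℕ} (hr : 16 ≤ r)
    (h1 : (lo : ℝ) ≤ 2 ^ 48 * Kp r) (h2 : 2 ^ 48 * Kp r ≤ hi) :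
    |2 ^ 48 * xBp 13 14 r - ((1 - (2 ^ 48 * Kp r - lo) / (hi - lo)) ^ 2 * XA +
      2 * ((2 ^ 48 * Kp r - lo) / (hi - lo)) * (1 - (2 ^ 48 * Kp r - lo) / (hi - lo)) * XB +
      ((2 ^ 48 * Kp r - lo) / (hi - lo)) ^ 2 * XC)| ≤ (n : ℝ) := by
  have hcls := T13_Kp hr
  unfold tst at ht
  simp only [Bool.and_eq_true, decide_eq_true_eq] at ht
  obtain ⟨⟨⟨⟨⟨⟨⟨⟨⟨t1, t2⟩, t3⟩, t4⟩, t5⟩, t6⟩, t7⟩, t8⟩, t9⟩, t10⟩ := ht
  have t2' : (lo : ℝ) < hi := by exact_mod_cast t2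
  have t3' : (hi : ℝ) ≤ 2 ^ 49 := by
    have : (hi : ℝ) ≤ 2 * ((TT : ℤ) : ℝ) := by exact_mod_cast t3
    refine this.trans ?_
    unfold TT
    push_cast
    norm_num
  have hTT : ((TT : ℤ) : ℝ) = 2 ^ 48 := by
    unfold TT
    norm_num
  have hta : ((ta : ℤ) : ℝ) = 546591650894800 := by
    unfold ta
    norm_num
  have htb : ((tb : ℤ) : ℝ) = 548835622751895 := by
    unfold tb
    norm_num
  have hd : (0 : ℝ) < hi - lo := by linarith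
  set s : ℝ := (2 ^ 48 * Kp r - lo) / (hi - lo) with hs
  set u : ℝ := 1 - s with hu
  have s0 : 0 ≤ s := div_nonneg (by linarith) hd.le
  have s1 : s ≤ 1 := by
    rw [hs, div_le_one hd]
    linarith
  have u0 : 0 ≤ u := by linarith
  have us : u + s = 1 := by rw [hu]; ring
  have hw : hm [(lo : ℤ), (hi : ℤ)] u s = 2 ^ 48 * Kp r := by
    show ((lo : ℤ) : ℝ) * u ^ 1 + s * (((hi : ℤ) : ℝ) * u ^ 0 + s * 0) = _
    push_cast
    rw [hu, hs]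
    field_simp
    ring
  set w : ℝ := 2 ^ 48 * Kp r with hwd
  have hKr := thr_Kp2 r (by omega)
  have w0 : 0 ≤ w := by
    rw [hwd]
    have := hKr.1
    positivity
  have w2 : w ≤ 2 ^ 49 := h2.trans t3'
  have hq : hm [XA, 2 * XB, XC] u s = u ^ 2 * XA + 2 * s * u * XB + s ^ 2 * XC := by
    show ((XA : ℤ) : ℝ) * u ^ 2 + s * (((2 * XB : ℤ) : ℝ) * u ^ 1 + s * (((XC : ℤ) : ℝ) * u ^ 0 +
      s * 0)) = _
    push_cast
    ring
  set q : ℝ := u ^ 2 * XA + 2 * s * u * XB + s ^ 2 * XC with hqd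
  -- the data
  obtain ⟨d1, d2, d3⟩ := data_dif (p := Kp 13) (q := Kp 14) (k := Kp r) (t := 546591650894800)
    (s := 548835622751895) (w := w) (T := 2 ^ 48) rfl rfl rfl (by exact_mod_cast kp13)
    (by exact_mod_cast kp14) hwd w0 w2
  -- the controls
  have b1 := bdd_le u0 s0 us t7
  have b2 := bdd_le u0 s0 us t8
  have b3 := bdd_le u0 s0 us t9
  have b4 := bdd_le u0 s0 us t10
  rw [hm_Hl us lo hi t1, hm_Sl us, hw, hTT, hta, htb] at b1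
  rw [hm_ad u s (by rw [sm_length, len_up]; exact t1), hm_sm, hm_up us, hm_one] at b2
  rw [hm_Pl us lo hi t1 rfl, hm_Sl us, hw, hq, hTT, hta, htb] at b3
  rw [hq] at b4
  push_cast at b1 b2 b3 b4
  rw [hTT] at b1 b2 b3 b4
  set hA : ℝ := hm A u s with hAd
  set S' : ℝ := (546591650894800 ^ 2 + 548835622751895 ^ 2 - 3 * (2 ^ 48) ^ 2 + w ^ 2) /
    (2 ^ 48) ^ 2 with hS'
  have eS : (546591650894800 ^ 2 + 548835622751895 ^ 2 - 3 * (2 ^ 48) ^ 2 + w ^ 2 : ℝ) =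
    (2 ^ 48) ^ 2 * S' := by
    rw [hS']
    field_simp
  set K2 : ℝ := 546591650894800 ^ 2 * 548835622751895 ^ 2 * w ^ 2 / (2 ^ 48) ^ 6 with hK2
  have eK2 : (546591650894800 ^ 2 * 548835622751895 ^ 2 * w ^ 2 : ℝ) = (2 ^ 48) ^ 6 * K2 := by
    rw [hK2]
    field_simp
  set K1 : ℝ := 546591650894800 * 548835622751895 * w / (2 ^ 48) ^ 3 with hK1
  have eK1 : (546591650894800 * 548835622751895 * w : ℝ) = (2 ^ 48) ^ 3 * K1 := by
    rw [hK1]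
    field_simp
  rw [eS] at b1 b3
  rw [eK2] at b1
  rw [eK1] at b3
  -- the approximation of `c`
  set x : ℝ := hA / 2 ^ 48 with hx
  have ex : hA = 2 ^ 48 * x := by
    rw [hx]
    field_simp
  set ρ : ℝ := R / 2 ^ 48 with hρ
  have eρ : (R : ℝ) = 2 ^ 48 * ρ := by
    rw [hρ]
    field_simp
  have ρ0 : 0 ≤ ρ := by rw [hρ]; positivity
  have ρ9 : ρ ≤ 1 / 100 := by
    have : (100 * R : ℝ) ≤ ((TT : ℤ) : ℝ) := by exact_mod_cast t5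
    rw [hTT, eρ] at this
    have h48 : (0 : ℝ) < 2 ^ 48 := by positivity
    nlinarith
  have en : ∃ ν : ℝ, (n : ℝ) = 2 ^ 48 * ν := ⟨n / 2 ^ 48, by field_simp⟩
  obtain ⟨ν, en⟩ := en
  have eq : ∃ y : ℝ, q = 2 ^ 48 * y := ⟨q / 2 ^ 48, by field_simp⟩
  obtain ⟨y, eqy⟩ := eq
  rw [ex, eρ] at b1 b2
  rw [ex, eρ, en, eqy] at b3
  rw [eqy, abs_mul, abs_of_pos (by positivity : (0 : ℝ) < 2 ^ 48), mul_comm (2 : ℝ) (2 ^ 48)] at b4
  have hy2 : |y| ≤ 2 := le_of_mul_le_mul_left b4 (by positivity)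
  have hν0 : 0 ≤ ν := by
    have : (0 : ℝ) ≤ 2 ^ 48 * ν := by
      rw [← en]
      positivity
    exact nonneg_of_mul_nonneg_right this (by positivity)
  obtain ⟨c1, c2⟩ := abs_le.1 b2
  have x1 : -(31 / 100) ≤ x - ρ := by
    have h48 : (0 : ℝ) < 2 ^ 48 := by positivity
    nlinarith
  have x2 : x ≤ 0 := by
    have h48 : (0 : ℝ) < 2 ^ 48 := by positivity
    nlinarith
  -- the cubic polynomial at the rounded data
  have f1 : |16 * x ^ 3 + 4 * S' * x ^ 2 + (4 * S' - 12) * x - (K2 - S' ^ 2 + 2 * S' - 5)| ≤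
      5 * ρ - 1 / 2 ^ 36 := by
    have e : (16 * (2 ^ 48) ^ 3 * (2 ^ 48 * x) ^ 3 + 4 * (2 ^ 48) ^ 2 * ((2 ^ 48) ^ 2 * S') *
        (2 ^ 48 * x) ^ 2 + 4 * (2 ^ 48) ^ 3 * ((2 ^ 48) ^ 2 * S' - 3 * (2 ^ 48) ^ 2) *
        (2 ^ 48 * x) - (2 ^ 48) ^ 6 * K2 + (2 ^ 48) ^ 2 * ((2 ^ 48) ^ 2 * S') ^ 2 -
        2 * (2 ^ 48) ^ 4 * ((2 ^ 48) ^ 2 * S') + 5 * (2 ^ 48) ^ 6 : ℝ) = (2 ^ 48) ^ 6 *
        (16 * x ^ 3 + 4 * S' * x ^ 2 + (4 * S' - 12) * x - (K2 - S' ^ 2 + 2 * S' - 5)) := by ring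
    rw [e, abs_mul, abs_of_pos (by positivity)] at b1
    have e2 : (5 * (2 ^ 48 * ρ) * (2 ^ 48) ^ 5 - 1152921504606846976 * (2 ^ 48) ^ 4 : ℝ) =
      (2 ^ 48) ^ 6 * (5 * ρ - 1 / 2 ^ 36) := by ring
    rw [e2] at b1
    exact le_of_mul_le_mul_left b1 (by positivity)
  have f2 : |2 * (1 - 2 * x - 2 * x ^ 2 - S') - K1 * y| ≤ 7 * ν - 2 * ρ - 1 / 2 ^ 36 := by
    have e : (2 * (2 ^ 48) ^ 4 - 4 * (2 ^ 48) ^ 3 * (2 ^ 48 * x) - 4 * (2 ^ 48) ^ 2 *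
        (2 ^ 48 * x) ^ 2 - 2 * (2 ^ 48) ^ 2 * ((2 ^ 48) ^ 2 * S') - (2 ^ 48) ^ 3 * K1 *
        (2 ^ 48 * y) : ℝ) = (2 ^ 48) ^ 4 * (2 * (1 - 2 * x - 2 * x ^ 2 - S') - K1 * y) := by ring
    rw [e, abs_mul, abs_of_pos (by positivity)] at b3
    have e2 : (7 * (2 ^ 48 * ν) * (2 ^ 48) ^ 3 - 2 * (2 ^ 48 * ρ) * (2 ^ 48) ^ 3 -
      1152921504606846976 * (2 ^ 48) ^ 2 : ℝ) = (2 ^ 48) ^ 4 * (7 * ν - 2 * ρ - 1 / 2 ^ 36) := by ring
    rw [e2] at b3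
    exact le_of_mul_le_mul_left b3 (by positivity)
  -- the true data
  have hS := hcls.S
  have hS9 : SS (Kp 13) (Kp 14) (Kp r) ≤ 9 := by
    have := hcls.e1
    have := hcls.f1
    have := hcls.g1
    unfold SS
    linarith
  obtain ⟨i1, i2⟩ := abs_le.1 d1
  have g1 := hB_dif (S := SS (Kp 13) (Kp 14) (Kp r)) (S' := S')
    (K2 := KK (Kp 13) (Kp 14) (Kp r) ^ 2) (K2' := K2) (x := x) (d := 1 / 2 ^ 45) (by linarith) x2
    d1 (by linarith) hS9 (by norm_num at i2 ⊢; linarith) (by norm_num at i1 ⊢; linarith) d2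
  have g2 : |hB (SS (Kp 13) (Kp 14) (Kp r)) (KK (Kp 13) (Kp 14) (Kp r)) x| ≤ 5 * ρ := by
    unfold hB
    have := abs_le.1 g1
    have := abs_le.1 f1
    rw [abs_le]
    norm_num at *
    constructor <;> linarith
  have g3 : ∃ η : ℝ, η ≤ 37 / 5 * ν - 2 * ρ ∧
      |2 * (1 - 2 * x - 2 * x ^ 2 - SS (Kp 13) (Kp 14) (Kp r)) -
        KK (Kp 13) (Kp 14) (Kp r) * y| ≤ η := by
    refine ⟨7 * ν - 2 * ρ - 1 / 2 ^ 36 + 1 / 2 ^ 43, ?_, ?_⟩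
    · have : (1 / 2 ^ 43 : ℝ) ≤ 1 / 2 ^ 36 := by norm_num
      linarith
    · have e : 2 * (1 - 2 * x - 2 * x ^ 2 - SS (Kp 13) (Kp 14) (Kp r)) -
          KK (Kp 13) (Kp 14) (Kp r) * y = (2 * (1 - 2 * x - 2 * x ^ 2 - S') - K1 * y) +
          (-(2 * (SS (Kp 13) (Kp 14) (Kp r) - S')) -
            (KK (Kp 13) (Kp 14) (Kp r) - K1) * y) := by ring
      have k1 : |(KK (Kp 13) (Kp 14) (Kp r) - K1) * y| ≤ 1 / 2 ^ 45 * 2 := by
        rw [abs_mul]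
        exact mul_le_mul d3 hy2 (abs_nonneg _) (by positivity)
      rw [e]
      refine (abs_add_le _ _).trans (add_le_add f2 ((abs_sub _ _).trans ?_))
      rw [abs_neg, abs_mul, abs_of_pos (by norm_num : (0 : ℝ) < 2)]
      norm_num at d1 k1 ⊢
      linarith
  obtain ⟨η, e1, e2⟩ := g3
  have fin := core hcls x1 ρ0 ρ9 g2 e2
  rw [en, eqy]
  show |2 ^ 48 * xBr (Kp 13) (Kp 14) (Kp r) - 2 ^ 48 * y| ≤ 2 ^ 48 * ν
  rw [← mul_sub, abs_mul, abs_of_pos (by positivity : (0 : ℝ) < 2 ^ 48)]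
  refine mul_le_mul_of_nonneg_left ?_ (by positivity)
  linarith

end Pool.Agent.Helper6.XBC
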